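import Pool.Agent.Helper662.CubeDec

set_option autoImplicit false

namespace Pool.Agent.Helper662

open Finset

/-- number of edges of the cube -/
def qe : ℕ → ℕ
  | 0 => 0
  | n + 1 => 2 * qe n + 2 ^ n

theorem qe_eq (n : ℕ) : qe (n + 1) = (n + 1) * 2 ^ n := by
  induction n with
  | zero => simp [qe]
  | succ n ih =>
    rw [qe, ih, pow_succ]; ring

/-- parity of a vertex -/
def par {n : ℕ} (x : Fin n → ZMod 2) : ZMod 2 := ∑ i, x i

theorem par_add {n : ℕ} (x y : Fin n → ZMod 2) : par (x + y) = par x + par y := by
  unfold par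
  simp [Finset.sum_add_distrib]

theorem par_single {n : ℕ} (l : Fin n) : par (Pi.single l 1 : Fin n → ZMod 2) = 1 := by
  unfold par
  simp

theorem par_cons {n : ℕ} (a : ZMod 2) (t : Fin n → ZMod 2) :
    par (Fin.cons a t : Fin (n + 1) → ZMod 2) = a + par t := by
  unfold par
  rw [Fin.sum_univ_succ]
  simp

theorem z2 : ∀ y : ZMod 2, y = 0 ∨ y = 1 := by decide
theorem z11 : (1 : ZMod 2) + 1 = 0 := by decide

theorem cons_add_zero {n : ℕ} (a : ZMod 2) (t : Fin n → ZMod 2) :
    (Fin.cons a t : Fin (n + 1) → ZMod 2) + Pi.single 0 1 = Fin.cons (a + 1) t := by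
  funext i
  refine Fin.cases ?_ (fun i => ?_) i
  · simp
  · simp [Pi.single_apply, Fin.succ_ne_zero]

theorem cons_add_succ {n : ℕ} (a : ZMod 2) (t : Fin n → ZMod 2) (l : Fin n) :
    (Fin.cons a t : Fin (n + 1) → ZMod 2) + Pi.single l.succ 1 = Fin.cons a (t + Pi.single l 1) := by
  funext i
  refine Fin.cases ?_ (fun i => ?_) i
  · simp [Pi.single_apply]
  · simp [Pi.single_apply, Fin.succ_inj]

theorem add_self_single {n : ℕ} (t : Fin n → ZMod 2) (l : Fin n) :
    t + Pi.single l 1 + Pi.single l 1 = t := by
  rw [add_assoc]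
  have : (Pi.single l 1 : Fin n → ZMod 2) + Pi.single l 1 = 0 := by
    rw [← Pi.single_add, z11, Pi.single_zero]
  rw [this, add_zero]

/-- the step of the labelling -/
def stepF {n : ℕ} (F : (Fin (n + 1) → ZMod 2) → ℕ) (x : Fin (n + 2) → ZMod 2) : ℕ :=
  if x 0 = 0 then F (Fin.tail x) + (if par (Fin.tail x) = 0 then 0 else qe (n + 1) + 2 ^ (n + 1))
  else F (Fin.tail x + Pi.single 0 1) + (qe n + 2 ^ n)

theorem stepF_zero {n : ℕ} (F : (Fin (n + 1) → ZMod 2) → ℕ) (t : Fin (n + 1) → ZMod 2) :
    stepF F (Fin.cons 0 t) = F t + (if par t = 0 then 0 else qe (n + 1) + 2 ^ (n + 1)) := by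
  unfold stepF
  rw [Fin.cons_zero, if_pos rfl, Fin.tail_cons]

theorem stepF_one {n : ℕ} (F : (Fin (n + 1) → ZMod 2) → ℕ) (t : Fin (n + 1) → ZMod 2) :
    stepF F (Fin.cons 1 t) = F (t + Pi.single 0 1) + (qe n + 2 ^ n) := by
  unfold stepF
  rw [Fin.cons_zero, if_neg one_ne_zero, Fin.tail_cons]

/-- The alpha-labelling of the cube. -/
theorem alpha (n : ℕ) : ∃ F : (Fin (n + 1) → ZMod 2) → ℕ,
    (∀ x, par x = 0 → F x ≤ qe n) ∧
    (∀ x, par x = 1 → qe n < F x ∧ F x ≤ qe (n + 1)) ∧
    Function.Injective F ∧
    (∀ δ, 1 ≤ δ → δ ≤ qe (n + 1) → ∃ x l, par x = 0 ∧ F (x + Pi.single l 1) = F x + δ) ∧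
    (∀ δ, qe n < δ → δ ≤ qe n + 2 ^ n → ∃ x, par x = 0 ∧ F (x + Pi.single 0 1) = F x + δ) := by
  induction n with
  | zero =>
    have hpar : ∀ x : Fin 1 → ZMod 2, par x = x 0 := by
      intro x; unfold par; simp
    refine ⟨fun x => (x 0).val, ?_, ?_, ?_, ?_, ?_⟩
    · intro x hx
      rw [hpar] at hx
      simp [hx]
    · intro x hx
      rw [hpar] at hx
      dsimp only
      rw [hx]
      simp [qe, ZMod.val_one]
    · intro x y h
      funext i
      have : i = 0 := Fin.ext (by have := i.2; omega)
      rw [this]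
      exact ZMod.val_injective 2 h
    · intro δ h1 h2
      simp [qe] at h2
      have : δ = 1 := by omega
      subst this
      refine ⟨0, 0, by rw [hpar]; rfl, ?_⟩
      simp [ZMod.val_one]
    · intro δ h1 h2
      simp [qe] at h1 h2
      have : δ = 1 := by omega
      subst this
      refine ⟨0, by rw [hpar]; rfl, ?_⟩
      simp [ZMod.val_one]
  | succ n ih =>
    obtain ⟨F, h0, h1, hinj, hd, hm⟩ := ih
    have hq1 : qe (n + 1) = 2 * qe n + 2 ^ n := rfl
    have hq2 : qe (n + 1 + 1) = 2 * qe (n + 1) + 2 ^ (n + 1) := rfl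
    have hp2 : 2 ^ (n + 1) = 2 * 2 ^ n := by ring
    have hpos : 0 < 2 ^ n := Nat.two_pow_pos n
    have hparf : ∀ t : Fin (n + 1) → ZMod 2, par (t + Pi.single 0 1) = par t + 1 := by
      intro t; rw [par_add, par_single]
    -- the two kinds of vertices
    have hrep : ∀ x : Fin (n + 2) → ZMod 2, (∃ t, x = Fin.cons 0 t) ∨ ∃ t, x = Fin.cons 1 t := by
      intro x
      rcases z2 (x 0) with h | h
      · left; exact ⟨Fin.tail x, by rw [← h, Fin.cons_self_tail]⟩
      · right; exact ⟨Fin.tail x, by rw [← h, Fin.cons_self_tail]⟩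
    refine ⟨stepF F, ?_, ?_, ?_, ?_, ?_⟩
    · intro x hx
      rcases hrep x with ⟨t, rfl⟩ | ⟨t, rfl⟩
      · rw [par_cons, zero_add] at hx
        rw [stepF_zero, if_pos hx, add_zero, hq1]
        have := h0 t hx
        omega
      · rw [par_cons] at hx
        have ht : par (t + Pi.single 0 1) = 0 := by rw [hparf, add_comm]; exact hx
        rw [stepF_one, hq1]
        have := h0 _ ht
        omega
    · intro x hx
      rcases hrep x with ⟨t, rfl⟩ | ⟨t, rfl⟩
      · rw [par_cons, zero_add] at hx
        rw [stepF_zero, if_neg (by rw [hx]; exact one_ne_zero)]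
        have := h1 t hx
        omega
      · rw [par_cons] at hx
        have ht : par (t + Pi.single 0 1) = 1 := by rw [hparf, add_comm]; exact hx
        rw [stepF_one]
        have := h1 _ ht
        omega
    · intro x y hxy
      rcases hrep x with ⟨t, rfl⟩ | ⟨t, rfl⟩ <;> rcases hrep y with ⟨s, rfl⟩ | ⟨s, rfl⟩
      · rw [stepF_zero, stepF_zero] at hxy
        have hts : t = s := by
          apply hinj
          rcases z2 (par t) with ht | ht <;> rcases z2 (par s) with hs | hs
          · rw [if_pos ht, if_pos hs] at hxy; omega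
          · rw [if_pos ht, if_neg (by rw [hs]; exact one_ne_zero)] at hxy
            have := h0 t ht
            have := h1 s hs
            omega
          · rw [if_pos hs, if_neg (by rw [ht]; exact one_ne_zero)] at hxy
            have := h0 s hs
            have := h1 t ht
            omega
          · rw [if_neg (by rw [ht]; exact one_ne_zero), if_neg (by rw [hs]; exact one_ne_zero)] at hxy
            omega
        rw [hts]
      · exfalso
        rw [stepF_zero, stepF_one] at hxy
        rcases z2 (par t) with ht | ht <;> rcases z2 (par (s + Pi.single 0 1)) with hs | hs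
        · rw [if_pos ht] at hxy
          have := h0 t ht
          have := h0 _ hs
          omega
        · rw [if_pos ht] at hxy
          have := h0 t ht
          have := h1 _ hs
          omega
        · rw [if_neg (by rw [ht]; exact one_ne_zero)] at hxy
          have := h1 t ht
          have := h0 _ hs
          omega
        · rw [if_neg (by rw [ht]; exact one_ne_zero)] at hxy
          have := h1 t ht
          have := h1 _ hs
          omega
      · exfalso
        rw [stepF_zero, stepF_one] at hxy
        rcases z2 (par s) with ht | ht <;> rcases z2 (par (t + Pi.single 0 1)) with hs | hs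
        · rw [if_pos ht] at hxy
          have := h0 s ht
          have := h0 _ hs
          omega
        · rw [if_pos ht] at hxy
          have := h0 s ht
          have := h1 _ hs
          omega
        · rw [if_neg (by rw [ht]; exact one_ne_zero)] at hxy
          have := h1 s ht
          have := h0 _ hs
          omega
        · rw [if_neg (by rw [ht]; exact one_ne_zero)] at hxy
          have := h1 s ht
          have := h1 _ hs
          omega
      · rw [stepF_one, stepF_one] at hxy
        have := hinj (Nat.add_right_cancel hxy)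
        rw [add_right_cancel this]
    · intro δ hδ1 hδ2
      by_cases c1 : δ ≤ qe (n + 1)
      · obtain ⟨t, l, ht, htl⟩ := hd δ hδ1 c1
        refine ⟨Fin.cons 1 (t + Pi.single 0 1), l.succ, ?_, ?_⟩
        · rw [par_cons, hparf, ht, zero_add, z11]
        · have : t + Pi.single 0 1 + Pi.single l 1 + Pi.single 0 1 = t + Pi.single l 1 := by
            have e : t + Pi.single 0 1 + Pi.single l 1 + Pi.single 0 1 =
              (t + Pi.single l 1) + Pi.single 0 1 + Pi.single 0 1 := by abel
            rw [e, add_self_single]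
          rw [cons_add_succ, stepF_one, stepF_one, this, add_self_single, htl]
          ring
      by_cases c2 : δ ≤ qe (n + 1) + 2 ^ n
      · obtain ⟨t, ht, htl⟩ := hm (δ - (qe n + 2 ^ n)) (by omega) (by omega)
        refine ⟨Fin.cons 0 t, 0, ?_, ?_⟩
        · rw [par_cons, ht, zero_add]
        · rw [cons_add_zero, zero_add, stepF_one, stepF_zero, if_pos ht, htl]
          omega
      by_cases c3 : δ ≤ qe (n + 1) + 2 ^ (n + 1)
      · obtain ⟨t, ht, htl⟩ := hm (δ - (qe (n + 1) + 2 ^ n) + qe n) (by omega) (by omega)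
        refine ⟨Fin.cons 1 (t + Pi.single 0 1), 0, ?_, ?_⟩
        · rw [par_cons, hparf, ht, zero_add, z11]
        · rw [cons_add_zero, z11, stepF_one, stepF_zero, add_self_single, if_neg, htl]
          · omega
          · rw [hparf, ht, zero_add]; exact one_ne_zero
      · obtain ⟨t, l, ht, htl⟩ := hd (δ - (qe (n + 1) + 2 ^ (n + 1))) (by omega) (by omega)
        refine ⟨Fin.cons 0 t, l.succ, ?_, ?_⟩
        · rw [par_cons, ht, zero_add]
        · rw [cons_add_succ, stepF_zero, stepF_zero, if_pos ht, if_neg, htl]
          · omega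
          · rw [par_add, par_single, ht, zero_add]; exact one_ne_zero
    · intro δ hδ1 hδ2
      by_cases c2 : δ ≤ qe (n + 1) + 2 ^ n
      · obtain ⟨t, ht, htl⟩ := hm (δ - (qe n + 2 ^ n)) (by omega) (by omega)
        refine ⟨Fin.cons 0 t, ?_, ?_⟩
        · rw [par_cons, ht, zero_add]
        · rw [cons_add_zero, zero_add, stepF_one, stepF_zero, if_pos ht, htl]
          omega
      · obtain ⟨t, ht, htl⟩ := hm (δ - (qe (n + 1) + 2 ^ n) + qe n) (by omega) (by omega)
        refine ⟨Fin.cons 1 (t + Pi.single 0 1), ?_, ?_⟩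
        · rw [par_cons, hparf, ht, zero_add, z11]
        · rw [cons_add_zero, z11, stepF_one, stepF_zero, add_self_single, if_neg, htl]
          · omega
          · rw [hparf, ht, zero_add]; exact one_ne_zero

/-- number of vertices of even parity -/
theorem card_even (n : ℕ) :
    (Finset.univ.filter (fun x : Fin (n + 1) → ZMod 2 => par x = 0)).card = 2 ^ n := by
  have h1 : (Finset.univ.filter (fun x : Fin (n + 1) → ZMod 2 => par x = 0)).card =
      (Finset.univ.filter (fun x : Fin (n + 1) → ZMod 2 => ¬ par x = 0)).card := by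
    apply Finset.card_bij (fun x _ => x + Pi.single 0 1)
    · intro x hx
      rw [Finset.mem_filter] at hx ⊢
      refine ⟨Finset.mem_univ _, ?_⟩
      rw [par_add, par_single, hx.2, zero_add]
      exact one_ne_zero
    · intro x _ y _ h
      exact add_right_cancel h
    · intro y hy
      rw [Finset.mem_filter] at hy
      refine ⟨y + Pi.single 0 1, ?_, add_self_single _ _⟩
      rw [Finset.mem_filter]
      refine ⟨Finset.mem_univ _, ?_⟩
      rw [par_add, par_single]
      rcases z2 (par y) with h | h
      · exact absurd h hy.2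
      · rw [h, z11]
  have h2 := Finset.card_filter_add_card_filter_not
    (s := (Finset.univ : Finset (Fin (n + 1) → ZMod 2))) (fun x => par x = 0)
  rw [← h1, Finset.card_univ] at h2
  have h3 : Fintype.card (Fin (n + 1) → ZMod 2) = 2 * 2 ^ n := by
    simp [pow_succ]; ring
  omega

end Pool.Agent.Helper662
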