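import Pool.Agent.Helper662.RPart

set_option autoImplicit false

namespace Pool.Agent.Helper662

open Finset

section classes
variable {M r : ℕ} [NeZero r]

theorem cls_unique (hr : r = 2 * M + 1) (a b : ℕ) (ha : 1 ≤ a) (haM : a ≤ M) (hb : 1 ≤ b)
    (hbM : b ≤ M) (h : (a : ZMod r) = b ∨ (a : ZMod r) = -b) : a = b := by
  rcases h with h | h
  · rw [ZMod.natCast_eq_natCast_iff'] at h
    rwa [Nat.mod_eq_of_lt (by omega), Nat.mod_eq_of_lt (by omega)] at h
  · exfalso
    have h1 : ((a + b : ℕ) : ZMod r) = 0 := by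
      push_cast
      rw [h]; abel
    rw [ZMod.natCast_eq_zero_iff] at h1
    have := Nat.le_of_dvd (by omega) h1
    omega

theorem cls_exists (hr : r = 2 * M + 1) (z : ZMod r) (hz : z ≠ 0) :
    ∃ a : ℕ, 1 ≤ a ∧ a ≤ M ∧ (z = a ∨ z = -a) := by
  have h1 := ZMod.natAbs_valMinAbs_le z
  have h2 : ((z.valMinAbs : ℤ) : ZMod r) = z := ZMod.coe_valMinAbs z
  refine ⟨z.valMinAbs.natAbs, ?_, by omega, ?_⟩
  · by_contra h
    have h3 : z.valMinAbs = 0 := by omega
    rw [ZMod.valMinAbs_eq_zero] at h3
    exact hz h3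
  · rcases Int.natAbs_eq z.valMinAbs with h3 | h3
    · left
      conv_lhs => rw [← h2, h3]
      rw [Int.cast_natCast]
    · right
      conv_lhs => rw [← h2, h3]
      rw [Int.cast_neg, Int.cast_natCast]

theorem cls_ne_neg (hr : r = 2 * M + 1) (a : ℕ) (ha : 1 ≤ a) (haM : a ≤ M) :
    (a : ZMod r) ≠ -(a : ZMod r) := by
  intro h
  have h1 : ((a + a : ℕ) : ZMod r) = 0 := by
    push_cast
    nth_rewrite 1 [h]
    abel
  rw [ZMod.natCast_eq_zero_iff] at h1
  have := Nat.le_of_dvd (by omega) h1
  omega

theorem cls_eq (hr : r = 2 * M + 1) (a b : ℕ) (ha : 1 ≤ a) (haM : a ≤ M) (hb : 1 ≤ b)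
    (hbM : b ≤ M) (z : ZMod r) (h : z = a ∨ z = -a) (h' : z = b ∨ z = -b) : a = b := by
  apply cls_unique hr a b ha haM hb hbM
  rcases h with h | h <;> rcases h' with h' | h'
  · left; rw [← h, h']
  · right; rw [← h, h']
  · right
    rw [← h', h, neg_neg]
  · left
    apply neg_injective
    rw [← h, h']

end classes

section
variable {T : Type} [AddCommGroup T] [Module (ZMod 2) T] [Finite T]

/-- The mixed differences, except those in `WS` between consecutive parts. -/
theorem cubeDec_mixedAll {r M : ℕ} [NeZero r] (hr : r = 2 * M + 1) (d : ℕ) (hd : 1 ≤ d)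
    (x : ℕ → ℕ) (hxd : ∀ j, x j < d) (hxM : x M = 0)
    (E : ℕ → Fin d → T) (α : T) (WS : Set T)
    (hli : ∀ j, LinearIndependent (ZMod 2) (fun l => (quadA d (x j) l, E j l)))
    (hsepa : ∀ j, ∀ l l' : Fin d, (l : ℕ) < x j → (l' : ℕ) < x j → E j l ≠ E j l' + α)
    (hsepb : ∀ j, x j ≠ 0 → ∀ l l' : Fin d, x j ≤ (l : ℕ) → x j ≤ (l' : ℕ) → E j l ≠ E j l' + α)
    (hdis : ∀ j v, v ∈ quadSet (E (j + 1)) α (fun l => l < x (j + 1)) →
      v ∉ quadSet (E j) α (fun l => x j ≤ l))
    (hdis1 : ∀ v, v ∈ quadSet (E 1) α (fun l => l < x 1) → v ∉ WS)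
    (hfill1 : 1 ≤ M → AffFill d {v : T | v ∉ quadSet (E 1) α (fun l => l < x 1) ∧ v ∉ WS})
    (hfill : ∀ j, 1 ≤ j → j < M → AffFill d {v : T |
      v ∉ quadSet (E (j + 1)) α (fun l => l < x (j + 1)) ∧
      ¬ (x j ≠ 0 ∧ v ∈ quadSet (E j) α (fun l => x j ≤ l))}) :
    CubeDec d (fun u v : ZMod r × T => v.1 - u.1 ≠ 0 ∧
      ¬ ((v.1 - u.1 = 1 ∨ v.1 - u.1 = -1) ∧ v.2 - u.2 ∈ WS)) := by
  classical
  -- set of used differences in class `j`
  let A : ℕ → Set T := fun j => quadSet (E j) α (fun l => l < x j)
  let B : ℕ → Set T := fun j => {v | x j ≠ 0 ∧ v ∈ quadSet (E j) α (fun l => x j ≤ l)}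
  let B' : ℕ → Set T := fun j => if j = 0 then WS else B j
  have hA0 : ∀ j v, v ∈ A j → x j ≠ 0 := by
    rintro j v ⟨l, hl, _⟩ h0
    omega
  have hAB : ∀ j v, v ∈ A (j + 1) → v ∉ B' j := by
    intro j v hv
    by_cases hj : j = 0
    · subst hj
      simp only [B', if_pos rfl]
      exact hdis1 v hv
    · simp only [B', if_neg hj]
      rintro ⟨_, h⟩
      exact hdis j v hv h
  refine CubeDec.combine (β := Fin M ⊕ Fin M)
    (fun b => Sum.elim
      (fun j : Fin M => fun u v : ZMod r × T => x (j + 1) ≠ 0 ∧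
        (((v.1 - u.1 = ((j + 1 : ℕ) : ZMod r) ∨ v.1 - u.1 = -((j + 1 : ℕ) : ZMod r)) ∧
            v.2 - u.2 ∈ A (j + 1)) ∨
          ((v.1 - u.1 = ((j + 2 : ℕ) : ZMod r) ∨ v.1 - u.1 = -((j + 2 : ℕ) : ZMod r)) ∧
            v.2 - u.2 ∈ quadSet (E (j + 1)) α (fun l => x (j + 1) ≤ l))))
      (fun j : Fin M => fun u v : ZMod r × T =>
        (v.1 - u.1 = ((j + 1 : ℕ) : ZMod r) ∨ v.1 - u.1 = -((j + 1 : ℕ) : ZMod r)) ∧
          v.2 - u.2 ∈ {v : T | v ∉ A (j + 1) ∧ v ∉ B' j}) b) ?_ ?_ ?_
  · -- each piece is contained in the relation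
    have hclsne : ∀ a : ℕ, 1 ≤ a → a ≤ M → ∀ z : ZMod r, (z = a ∨ z = -a) → z ≠ 0 := by
      intro a ha haM z hz h0
      have h1 := cls_ne_neg hr a ha haM
      rcases hz with hz | hz
      · rw [h0] at hz; rw [← hz] at h1; exact h1 (by rw [neg_zero])
      · rw [h0] at hz
        have : (a : ZMod r) = 0 := by rw [← neg_eq_zero, ← hz]
        rw [this] at h1; exact h1 (by rw [neg_zero])
    have hcls1 : ∀ a : ℕ, 1 ≤ a → a ≤ M → ∀ z : ZMod r, (z = a ∨ z = -a) →
        (z = 1 ∨ z = -1) → a = 1 := by
      intro a ha haM z hz hz1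
      apply cls_eq hr a 1 ha haM le_rfl (by omega) z hz
      simpa using hz1
    rintro (j | j) u v h
    · simp only [Sum.elim_inl] at h
      obtain ⟨hx0, ⟨h1, h2⟩ | ⟨h1, h2⟩⟩ := h
      · have hj1 := hclsne (j + 1) (by omega) (by omega) _ h1
        refine ⟨hj1, ?_⟩
        rintro ⟨h3, h4⟩
        have := hcls1 (j + 1) (by omega) (by omega) _ h1 h3
        have hj0 : (j : ℕ) = 0 := by omega
        rw [hj0] at h2
        exact hAB 0 _ h2 (by simpa [B'] using h4)
      · have hjM : (j : ℕ) + 1 ≠ M := by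
          intro h; rw [h] at hx0; exact hx0 hxM
        have hj2 := j.2
        have hj1 := hclsne (j + 2) (by omega) (by omega) _ h1
        refine ⟨hj1, ?_⟩
        rintro ⟨h3, h4⟩
        have := hcls1 (j + 2) (by omega) (by omega) _ h1 h3
        omega
    · simp only [Sum.elim_inr, Set.mem_ofPred_eq] at h
      obtain ⟨h1, h2, h3⟩ := h
      refine ⟨hclsne (j + 1) (by omega) (by omega) _ h1, ?_⟩
      rintro ⟨h4, h5⟩
      have := hcls1 (j + 1) (by omega) (by omega) _ h1 h4
      have hj0 : (j : ℕ) = 0 := by omega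
      rw [hj0] at h3
      exact h3 (by simpa [B'] using h5)
  · -- each pair lies in a unique piece
    rintro u v ⟨h1, h2⟩
    obtain ⟨a, ha, haM, hz⟩ := cls_exists hr _ h1
    obtain ⟨j, rfl⟩ : ∃ j, a = j + 1 := ⟨a - 1, by omega⟩
    have hcls : ∀ b : ℕ, 1 ≤ b → b ≤ M →
        (v.1 - u.1 = (b : ZMod r) ∨ v.1 - u.1 = -(b : ZMod r)) → b = j + 1 :=
      fun b hb hbM h => cls_eq hr b (j + 1) hb hbM ha haM _ h hz
    by_cases hvA : v.2 - u.2 ∈ A (j + 1)
    · refine ⟨Sum.inl ⟨j, by omega⟩, ?_, ?_⟩
      · simp only [Sum.elim_inl]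
        exact ⟨hA0 _ _ hvA, Or.inl ⟨hz, hvA⟩⟩
      · rintro (i | i) h
        · simp only [Sum.elim_inl] at h
          obtain ⟨hx0, ⟨h3, h4⟩ | ⟨h3, h4⟩⟩ := h
          · have := hcls _ (by omega) (by omega) h3
            congr 1
            apply Fin.ext
            dsimp only
            omega
          · exfalso
            have hjM : (i : ℕ) + 1 ≠ M := by
              intro h; rw [h] at hx0; exact hx0 hxM
            have hi2 := i.2
            have h5 := hcls _ (by omega) (by omega) h3
            have h6 : (i : ℕ) + 1 = j := by omega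
            rw [h6] at h4
            exact hdis j _ hvA h4
        · exfalso
          simp only [Sum.elim_inr, Set.mem_ofPred_eq] at h
          obtain ⟨h3, h4, h5⟩ := h
          have := hcls _ (by omega) (by omega) h3
          have h6 : (i : ℕ) = j := by omega
          rw [h6] at h4
          exact h4 hvA
    · by_cases hvB : j ≠ 0 ∧ x j ≠ 0 ∧ v.2 - u.2 ∈ quadSet (E j) α (fun l => x j ≤ l)
      · obtain ⟨hj0, hxj, hvB⟩ := hvB
        obtain ⟨i0, rfl⟩ : ∃ i0, j = i0 + 1 := ⟨j - 1, by omega⟩
        refine ⟨Sum.inl ⟨i0, by omega⟩, ?_, ?_⟩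
        · simp only [Sum.elim_inl]
          exact ⟨hxj, Or.inr ⟨hz, hvB⟩⟩
        · rintro (i | i) h
          · simp only [Sum.elim_inl] at h
            obtain ⟨hx0, ⟨h3, h4⟩ | ⟨h3, h4⟩⟩ := h
            · exfalso
              have := hcls _ (by omega) (by omega) h3
              have h6 : (i : ℕ) = i0 + 1 := by omega
              rw [h6] at h4
              exact hvA h4
            · have hjM : (i : ℕ) + 1 ≠ M := by
                intro h; rw [h] at hx0; exact hx0 hxM
              have hi2 := i.2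
              have h5 := hcls _ (by omega) (by omega) h3
              congr 1
              apply Fin.ext
              dsimp only
              omega
          · exfalso
            simp only [Sum.elim_inr, Set.mem_ofPred_eq] at h
            obtain ⟨h3, h4, h5⟩ := h
            have := hcls _ (by omega) (by omega) h3
            have h6 : (i : ℕ) = i0 + 1 := by omega
            rw [h6] at h5
            apply h5
            simp only [B', if_neg hj0]
            exact ⟨hxj, hvB⟩
      · have hvB' : v.2 - u.2 ∉ B' j := by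
          by_cases hj : j = 0
          · subst hj
            simp only [B', if_pos rfl]
            intro h3
            apply h2
            refine ⟨?_, h3⟩
            simpa using hz
          · simp only [B', if_neg hj]
            intro h3
            exact hvB ⟨hj, h3⟩
        refine ⟨Sum.inr ⟨j, by omega⟩, ?_, ?_⟩
        · simp only [Sum.elim_inr, Set.mem_ofPred_eq]
          exact ⟨hz, hvA, hvB'⟩
        · rintro (i | i) h
          · exfalso
            simp only [Sum.elim_inl] at h
            obtain ⟨hx0, ⟨h3, h4⟩ | ⟨h3, h4⟩⟩ := h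
            · have := hcls _ (by omega) (by omega) h3
              have h6 : (i : ℕ) = j := by omega
              rw [h6] at h4
              exact hvA h4
            · have hjM : (i : ℕ) + 1 ≠ M := by
                intro h; rw [h] at hx0; exact hx0 hxM
              have hi2 := i.2
              have h5 := hcls _ (by omega) (by omega) h3
              have h6 : (i : ℕ) + 1 = j := by omega
              rw [h6] at h4 hx0
              exact hvB ⟨by omega, hx0, h4⟩
          · simp only [Sum.elim_inr, Set.mem_ofPred_eq] at h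
            have := hcls _ (by omega) (by omega) h.1
            congr 1
            apply Fin.ext
            dsimp only
            omega
  · rintro (j | j)
    · have hj2 := j.2
      by_cases hx0 : x (j + 1) = 0
      · apply CubeDec.empty
        intro u v h
        simp only [Sum.elim_inl] at h
        exact h.1 hx0
      · have hjM : (j : ℕ) + 1 ≠ M := by
          intro h; rw [h] at hx0; exact hx0 hxM
        have e1 := cls_ne_neg hr (j + 1) (by omega) (by omega)
        have e2 := cls_ne_neg hr (j + 2) (by omega) (by omega)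
        have e3 : ((j + 1 : ℕ) : ZMod r) ≠ ((j + 2 : ℕ) : ZMod r) := by
          intro h
          have := cls_unique hr (j + 1) (j + 2) (by omega) (by omega) (by omega) (by omega)
            (Or.inl h)
          omega
        have e4 : ((j + 1 : ℕ) : ZMod r) ≠ -((j + 2 : ℕ) : ZMod r) := by
          intro h
          have := cls_unique hr (j + 1) (j + 2) (by omega) (by omega) (by omega) (by omega)
            (Or.inr h)
          omega
        refine CubeDec.congr ?_ (cubeDec_quad d (x (j + 1)) (by omega) (hxd _) _ _ e1 e2 e3 e4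
          (E (j + 1)) α (hli _) (hsepa _) (hsepb _ hx0))
        intro u v
        simp only [Sum.elim_inl]
        constructor
        · intro h; exact ⟨hx0, h⟩
        · intro h; exact h.2
    · have hj2 := j.2
      have hf : AffFill d {v : T | v ∉ A (j + 1) ∧ v ∉ B' j} := by
        by_cases hj : (j : ℕ) = 0
        · rw [hj]
          simp only [B', if_pos rfl]
          exact hfill1 (by omega)
        · simp only [B', if_neg hj]
          exact hfill j (by omega) (by omega)
      obtain ⟨k, b, hb1, hb2, hb3⟩ := hf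
      exact cubeDec_mixed d k hd _ (cls_ne_neg hr (j + 1) (by omega) (by omega)) _ b hb1 hb2 hb3

end

end Pool.Agent.Helper662
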