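import Pool.Agent.Helper662.Alpha
import Pool.Agent.Helper662.MixedPart

set_option autoImplicit false

namespace Pool.Agent.Helper662

open Finset

/-- The orders congruent to one. -/
theorem caseA (n t m : ℕ) [NeZero m] (hm : m = 2 * (qe (n + 1) * t) + 1) :
    CubeDec (n + 1) (fun u v : ZMod m => u ≠ v) := by
  classical
  obtain ⟨F, h0, h1, hinj, hd, -⟩ := alpha n
  set q := qe (n + 1) with hq
  have hqpos : 0 < q := by
    rw [hq, qe_eq]; positivity
  have hqn : qe n ≤ q := by
    have : q = 2 * qe n + 2 ^ n := rfl
    have h2 : 0 ≤ 2 ^ n := Nat.zero_le _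
    omega
  have hpar1 : ∀ (x : Fin (n + 1) → ZMod 2) l, par (x + Pi.single l 1) = par x + 1 := by
    intro x l; rw [par_add, par_single]
  -- differences at even vertices
  have hδ : ∀ (x : Fin (n + 1) → ZMod 2) l, par x = 0 →
      F x < F (x + Pi.single l 1) ∧ F (x + Pi.single l 1) ≤ F x + q := by
    intro x l hx
    have h2 := h0 x hx
    have h3 := h1 (x + Pi.single l 1) (by rw [hpar1, hx, zero_add])
    omega
  have hδinj : ∀ (x x' : Fin (n + 1) → ZMod 2) (l l' : Fin (n + 1)), par x = 0 → par x' = 0 →
      F (x + Pi.single l 1) - F x = F (x' + Pi.single l' 1) - F x' → x = x' ∧ l = l' := by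
    have key : Set.InjOn (fun p : (Fin (n + 1) → ZMod 2) × Fin (n + 1) =>
        F (p.1 + Pi.single p.2 1) - F p.1)
        ((Finset.univ.filter (fun x : Fin (n + 1) → ZMod 2 => par x = 0)) ×ˢ
          (Finset.univ : Finset (Fin (n + 1))) : Finset _) := by
      apply Finset.injOn_of_surjOn_of_card_le (t := Finset.Icc 1 q)
      · rintro ⟨x, l⟩ hp
        rw [Finset.mem_coe, Finset.mem_product, Finset.mem_filter] at hp
        have := hδ x l hp.1.2
        rw [Finset.mem_coe, Finset.mem_Icc]
        dsimp only
        omega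
      · intro δ hδ'
        rw [Finset.mem_coe, Finset.mem_Icc] at hδ'
        obtain ⟨x, l, hx, hxl⟩ := hd δ hδ'.1 hδ'.2
        refine ⟨(x, l), ?_, ?_⟩
        · rw [Finset.mem_coe, Finset.mem_product, Finset.mem_filter]
          exact ⟨⟨Finset.mem_univ _, hx⟩, Finset.mem_univ _⟩
        · dsimp only
          omega
      · rw [Finset.card_product, card_even, Finset.card_univ, Fintype.card_fin, Nat.card_Icc, hq,
          qe_eq]
        rw [Nat.add_sub_cancel, mul_comm]
    intro x x' l l' hx hx' h
    have h2 := @key (x, l)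
      (by rw [Finset.mem_coe, Finset.mem_product, Finset.mem_filter]
          exact ⟨⟨Finset.mem_univ _, hx⟩, Finset.mem_univ _⟩) (x', l')
      (by rw [Finset.mem_coe, Finset.mem_product, Finset.mem_filter]
          exact ⟨⟨Finset.mem_univ _, hx'⟩, Finset.mem_univ _⟩) h
    exact ⟨congrArg Prod.fst h2, congrArg Prod.snd h2⟩
  have hit : ∀ i : Fin t, (i : ℕ) * q + q ≤ q * t := by
    intro i
    have h2 : ((i : ℕ) + 1) * q ≤ t * q := Nat.mul_le_mul_right q i.2
    have h3 : ((i : ℕ) + 1) * q = (i : ℕ) * q + q := by ring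
    rw [h3] at h2
    rw [mul_comm q t]; exact h2
  refine CubeDec.combine (β := Fin t) (fun i u v => ∃ δ : ℕ, 1 ≤ δ ∧ δ ≤ q ∧
    (v - u = ((δ + i * q : ℕ) : ZMod m) ∨ v - u = -((δ + i * q : ℕ) : ZMod m))) ?_ ?_ ?_
  · rintro i u v ⟨δ, hδ1, hδ2, h⟩ huv
    have h2 := hit i
    have h3 := cls_ne_neg hm (δ + i * q) (by omega) (by omega)
    rw [huv, sub_self] at h
    have h4 : ((δ + i * q : ℕ) : ZMod m) = 0 := by
      rcases h with h | h
      · exact h.symm
      · rw [← neg_eq_zero, ← h]
    rw [h4] at h3
    exact h3 (by rw [neg_zero])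
  · intro u v huv
    obtain ⟨a, ha1, ha2, hz⟩ := cls_exists hm (v - u) (fun h => huv (sub_eq_zero.1 h).symm)
    have hdiv := Nat.div_add_mod (a - 1) q
    have hmod := Nat.mod_lt (a - 1) hqpos
    have hlt : (a - 1) / q < t := by
      apply Nat.div_lt_of_lt_mul
      omega
    have hdec : (a - 1) % q + 1 + (a - 1) / q * q = a := by
      rw [mul_comm] at hdiv
      omega
    refine ⟨⟨(a - 1) / q, hlt⟩, ⟨(a - 1) % q + 1, by omega, by omega, ?_⟩, ?_⟩
    · dsimp only
      rw [hdec]; exact hz
    · rintro i ⟨δ, hδ1, hδ2, h⟩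
      have h2 := hit i
      have h3 := cls_eq hm (δ + i * q) a (by omega) (by omega) ha1 ha2 _ h hz
      apply Fin.ext
      dsimp only
      rw [← h3]
      have : δ + (i : ℕ) * q - 1 = (δ - 1) + (i : ℕ) * q := by omega
      rw [this, Nat.add_mul_div_right _ _ hqpos, Nat.div_eq_of_lt (by omega), zero_add]
  · intro i
    have h2 := hit i
    let G : (Fin (n + 1) → ZMod 2) → ℕ := fun x => F x + (if par x = 0 then 0 else (i : ℕ) * q)
    have hG0 : ∀ x, par x = 0 → G x = F x := by
      intro x hx; simp only [G, if_pos hx, add_zero]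
    have hG1 : ∀ x, par x = 1 → G x = F x + i * q := by
      intro x hx
      simp only [G]
      rw [if_neg (by rw [hx]; exact one_ne_zero)]
    have hGlt : ∀ x, G x ≤ q * t := by
      intro x
      rcases z2 (par x) with hx | hx
      · rw [hG0 x hx]; have := h0 x hx; omega
      · rw [hG1 x hx]; have := h1 x hx; omega
    have hGinj : Function.Injective G := by
      intro x y hxy
      rcases z2 (par x) with hx | hx <;> rcases z2 (par y) with hy | hy
      · rw [hG0 x hx, hG0 y hy] at hxy; exact hinj hxy
      · exfalso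
        rw [hG0 x hx, hG1 y hy] at hxy
        have := h0 x hx
        have := h1 y hy
        omega
      · exfalso
        rw [hG1 x hx, hG0 y hy] at hxy
        have := h1 x hx
        have := h0 y hy
        omega
      · rw [hG1 x hx, hG1 y hy] at hxy
        exact hinj (Nat.add_right_cancel hxy)
    -- differences as classes
    have hdiff0 : ∀ x l, par x = 0 →
        ((G (x + Pi.single l 1) : ℕ) : ZMod m) - (G x : ZMod m) =
          (((F (x + Pi.single l 1) - F x) + i * q : ℕ) : ZMod m) := by
      intro x l hx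
      have h3 := hδ x l hx
      rw [hG0 x hx, hG1 _ (by rw [hpar1, hx, zero_add])]
      rw [sub_eq_iff_eq_add, ← Nat.cast_add]
      congr 1
      omega
    have hdiff1 : ∀ x l, par x = 1 →
        ((G (x + Pi.single l 1) : ℕ) : ZMod m) - (G x : ZMod m) =
          -(((F x - F (x + Pi.single l 1)) + i * q : ℕ) : ZMod m) := by
      intro x l hx
      have h3 := hdiff0 (x + Pi.single l 1) l (by rw [hpar1, hx, z11])
      rw [add_self_single] at h3
      rw [← h3]; abel
    have hcl : ∀ x l, par x = 0 → 1 ≤ (F (x + Pi.single l 1) - F x) + i * q ∧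
        (F (x + Pi.single l 1) - F x) + i * q ≤ q * t := by
      intro x l hx
      have h3 := hδ x l hx
      omega
    refine CubeDec.congr ?_ (CubeDec.orbit (Γ := ZMod m) ⊤ ⊥ (fun x => ((G x : ℕ) : ZMod m))
      ?_ ?_ ?_)
    · intro u v
      constructor
      · rintro ⟨x, l, h, -, rfl, rfl⟩
        have e : ((G (x + Pi.single l 1) : ℕ) : ZMod m) + h - ((G x : ZMod m) + h) =
            ((G (x + Pi.single l 1) : ℕ) : ZMod m) - (G x : ZMod m) := by abel
        rw [e]
        rcases z2 (par x) with hx | hx
        · have h3 := hδ x l hx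
          exact ⟨F (x + Pi.single l 1) - F x, by omega, by omega, Or.inl (hdiff0 x l hx)⟩
        · have h3 := hδ (x + Pi.single l 1) l (by rw [hpar1, hx, z11])
          rw [add_self_single] at h3
          exact ⟨F x - F (x + Pi.single l 1), by omega, by omega, Or.inr (hdiff1 x l hx)⟩
      · rintro ⟨δ, hδ1, hδ2, h⟩
        obtain ⟨x, l, hx, hxl⟩ := hd δ hδ1 hδ2
        rcases h with h | h
        · refine ⟨x, l, u - (G x : ZMod m), AddSubgroup.mem_top _, by abel, ?_⟩
          have h3 := hdiff0 x l hx
          have h4 : F (x + Pi.single l 1) - F x = δ := by omega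
          rw [h4, ← h] at h3
          have h5 : ((G (x + Pi.single l 1) : ℕ) : ZMod m) + (u - (G x : ZMod m)) =
              (((G (x + Pi.single l 1) : ℕ) : ZMod m) - (G x : ZMod m)) + u := by abel
          rw [h5, h3]; abel
        · refine ⟨x + Pi.single l 1, l, u - (G (x + Pi.single l 1) : ZMod m),
            AddSubgroup.mem_top _, by abel, ?_⟩
          have h3 := hdiff0 x l hx
          have h4 : F (x + Pi.single l 1) - F x = δ := by omega
          rw [h4] at h3
          rw [add_self_single]
          have h5 : ((G x : ℕ) : ZMod m) + (u - (G (x + Pi.single l 1) : ZMod m)) =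
              -(((G (x + Pi.single l 1) : ℕ) : ZMod m) - (G x : ZMod m)) + u := by abel
          rw [h5, h3, ← h]; abel
    · intro x y hxy
      dsimp only at hxy
      rw [ZMod.natCast_eq_natCast_iff'] at hxy
      have h3 := hGlt x
      have h4 := hGlt y
      rw [Nat.mod_eq_of_lt (by omega), Nat.mod_eq_of_lt (by omega)] at hxy
      exact hGinj hxy
    · intro s hs
      rw [AddSubgroup.mem_bot] at hs
      exact ⟨0, fun x => by rw [hs, add_zero, add_zero]⟩
    · intro x x' l l' _ h
      rw [AddSubgroup.mem_bot, sub_eq_zero]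
      have : x = x' := by
        rcases z2 (par x) with hx | hx <;> rcases z2 (par x') with hx' | hx'
        · rw [hdiff0 x l hx, hdiff0 x' l' hx'] at h
          have c1 := hcl x l hx
          have c2 := hcl x' l' hx'
          have h3 := cls_unique hm _ _ c1.1 c1.2 c2.1 c2.2 (Or.inl h)
          exact (hδinj x x' l l' hx hx' (by omega)).1
        · exfalso
          have hy : par (x' + Pi.single l' 1) = 0 := by rw [hpar1, hx', z11]
          rw [hdiff0 x l hx, hdiff1 x' l' hx'] at h
          have c1 := hcl x l hx
          have c2 := hcl (x' + Pi.single l' 1) l' hy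
          rw [add_self_single] at c2
          have h3 := cls_unique hm _ _ c1.1 c1.2 c2.1 c2.2 (Or.inr h)
          rw [h3] at h
          exact cls_ne_neg hm _ c2.1 c2.2 h
        · exfalso
          have hy : par (x + Pi.single l 1) = 0 := by rw [hpar1, hx, z11]
          rw [hdiff1 x l hx, hdiff0 x' l' hx'] at h
          have c1 := hcl x' l' hx'
          have c2 := hcl (x + Pi.single l 1) l hy
          rw [add_self_single] at c2
          have h3 := cls_unique hm _ _ c1.1 c1.2 c2.1 c2.2 (Or.inr h.symm)
          rw [h3] at h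
          exact cls_ne_neg hm _ c2.1 c2.2 h.symm
        · have hy : par (x + Pi.single l 1) = 0 := by rw [hpar1, hx, z11]
          have hy' : par (x' + Pi.single l' 1) = 0 := by rw [hpar1, hx', z11]
          rw [hdiff1 x l hx, hdiff1 x' l' hx', neg_inj] at h
          have c1 := hcl (x + Pi.single l 1) l hy
          have c2 := hcl (x' + Pi.single l' 1) l' hy'
          rw [add_self_single] at c1 c2
          have h3 := cls_unique hm _ _ c1.1 c1.2 c2.1 c2.2 (Or.inl h)
          have h4 := hδinj (x + Pi.single l 1) (x' + Pi.single l' 1) l l' hy hy'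
            (by rw [add_self_single, add_self_single]; omega)
          obtain ⟨h5, h6⟩ := h4
          rw [h6] at h5
          exact add_right_cancel h5
      rw [this]

end Pool.Agent.Helper662
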