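import Pool.Agent.Helper662.Params

set_option autoImplicit false

namespace Pool.Agent.Helper662

open Finset

theorem li_fin3 (b : Fin 3 → (Fin 3 → ZMod 2))
    (h : ∀ g : Fin 3 → ZMod 2, g 0 • b 0 + g 1 • b 1 + g 2 • b 2 = 0 → g 0 = 0 ∧ g 1 = 0 ∧ g 2 = 0) :
    LinearIndependent (ZMod 2) b := by
  rw [Fintype.linearIndependent_iff]
  intro g hg i
  rw [Fin.sum_univ_three] at hg
  obtain ⟨h0, h1, h2⟩ := h g hg
  fin_cases i
  · exact h0
  · exact h1
  · exact h2

/-- special choice in the smallest case -/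
def V33 : Fin 3 → Fin 3 → (Fin 3 → ZMod 2) :=
  ![![![1, 0, 0], ![0, 1, 0], ![0, 0, 1]],
    ![![1, 0, 0], ![0, 1, 1], ![1, 0, 0]],
    ![![1, 0, 0], ![1, 1, 1], ![1, 0, 1]]]

/-- the remaining vectors -/
def R33 : Fin 3 → Fin 3 → Fin 3 → (Fin 3 → ZMod 2) := fun κ κ' =>
  if κ ≠ 2 ∧ κ' ≠ 2 then ![![1, 1, 0], ![1, 0, 1], ![1, 1, 1]]
  else if κ ≠ 1 ∧ κ' ≠ 1 then ![![1, 0, 0], ![1, 1, 0], ![0, 1, 1]]
  else ![![0, 1, 0], ![0, 0, 1], ![1, 1, 0]]

theorem R33_li (κ κ' : Fin 3) : LinearIndependent (ZMod 2) (R33 κ κ') := by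
  apply li_fin3
  unfold R33
  split_ifs <;> decide +kernel

theorem R33_mem : ∀ κ κ' : Fin 3, κ ≠ κ' → ∀ v : Fin 3 → ZMod 2,
    (v ≠ 0 ∧ v ≠ V33 κ 1 ∧ v ≠ V33 κ 2 ∧ v ≠ V33 κ' 1 ∧ v ≠ V33 κ' 2) ↔
      (v = R33 κ κ' 0 ∨ v = R33 κ κ' 1 ∨ v = R33 κ κ' 2) := by
  decide +kernel

theorem V33_ne : ∀ κ κ' : Fin 3, κ ≠ κ' → V33 κ 1 ≠ V33 κ' 1 ∧ V33 κ 1 ≠ V33 κ' 2 ∧
    V33 κ 2 ≠ V33 κ' 1 ∧ V33 κ 2 ≠ V33 κ' 2 := by
  decide +kernel

theorem V33_ne0 : ∀ κ : Fin 3, V33 κ 1 ≠ 0 ∧ V33 κ 2 ≠ 0 := by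
  decide +kernel

theorem V33_li : ∀ κ : Fin 3, ∀ g : Fin 3 → ZMod 2, g 0 = 0 →
    g 0 • V33 κ 0 + g 1 • V33 κ 1 + g 2 • V33 κ 2 = 0 → g 1 = 0 ∧ g 2 = 0 := by
  decide +kernel

section
variable {d n : ℕ} (hd : 3 ≤ d) (hdn : d ≤ n)

/-- the three shifts -/
def et (κ : Fin 3) : Fin n → ZMod 2 :=
  if κ = 0 then 0 else if κ = 1 then ev hdn ⟨0, by omega⟩
  else ev hdn ⟨0, by omega⟩ + ev hdn ⟨1, by omega⟩

/-- the vectors of the cubes joining consecutive parts -/
def VV (w : ℕ) (κ : Fin 3) (l : Fin d) : Fin n → ZMod 2 :=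
  if (l : ℕ) < w then ev hdn l else ev hdn l + et hd hdn κ

theorem VV_li (w : ℕ) (hw : 0 < w) (κ : Fin 3) : LinearIndependent (ZMod 2)
    (fun l : Fin d => ((if (l : ℕ) < w then (1 : ZMod 2) else 0), VV hd hdn w κ l)) := by
  rw [Fintype.linearIndependent_iff]
  intro g hg
  have h1 := congrArg Prod.fst hg
  have h2 := congrArg Prod.snd hg
  simp only [Prod.fst_sum, Prod.snd_sum, Prod.smul_fst, Prod.smul_snd, Prod.fst_zero,
    Prod.snd_zero] at h1 h2
  set τ : ZMod 2 := ∑ l : Fin d, (if (l : ℕ) < w then 0 else g l) with hτ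
  have h3 : ∑ l, g l • ev hdn l + τ • et hd hdn κ = 0 := by
    rw [← h2, hτ, Finset.sum_smul, ← Finset.sum_add_distrib]
    apply Finset.sum_congr rfl
    intro l _
    unfold VV
    split_ifs
    · simp
    · rw [smul_add]
  have hli := Fintype.linearIndependent_iff.1 (ev_li hdn)
  have hsing : ∀ (h : Fin d → ZMod 2), ∑ l, g l • ev hdn l + ∑ l, h l • ev hdn l = 0 → g = h := by
    intro h hh
    have h5 : ∑ l, (g l + h l) • ev hdn l = 0 := by
      rw [← hh, ← Finset.sum_add_distrib]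
      apply Finset.sum_congr rfl
      intro l _
      rw [add_smul]
    have h6 := hli (fun l => g l + h l) h5
    funext l
    have h7 := h6 l
    have : ∀ a b : ZMod 2, a + b = 0 → a = b := by decide
    exact this _ _ h7
  rcases zmod2_cases τ with h4 | h4
  · rw [h4, zero_smul, add_zero] at h3
    exact hli g h3
  · exfalso
    rw [h4, one_smul] at h3
    have hb : ∀ (l0 : Fin d), ∑ l : Fin d, (Pi.single l0 1 : Fin d → ZMod 2) l • ev hdn l
        = ev hdn l0 := by
      intro l0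
      rw [Finset.sum_eq_single l0]
      · simp
      · intro b _ hb
        rw [Pi.single_eq_of_ne hb, zero_smul]
      · intro h; exact absurd (Finset.mem_univ _) h
    have hzero : g = 0 → False := by
      intro h0
      rw [h0] at hτ
      rw [hτ] at h4
      simp at h4
    by_cases hκ0 : κ = 0
    · have : et hd hdn κ = 0 := by unfold et; rw [if_pos hκ0]
      rw [this, add_zero] at h3
      apply hzero
      funext l
      exact hli g h3 l
    · by_cases hκ1 : κ = 1
      · have : et hd hdn κ = ev hdn ⟨0, by omega⟩ := by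
          unfold et; rw [if_neg hκ0, if_pos hκ1]
        rw [this, ← hb] at h3
        have h5 := hsing _ h3
        rw [h5] at h1
        rw [Finset.sum_eq_single (⟨0, by omega⟩ : Fin d)] at h1
        · rw [Pi.single_eq_same, if_pos hw] at h1
          simp at h1
        · intro b _ hb'
          rw [Pi.single_eq_of_ne hb', zero_smul]
        · intro h; exact absurd (Finset.mem_univ _) h
      · have : et hd hdn κ = ev hdn ⟨0, by omega⟩ + ev hdn ⟨1, by omega⟩ := by
          unfold et; rw [if_neg hκ0, if_neg hκ1]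
        rw [this, ← hb, ← hb, ← Finset.sum_add_distrib] at h3
        have h5 := hsing (Pi.single (⟨0, by omega⟩ : Fin d) 1 + Pi.single (⟨1, by omega⟩ : Fin d) 1)
          (by
            rw [← h3]
            congr 1
            apply Finset.sum_congr rfl
            intro l _
            rw [← add_smul]; rfl)
        by_cases hw1 : w = 1
        · rw [h5] at h1
          rw [Finset.sum_eq_single (⟨0, by omega⟩ : Fin d)] at h1
          · rw [Pi.add_apply, Pi.single_eq_same, if_pos hw, Pi.single_eq_of_ne] at h1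
            · simp at h1
            · rw [Ne, Fin.mk.injEq]; omega
          · intro b _ hb'
            have : ¬ (b : ℕ) < w := by
              intro hlt
              apply hb'
              apply Fin.ext
              dsimp only
              omega
            rw [if_neg this, smul_zero]
          · intro h; exact absurd (Finset.mem_univ _) h
        · rw [hτ, h5] at h4
          rw [Finset.sum_eq_zero] at h4
          · exact absurd h4 (by decide)
          · intro l _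
            by_cases hl : (l : ℕ) < w
            · rw [if_pos hl]
            · rw [if_neg hl, Pi.add_apply, Pi.single_eq_of_ne, Pi.single_eq_of_ne, add_zero]
              · intro h; rw [h] at hl; simp at hl; omega
              · intro h; rw [h] at hl; simp at hl; omega

theorem VV_coord0 (w : ℕ) (hw : 0 < w) (κ : Fin 3) (l : Fin d) (hl : w ≤ (l : ℕ)) :
    VV hd hdn w κ l (Fin.castLE hdn ⟨0, by omega⟩) = if κ = 0 then 0 else 1 := by
  unfold VV et
  rw [if_neg (show ¬ (l : ℕ) < w by omega)]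
  have hl0 : l ≠ ⟨0, by omega⟩ := by
    intro h; rw [h] at hl; simp at hl; omega
  by_cases hκ0 : κ = 0
  · rw [if_pos hκ0, if_pos hκ0, add_zero, ev_coord, if_neg hl0]
  · rw [if_neg hκ0, if_neg hκ0]
    by_cases hκ1 : κ = 1
    · rw [if_pos hκ1, Pi.add_apply, ev_coord, ev_coord, if_neg hl0, if_pos rfl, zero_add]
    · rw [if_neg hκ1, Pi.add_apply, Pi.add_apply, ev_coord, ev_coord, ev_coord, if_neg hl0,
        if_pos rfl, if_neg (by rw [Fin.mk.injEq]; omega), zero_add, add_zero]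

theorem VV_sig (w : ℕ) (κ : Fin 3) (l : Fin d) (hl : w ≤ (l : ℕ)) :
    sig (VV hd hdn w κ l) = if κ = 1 then 0 else 1 := by
  unfold VV et
  rw [if_neg (show ¬ (l : ℕ) < w by omega)]
  by_cases hκ0 : κ = 0
  · rw [if_pos hκ0, add_zero, sig_ev, hκ0]; rfl
  · rw [if_neg hκ0]
    by_cases hκ1 : κ = 1
    · rw [if_pos hκ1, if_pos hκ1, sig_add, sig_ev, sig_ev]; decide
    · rw [if_neg hκ1, if_neg hκ1, sig_add, sig_add, sig_ev, sig_ev, sig_ev]; decide

theorem VV_ne (w : ℕ) (hw : 0 < w) (κ κ' : Fin 3) (l l' : Fin d) (hκ : κ ≠ κ')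
    (hl : w ≤ (l : ℕ)) (hl' : w ≤ (l' : ℕ)) : VV hd hdn w κ l ≠ VV hd hdn w κ' l' := by
  intro h
  have h1 := congrFun h (Fin.castLE hdn ⟨0, by omega⟩)
  rw [VV_coord0 hd hdn w hw κ l hl, VV_coord0 hd hdn w hw κ' l' hl'] at h1
  have h2 := congrArg sig h
  rw [VV_sig hd hdn w κ l hl, VV_sig hd hdn w κ' l' hl'] at h2
  clear h
  revert κ κ'
  decide +kernel

theorem VV_ne0 (w : ℕ) (hw : 0 < w) (κ : Fin 3) (l : Fin d)
    (hl : w ≤ (l : ℕ)) : VV hd hdn w κ l ≠ 0 := by
  intro h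
  have h1 := congrFun h (Fin.castLE hdn ⟨0, by omega⟩)
  rw [VV_coord0 hd hdn w hw κ l hl, Pi.zero_apply] at h1
  have h2 := congrArg sig h
  rw [VV_sig hd hdn w κ l hl, sig_zero] at h2
  clear h
  revert κ
  decide +kernel

end

end Pool.Agent.Helper662
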