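import Pool.Agent.Helper662.CaseB

set_option autoImplicit false

namespace Pool.Agent.Helper662

open Finset

/-- finite version of the set of pure vectors used by the cubes joining consecutive parts -/
def psFin {d n : ℕ} (w : ℕ) (V : Fin d → (Fin n → ZMod 2)) : Finset (Fin n → ZMod 2) :=
  (Finset.univ.filter (fun l : Fin d => decide (w ≤ (l : ℕ)) = true)).image V

theorem mem_psFin {d n : ℕ} (w : ℕ) (V : Fin d → (Fin n → ZMod 2)) (v : Fin n → ZMod 2) :
    v ∈ psFin w V ↔ ∃ l : Fin d, w ≤ (l : ℕ) ∧ v = V l := by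
  unfold psFin
  rw [Finset.mem_image]
  constructor
  · rintro ⟨l, hl, rfl⟩
    rw [Finset.mem_filter] at hl
    exact ⟨l, by simpa using hl.2, rfl⟩
  · rintro ⟨l, hl, rfl⟩
    exact ⟨l, by rw [Finset.mem_filter]; simpa using hl, rfl⟩

theorem caseB_R {d n r M : ℕ} [NeZero r] (hd : 3 ≤ d) (hodd : d % 2 = 1) (hdn : d ≤ n)
    (hr : r = 2 * M + 1) (hmod : 2 ^ n * r ≡ 1 [MOD d]) (w : ℕ) (hw : w = (M * 2 ^ n) % d)
    (hw0 : 0 < w) :
    CubeDec d (fun u v : ZMod r × (Fin n → ZMod 2) => (u.1 = v.1 ∧ u.2 ≠ v.2) ∨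
      ((v.1 - u.1 = 1 ∨ v.1 - u.1 = -1) ∧ v.2 - u.2 ∈ WSet hdn w)) := by
  classical
  have hwd : w < d := by rw [hw]; exact Nat.mod_lt _ (by omega)
  have hM : 1 ≤ M := by
    by_contra h
    have : M = 0 := by omega
    rw [this, zero_mul, Nat.zero_mod] at hw
    omega
  by_cases h33 : d = 3 ∧ n = 3
  · obtain ⟨rfl, rfl⟩ := h33
    have hw1 : w = 1 := by
      have h1 : (2 ^ 3 * (2 * M + 1)) % 3 = 1 % 3 := by rw [← hr]; exact hmod
      have h2 : w = (M * 2 ^ 3) % 3 := hw
      norm_num at h1 h2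
      omega
    subst hw1
    have hev : ev hdn (⟨0, by omega⟩ : Fin 3) = V33 0 0 := by
      funext i
      fin_cases i <;> simp [ev, V33]
    have hV0 : ∀ κ, V33 κ 0 = V33 0 0 := by decide
    refine cubeDec_R (by omega) ⟨M, hr⟩ 3 1 (by omega) (by omega) V33 (WSet hdn 1) ?_ ?_ ?_ ?_ ?_
    · intro κ v
      unfold WSet
      constructor
      · rintro ⟨l, hl, rfl⟩
        refine ⟨l, hl, ?_⟩
        have : l = 0 := Fin.ext (by simp; omega)
        rw [this, hV0 κ, ← hev]; rfl
      · rintro ⟨l, hl, rfl⟩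
        refine ⟨l, hl, ?_⟩
        have : l = 0 := Fin.ext (by simp; omega)
        rw [this, hV0 κ, ← hev]; rfl
    · intro κ
      rw [Fintype.linearIndependent_iff]
      intro g hg
      have h1 := congrArg Prod.fst hg
      have h2 := congrArg Prod.snd hg
      simp only [Prod.fst_sum, Prod.snd_sum, Prod.smul_fst, Prod.smul_snd, Prod.fst_zero,
        Prod.snd_zero] at h1 h2
      rw [Fin.sum_univ_three] at h1 h2
      have h3 : g 0 = 0 := by simpa using h1
      obtain ⟨h4, h5⟩ := V33_li κ g h3 h2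
      intro i
      fin_cases i
      · exact h3
      · exact h4
      · exact h5
    · intro κ κ' l l' hκ hl hl'
      obtain ⟨h1, h2, h3, h4⟩ := V33_ne κ κ' hκ
      fin_cases l <;> fin_cases l'
      · simp at hl
      · simp at hl
      · simp at hl
      · simp at hl'
      · exact h1
      · exact h2
      · simp at hl'
      · exact h3
      · exact h4
    · intro κ l hl
      obtain ⟨h1, h2⟩ := V33_ne0 κ
      fin_cases l
      · simp at hl
      · exact h1
      · exact h2
    · intro κ κ' hκ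
      refine ⟨1, fun _ => R33 κ κ', fun _ => R33_li κ κ', ?_, ?_⟩
      · intro _ l
        have h1 : (R33 κ κ' l ≠ 0 ∧ R33 κ κ' l ≠ V33 κ 1 ∧ R33 κ κ' l ≠ V33 κ 2 ∧
            R33 κ κ' l ≠ V33 κ' 1 ∧ R33 κ κ' l ≠ V33 κ' 2) := by
          rw [R33_mem κ κ' hκ]
          fin_cases l <;> simp
        obtain ⟨h1, h2, h3, h4, h5⟩ := h1
        refine ⟨h1, ?_, ?_⟩
        · intro l' hl'
          fin_cases l'
          · simp at hl'
          · exact h2
          · exact h3
        · intro l' hl'
          fin_cases l'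
          · simp at hl'
          · exact h4
          · exact h5
      · rintro s ⟨h1, h2, h3⟩
        have h4 := (R33_mem κ κ' hκ s).1 ⟨h1, h2 1 (by simp), h2 2 (by simp), h3 1 (by simp),
          h3 2 (by simp)⟩
        refine ⟨0, ?_, ?_⟩
        · rcases h4 with h | h | h
          · exact ⟨0, h.symm⟩
          · exact ⟨1, h.symm⟩
          · exact ⟨2, h.symm⟩
        · intro y _
          exact Subsingleton.elim _ _
  · refine cubeDec_R (by omega) ⟨M, hr⟩ d w hw0 hwd (VV hd hdn w) (WSet hdn w) ?_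
      (VV_li hd hdn w hw0) ?_ ?_ ?_
    · intro κ v
      unfold WSet
      constructor
      · rintro ⟨l, hl, rfl⟩
        exact ⟨l, hl, by unfold VV; rw [if_pos hl]⟩
      · rintro ⟨l, hl, rfl⟩
        exact ⟨l, hl, by unfold VV; rw [if_pos hl]⟩
    · intro κ κ' l l' hκ hl hl'
      exact VV_ne hd hdn w hw0 κ κ' l l' hκ hl hl'
    · intro κ l hl
      exact VV_ne0 hd hdn w hw0 κ l hl
    · intro κ κ' hκ
      have hcard : ∀ κ : Fin 3, (psFin w (VV hd hdn w κ)).card = d - w := by
        intro κ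
        unfold psFin
        rw [Finset.card_image_of_injOn, card_ge_filter d w hwd.le]
        intro l hl l' hl' h
        rw [Finset.mem_coe, Finset.mem_filter] at hl hl'
        have hl2 : w ≤ (l : ℕ) := by simpa using hl.2
        have hl2' : w ≤ (l' : ℕ) := by simpa using hl'.2
        unfold VV at h
        rw [if_neg (show ¬ (l : ℕ) < w by omega), if_neg (show ¬ (l' : ℕ) < w by omega)] at h
        exact ev_inj hdn (add_right_cancel h)
      have hdisj : Disjoint (psFin w (VV hd hdn w κ)) (psFin w (VV hd hdn w κ')) := by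
        rw [Finset.disjoint_left]
        intro v hv hv'
        rw [mem_psFin] at hv hv'
        obtain ⟨l, hl, rfl⟩ := hv
        obtain ⟨l', hl', h'⟩ := hv'
        exact VV_ne hd hdn w hw0 κ κ' l l' hκ hl hl' h'
      have h0 : (0 : Fin n → ZMod 2) ∉ psFin w (VV hd hdn w κ) ∪ psFin w (VV hd hdn w κ') := by
        rw [Finset.mem_union, mem_psFin, mem_psFin]
        rintro (⟨l, hl, h⟩ | ⟨l, hl, h⟩)
        · exact VV_ne0 hd hdn w hw0 κ l hl h.symm
        · exact VV_ne0 hd hdn w hw0 κ' l hl h.symm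
      have hF : (insert 0 (psFin w (VV hd hdn w κ) ∪ psFin w (VV hd hdn w κ'))).card
          = 2 * (d - w) + 1 := by
        rw [Finset.card_insert_of_notMem h0, Finset.card_union_of_disjoint hdisj, hcard, hcard]
        ring
      have hmod2 : 2 * (d - w) + 1 ≡ 2 ^ n [MOD d] := by
        have h1 : w ≡ M * 2 ^ n [MOD d] := by rw [hw]; exact Nat.mod_modEq _ _
        -- 2 w + 2^n = 2 M 2^n + 2^n = r 2^n = 1
        have h2 : 2 * w + 2 ^ n ≡ 1 [MOD d] := by
          have h3 : 2 * w + 2 ^ n ≡ 2 * (M * 2 ^ n) + 2 ^ n [MOD d] :=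
            Nat.ModEq.add_right _ (Nat.ModEq.mul_left 2 h1)
          have h4 : 2 * (M * 2 ^ n) + 2 ^ n = 2 ^ n * r := by rw [hr]; ring
          rw [h4] at h3
          exact h3.trans hmod
        have h5 : 2 * (d - w) + 1 + 2 * w ≡ 2 ^ n + 2 * w [MOD d] := by
          have h6 : 2 * (d - w) + 1 + 2 * w = d * 2 + 1 := by omega
          rw [h6, add_comm (2 ^ n)]
          refine Nat.ModEq.trans ?_ h2.symm
          rw [Nat.ModEq, Nat.mul_add_mod]
        exact Nat.ModEq.add_right_cancel' _ h5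
      have := linFill_of hd hdn hodd h33
        (insert 0 (psFin w (VV hd hdn w κ) ∪ psFin w (VV hd hdn w κ')))
        (Finset.mem_insert_self _ _) (by rw [hF]; omega) (by rw [hF]; exact hmod2)
      have hset : {v : Fin n → ZMod 2 | v ∉ insert 0 (psFin w (VV hd hdn w κ) ∪
          psFin w (VV hd hdn w κ'))} = {v | v ≠ 0 ∧ (∀ l : Fin d, w ≤ (l : ℕ) →
          v ≠ VV hd hdn w κ l) ∧ (∀ l : Fin d, w ≤ (l : ℕ) → v ≠ VV hd hdn w κ' l)} := by
        ext v
        rw [Set.mem_ofPred_eq, Set.mem_ofPred_eq, Finset.mem_insert, Finset.mem_union, mem_psFin,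
          mem_psFin]
        push Not
        rfl
      rw [hset] at this
      exact this

theorem caseB_mixed {d n r M : ℕ} [NeZero r] (hd : 3 ≤ d) (hodd : d % 2 = 1) (hdn : d ≤ n)
    (hr : r = 2 * M + 1) (w : ℕ) (hw : w = (M * 2 ^ n) % d) :
    CubeDec d (fun u v : ZMod r × (Fin n → ZMod 2) => v.1 - u.1 ≠ 0 ∧
      ¬ ((v.1 - u.1 = 1 ∨ v.1 - u.1 = -1) ∧ v.2 - u.2 ∈ WSet hdn w)) := by
  classical
  have hwd : w < d := by rw [hw]; exact Nat.mod_lt _ (by omega)
  let x : ℕ → ℕ := fun j => ((j + (d - 1) * M) * 2 ^ (n - 1)) % d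
  have hxd : ∀ j, x j < d := fun j => Nat.mod_lt _ (by omega)
  have hx2 : ∀ j, 2 * x j ≡ (j + (d - 1) * M) * 2 ^ n [MOD d] := by
    intro j
    have h1 : x j ≡ (j + (d - 1) * M) * 2 ^ (n - 1) [MOD d] := Nat.mod_modEq _ _
    have h2 := Nat.ModEq.mul_left 2 h1
    have h3 : 2 * ((j + (d - 1) * M) * 2 ^ (n - 1)) = (j + (d - 1) * M) * 2 ^ n := by
      obtain ⟨c, rfl⟩ : ∃ c, n = c + 1 := ⟨n - 1, by omega⟩
      rw [Nat.add_sub_cancel, pow_succ]; ring
    rwa [h3] at h2
  have hd1 : ∀ K, K + (d - 1) * K = d * K := by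
    intro K
    obtain ⟨c, rfl⟩ : ∃ c, d = c + 1 := ⟨d - 1, by omega⟩
    rw [Nat.add_sub_cancel]; ring
  have hxM : x M = 0 := by
    show ((M + (d - 1) * M) * 2 ^ (n - 1)) % d = 0
    rw [hd1, mul_assoc, Nat.mul_mod_right]
  have hcu : ∀ F : Finset (Fin n → ZMod 2), F.card ≤ 2 ^ n := by
    intro F
    have := Finset.card_le_univ F
    simpa using this
  refine cubeDec_mixedAll hr d (by omega) x hxd hxM (EE hd hdn) (al hd hdn) (WSet hdn w)
    (fun j => EE_li hd hdn j (x j)) (fun j => sepa hd hdn j (x j) (hxd j))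
    (fun j hj => sepb hd hdn j (x j) hj) (fun j v h => dis hd hdn j (x (j + 1)) (x j) v h)
    (fun v h => dis1 hd hdn (x 1) w v h) ?_ ?_
  · intro hM
    set F : Finset (Fin n → ZMod 2) := quadFin hd hdn 1 (fun l => decide (l < x 1)) ∪
      (Finset.univ.filter (fun l : Fin d => decide ((l : ℕ) < w) = true)).image (ev hdn) with hFdef
    have hmemW : ∀ v, v ∈ (Finset.univ.filter (fun l : Fin d => decide ((l : ℕ) < w) = true)).image
        (ev hdn) ↔ v ∈ WSet hdn w := by
      intro v
      unfold WSet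
      rw [Finset.mem_image, Set.mem_ofPred_eq]
      constructor
      · rintro ⟨l, hl, rfl⟩
        rw [Finset.mem_filter] at hl
        exact ⟨l, by simpa using hl.2, rfl⟩
      · rintro ⟨l, hl, rfl⟩
        exact ⟨l, by rw [Finset.mem_filter]; simpa using hl, rfl⟩
    have hmemQ : ∀ v, v ∈ quadFin hd hdn 1 (fun l => decide (l < x 1)) ↔
        v ∈ quadSet (EE hd hdn 1) (al hd hdn) (fun l => l < x 1) := by
      intro v
      rw [mem_quadFin]
      simp only [decide_eq_true_eq]
    have hcard : F.card = 2 * x 1 + w := by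
      rw [hFdef, Finset.card_union_of_disjoint, card_quadFin, card_lt_filter d (x 1) (hxd 1).le,
        Finset.card_image_of_injective _ (ev_inj hdn), card_lt_filter d w hwd.le]
      · intro l l' hl hl'
        exact sepa hd hdn 1 (x 1) (hxd 1) l l' (by simpa using hl) (by simpa using hl')
      · rw [Finset.disjoint_left]
        intro v hv hv'
        rw [hmemQ] at hv
        rw [hmemW] at hv'
        exact dis1 hd hdn _ _ v hv hv'
    have hmod1 : F.card ≡ 2 ^ n [MOD d] := by
      rw [hcard]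
      have h1 := hx2 1
      have h2 : w ≡ M * 2 ^ n [MOD d] := by rw [hw]; exact Nat.mod_modEq _ _
      have h3 := Nat.ModEq.add h1 h2
      have h4 : (1 + (d - 1) * M) * 2 ^ n + M * 2 ^ n = d * (M * 2 ^ n) + 2 ^ n := by
        have := hd1 M
        calc (1 + (d - 1) * M) * 2 ^ n + M * 2 ^ n = (M + (d - 1) * M) * 2 ^ n + 2 ^ n := by ring
          _ = _ := by rw [this]; ring
      rw [h4] at h3
      refine h3.trans ?_
      rw [Nat.ModEq, Nat.mul_add_mod]
    have h1 := hxd 1
    have := affFill_of hd hodd hdn F (by rw [hcard]; omega) (hcu F) hmod1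
    have hset : {v | v ∉ F} = {v : Fin n → ZMod 2 |
        v ∉ quadSet (EE hd hdn 1) (al hd hdn) (fun l => l < x 1) ∧ v ∉ WSet hdn w} := by
      ext v
      rw [Set.mem_ofPred_eq, Set.mem_ofPred_eq, hFdef, Finset.mem_union, hmemQ, hmemW, not_or]
    rw [hset] at this
    exact this
  · intro j hj hjM
    set F : Finset (Fin n → ZMod 2) := quadFin hd hdn (j + 1) (fun l => decide (l < x (j + 1))) ∪
      (if x j = 0 then ∅ else quadFin hd hdn j (fun l => decide (x j ≤ l))) with hFdef
    have hmemQ : ∀ v, v ∈ quadFin hd hdn (j + 1) (fun l => decide (l < x (j + 1))) ↔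
        v ∈ quadSet (EE hd hdn (j + 1)) (al hd hdn) (fun l => l < x (j + 1)) := by
      intro v
      rw [mem_quadFin]
      simp only [decide_eq_true_eq]
    have hmemQ' : ∀ v, v ∈ (if x j = 0 then ∅ else quadFin hd hdn j (fun l => decide (x j ≤ l))) ↔
        (x j ≠ 0 ∧ v ∈ quadSet (EE hd hdn j) (al hd hdn) (fun l => x j ≤ l)) := by
      intro v
      by_cases h0 : x j = 0
      · rw [if_pos h0]; simp [h0]
      · rw [if_neg h0, mem_quadFin]
        simp only [decide_eq_true_eq]
        simp [h0]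
    have hcard' : (if x j = 0 then ∅ else quadFin hd hdn j (fun l => decide (x j ≤ l))).card =
        if x j = 0 then 0 else 2 * (d - x j) := by
      by_cases h0 : x j = 0
      · rw [if_pos h0, if_pos h0, Finset.card_empty]
      · rw [if_neg h0, if_neg h0, card_quadFin, card_ge_filter d (x j) (hxd j).le]
        intro l l' hl hl'
        exact sepb hd hdn j (x j) h0 l l' (by simpa using hl) (by simpa using hl')
    have hcard : F.card = 2 * x (j + 1) + if x j = 0 then 0 else 2 * (d - x j) := by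
      rw [hFdef, Finset.card_union_of_disjoint, card_quadFin,
        card_lt_filter d (x (j + 1)) (hxd (j + 1)).le, hcard']
      · intro l l' hl hl'
        exact sepa hd hdn (j + 1) (x (j + 1)) (hxd (j + 1)) l l' (by simpa using hl)
          (by simpa using hl')
      · rw [Finset.disjoint_left]
        intro v hv hv'
        rw [hmemQ] at hv
        rw [hmemQ'] at hv'
        exact dis hd hdn j _ _ v hv hv'.2
    have hmod1 : F.card ≡ 2 ^ n [MOD d] := by
      rw [hcard]
      have h1 := hx2 (j + 1)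
      have h2 := hx2 j
      have h4 : (j + 1 + (d - 1) * M) * 2 ^ n = (j + (d - 1) * M) * 2 ^ n + 2 ^ n := by ring
      rw [h4] at h1
      have h5 : 2 * x (j + 1) ≡ 2 * x j + 2 ^ n [MOD d] :=
        h1.trans (Nat.ModEq.add_right _ h2.symm)
      by_cases h0 : x j = 0
      · rw [if_pos h0, add_zero]
        rw [h0, mul_zero, zero_add] at h5
        exact h5
      · rw [if_neg h0]
        have h6 := Nat.ModEq.add_right (2 * (d - x j)) h5
        refine h6.trans ?_
        have h7 : 2 * x j + 2 ^ n + 2 * (d - x j) = d * 2 + 2 ^ n := by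
          have := hxd j
          omega
        rw [h7, Nat.ModEq, Nat.mul_add_mod]
    have h1 := hxd (j + 1)
    have hle : F.card ≤ 4 * (d - 1) := by
      rw [hcard]
      split_ifs <;> omega
    have := affFill_of hd hodd hdn F hle (hcu F) hmod1
    have hset : {v | v ∉ F} = {v : Fin n → ZMod 2 |
        v ∉ quadSet (EE hd hdn (j + 1)) (al hd hdn) (fun l => l < x (j + 1)) ∧
        ¬ (x j ≠ 0 ∧ v ∈ quadSet (EE hd hdn j) (al hd hdn) (fun l => x j ≤ l))} := by
      ext v
      rw [Set.mem_ofPred_eq, Set.mem_ofPred_eq, hFdef, Finset.mem_union, hmemQ, hmemQ', not_or]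
    rw [hset] at this
    exact this

/-- The even orders. -/
theorem caseB {d n r M : ℕ} [NeZero r] (hd : 3 ≤ d) (hodd : d % 2 = 1) (hdn : d ≤ n)
    (hr : r = 2 * M + 1) (hmod : 2 ^ n * r ≡ 1 [MOD d]) :
    CubeDec d (fun u v : ZMod r × (Fin n → ZMod 2) => u ≠ v) := by
  classical
  obtain ⟨w, hw⟩ : ∃ w, w = (M * 2 ^ n) % d := ⟨_, rfl⟩
  have hR : CubeDec d (fun u v : ZMod r × (Fin n → ZMod 2) => (u.1 = v.1 ∧ u.2 ≠ v.2) ∨
      ((v.1 - u.1 = 1 ∨ v.1 - u.1 = -1) ∧ v.2 - u.2 ∈ WSet hdn w ∧ v.1 - u.1 ≠ 0)) := by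
    rcases Nat.eq_zero_or_pos w with hw0 | hw0
    · have hW : ∀ v, v ∉ WSet hdn w := by
        rintro v ⟨l, hl, _⟩
        rw [hw0] at hl
        omega
      have h2n : 2 ^ n ≡ 1 [MOD d] := by
        have h1 : M * 2 ^ n ≡ 0 [MOD d] := by
          rw [Nat.ModEq, ← hw, hw0, Nat.zero_mod]
        have h2 : 2 ^ n * r = 2 * (M * 2 ^ n) + 2 ^ n := by rw [hr]; ring
        rw [h2] at hmod
        have h3 := (Nat.ModEq.add_right (2 ^ n) (Nat.ModEq.mul_left 2 h1))
        rw [mul_zero, zero_add] at h3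
        exact h3.symm.trans hmod
      have hf : LinFill d {v : Fin n → ZMod 2 | v ∉ ({0} : Finset (Fin n → ZMod 2))} := by
        apply linFill_of hd hdn hodd
        · rintro ⟨rfl, rfl⟩
          revert h2n
          decide
        · simp
        · rw [Finset.card_singleton]; omega
        · rw [Finset.card_singleton]; exact h2n.symm
      have hset : {v : Fin n → ZMod 2 | v ∉ ({0} : Finset (Fin n → ZMod 2))} = {v | v ≠ 0} := by
        ext v; simp
      rw [hset] at hf
      refine CubeDec.congr ?_ (cubeDec_R0 (I := ZMod r) d hf)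
      intro u v
      constructor
      · intro h; exact Or.inl h
      · rintro (h | ⟨_, h, _⟩)
        · exact h
        · exact absurd h (hW _)
    · have hM : 1 ≤ M := by
        by_contra h
        have : M = 0 := by omega
        rw [this, zero_mul, Nat.zero_mod] at hw
        omega
      have : Fact (1 < r) := ⟨by omega⟩
      refine CubeDec.congr ?_ (caseB_R hd hodd hdn hr hmod w hw hw0)
      intro u v
      constructor
      · rintro (h | ⟨h1, h2⟩)
        · exact Or.inl h
        · refine Or.inr ⟨h1, h2, ?_⟩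
          rcases h1 with h1 | h1
          · rw [h1]; exact one_ne_zero
          · rw [h1]; exact neg_ne_zero.2 one_ne_zero
      · rintro (h | ⟨h1, h2, _⟩)
        · exact Or.inl h
        · exact Or.inr ⟨h1, h2⟩
  have hMx := caseB_mixed hd hodd hdn hr w hw
  refine CubeDec.combine (β := Bool) (fun b => if b then
      (fun u v : ZMod r × (Fin n → ZMod 2) => (u.1 = v.1 ∧ u.2 ≠ v.2) ∨
      ((v.1 - u.1 = 1 ∨ v.1 - u.1 = -1) ∧ v.2 - u.2 ∈ WSet hdn w ∧ v.1 - u.1 ≠ 0)) else
      (fun u v : ZMod r × (Fin n → ZMod 2) => v.1 - u.1 ≠ 0 ∧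
      ¬ ((v.1 - u.1 = 1 ∨ v.1 - u.1 = -1) ∧ v.2 - u.2 ∈ WSet hdn w))) ?_ ?_ ?_
  · rintro (_ | _) u v h
    · simp only [Bool.false_eq_true, if_false] at h
      rintro rfl
      exact h.1 (sub_self _)
    · simp only [if_true] at h
      rintro rfl
      rcases h with h | h
      · exact h.2 rfl
      · exact h.2.2 (sub_self _)
  · intro u v huv
    by_cases h1 : u.1 = v.1
    · have h2 : u.2 ≠ v.2 := fun h => huv (Prod.ext h1 h)
      refine ⟨true, ?_, ?_⟩
      · simp only [if_true]
        exact Or.inl ⟨h1, h2⟩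
      · rintro (_ | _) h
        · exfalso
          simp only [Bool.false_eq_true, if_false] at h
          exact h.1 (by rw [h1, sub_self])
        · rfl
    · have h1' : v.1 - u.1 ≠ 0 := fun h => h1 (sub_eq_zero.1 h).symm
      by_cases h2 : (v.1 - u.1 = 1 ∨ v.1 - u.1 = -1) ∧ v.2 - u.2 ∈ WSet hdn w
      · refine ⟨true, ?_, ?_⟩
        · simp only [if_true]
          exact Or.inr ⟨h2.1, h2.2, h1'⟩
        · rintro (_ | _) h
          · exfalso
            simp only [Bool.false_eq_true, if_false] at h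
            exact h.2 h2
          · rfl
      · refine ⟨false, ?_, ?_⟩
        · simp only [Bool.false_eq_true, if_false]
          exact ⟨h1', h2⟩
        · rintro (_ | _) h
          · rfl
          · exfalso
            simp only [if_true] at h
            rcases h with h | h
            · exact h1 h.1
            · exact h2 ⟨h.1, h.2.1⟩
  · rintro (_ | _)
    · simpa only [Bool.false_eq_true, if_false] using hMx
    · simpa only [if_true] using hR

end Pool.Agent.Helper662
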