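import Mathlib

set_option autoImplicit false

namespace Pool.Agent.Helper662

/-- The relation `G` on `V` is the edge-disjoint union of (injectively embedded) `d`-cubes. -/
def CubeDec {V : Type} (d : ℕ) (G : V → V → Prop) : Prop :=
  ∃ (ι : Type) (_ : Finite ι) (φ : ι → (Fin d → ZMod 2) → V),
    (∀ i, Function.Injective (φ i)) ∧
    (∀ i x l, G (φ i x) (φ i (x + Pi.single l 1))) ∧
    (∀ u v, G u v → ∃! i, ∃ x l, φ i x = u ∧ φ i (x + Pi.single l 1) = v)

theorem CubeDec.combine {V : Type} {d : ℕ} {G : V → V → Prop} {β : Type} [Finite β]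
    (F : β → V → V → Prop) (hle : ∀ b u v, F b u v → G u v)
    (huniq : ∀ u v, G u v → ∃! b, F b u v) (h : ∀ b, CubeDec d (F b)) : CubeDec d G := by
  choose ι hι φ hinj hadj hcov using h
  refine ⟨Σ b, ι b, inferInstance, fun p => φ p.1 p.2, fun p => hinj p.1 p.2, ?_, ?_⟩
  · rintro ⟨b, i⟩ x l
    exact hle b _ _ (hadj b i x l)
  · intro u v huv
    obtain ⟨b, hb, hbu⟩ := huniq u v huv
    obtain ⟨i, hi, hiu⟩ := hcov b u v hb
    refine ⟨⟨b, i⟩, hi, ?_⟩
    rintro ⟨b', i'⟩ ⟨x, l, hx, hl⟩
    dsimp only at hx hl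
    have h1 : F b' u v := by rw [← hx, ← hl]; exact hadj b' i' x l
    have h2 : b' = b := hbu b' h1
    subst h2
    have h3 : i' = i := hiu i' ⟨x, l, hx, hl⟩
    rw [h3]

theorem CubeDec.empty {V : Type} {d : ℕ} {G : V → V → Prop} (h : ∀ u v, ¬ G u v) :
    CubeDec d G :=
  ⟨Empty, inferInstance, fun e => e.elim, fun e => e.elim, fun e => e.elim,
    fun u v huv => (h u v huv).elim⟩

theorem CubeDec.congr {V : Type} {d : ℕ} {G G' : V → V → Prop} (h : ∀ u v, G u v ↔ G' u v)
    (hG : CubeDec d G) : CubeDec d G' := by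
  have : G = G' := by
    funext u v; exact propext (h u v)
  rwa [← this]

/-- Orbits of one cube under the translations by a subgroup `H`. -/
theorem CubeDec.orbit {Γ : Type} [AddCommGroup Γ] [Finite Γ] {d : ℕ} (H S : AddSubgroup Γ)
    (φ : (Fin d → ZMod 2) → Γ) (hinj : Function.Injective φ)
    (hstab : ∀ s ∈ S, ∃ z, ∀ x, φ (x + z) = φ x + s)
    (hC : ∀ x x' l l', φ x - φ x' ∈ H →
      φ (x + Pi.single l 1) - φ x = φ (x' + Pi.single l' 1) - φ x' → φ x - φ x' ∈ S) :
    CubeDec d (fun g1 g2 => ∃ x l, ∃ h ∈ H, g1 = φ x + h ∧ g2 = φ (x + Pi.single l 1) + h) := by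
  classical
  refine ⟨H ⧸ (S.addSubgroupOf H), inferInstance,
    fun t x => φ x + ((Quotient.out t : H) : Γ), ?_, ?_, ?_⟩
  · intro t x y hxy
    exact hinj (add_right_cancel hxy)
  · intro t x l
    exact ⟨x, l, _, (Quotient.out t : H).2, rfl, rfl⟩
  · rintro u v ⟨x, l, h, hh, hu, hv⟩
    refine ⟨QuotientAddGroup.mk ⟨h, hh⟩, ?_, ?_⟩
    · obtain ⟨s, hs⟩ := QuotientAddGroup.mk_out_eq_add (S.addSubgroupOf H) ⟨h, hh⟩
      have hs' : ((Quotient.out (QuotientAddGroup.mk ⟨h, hh⟩ : H ⧸ (S.addSubgroupOf H)) : H) : Γ)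
          = h + ((s : H) : Γ) := by
        have := congrArg (fun z : H => (z : Γ)) hs
        simpa using this
      have hsS : (-((s : H) : Γ)) ∈ S := S.neg_mem (AddSubgroup.mem_addSubgroupOf.1 s.2)
      obtain ⟨z, hz⟩ := hstab _ hsS
      refine ⟨x + z, l, ?_, ?_⟩
      · dsimp only
        rw [hs', hz, hu]; abel
      · have h1 : x + z + Pi.single l 1 = (x + Pi.single l 1) + z := by abel
        dsimp only
        rw [hs', h1, hz, hv]; abel
    · intro t' ht'
      obtain ⟨x', l', h1, h2⟩ := ht'
      dsimp only at h1 h2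
      have hq : (QuotientAddGroup.mk (Quotient.out t' : H) : H ⧸ (S.addSubgroupOf H)) = t' :=
        Quotient.out_eq t'
      rw [← hq]
      rw [QuotientAddGroup.eq]
      rw [AddSubgroup.mem_addSubgroupOf]
      have h3 : φ x' - φ x ∈ H := by
        have : φ x' - φ x = h - ((Quotient.out t' : H) : Γ) := by
          rw [sub_eq_sub_iff_add_eq_add, h1, hu]; abel
        rw [this]
        exact H.sub_mem hh (Quotient.out t' : H).2
      have h4 : φ (x' + Pi.single l' 1) - φ x' = φ (x + Pi.single l 1) - φ x := by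
        have e1 : φ (x' + Pi.single l' 1) = v - ((Quotient.out t' : H) : Γ) :=
          eq_sub_of_add_eq h2
        have e2 : φ x' = u - ((Quotient.out t' : H) : Γ) :=
          eq_sub_of_add_eq h1
        rw [e1, e2, hu, hv]; abel
      have h5 := hC x' x l' l h3 h4
      have h6 : φ x' - φ x = h - ((Quotient.out t' : H) : Γ) := by
        rw [sub_eq_sub_iff_add_eq_add, h1, hu]; abel
      rw [h6] at h5
      have : ((-(Quotient.out t' : H) + (⟨h, hh⟩ : H) : H) : Γ) =
          h - ((Quotient.out t' : H) : Γ) := by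
        push_cast; abel
      rw [this]
      exact h5

/-- From a decomposition of the complete relation on `V` to the frozen form. -/
theorem CubeDec.toFin {V : Type} [Finite V] {d m : ℕ} (hm : Nat.card V = m)
    (h : CubeDec d (fun u v : V => u ≠ v)) :
    ∃ k : ℕ, ∃ φ : Fin k → (Fin d → Bool) → Fin m,
          (∀ i, Function.Injective (φ i)) ∧
          ∀ u v : Fin m, u ≠ v →
            ∃! i : Fin k, ∃ x y : Fin d → Bool,
              hammingDist x y = 1 ∧ φ i x = u ∧ φ i y = v := by
  classical
  obtain ⟨ι, hι, φ, hinj, hadj, hcov⟩ := h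
  have e : V ≃ Fin m := by
    rw [← hm]; exact Finite.equivFin V
  have e1 : ι ≃ Fin (Nat.card ι) := Finite.equivFin ι
  let b : Bool ≃ ZMod 2 :=
    { toFun := fun t => if t then 1 else 0
      invFun := fun z => decide (z = 1)
      left_inv := by intro t; cases t <;> simp
      right_inv := by decide }
  let B : (Fin d → Bool) ≃ (Fin d → ZMod 2) := Equiv.arrowCongr (Equiv.refl _) b
  have hB : ∀ x : Fin d → Bool, B x = fun l => b (x l) := by
    intro x; rfl
  have key : ∀ x y : Fin d → Bool, hammingDist x y = 1 ↔ ∃ l, B y = B x + Pi.single l 1 := by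
    intro x y
    unfold hammingDist
    rw [Finset.card_eq_one]
    constructor
    · rintro ⟨l, hl⟩
      refine ⟨l, ?_⟩
      rw [hB, hB]
      funext l'
      have hl' : x l' ≠ y l' ↔ l' = l := by
        have := congrArg (fun s => l' ∈ s) hl
        simpa using this
      simp only [Pi.add_apply, Pi.single_apply]
      by_cases hll : l' = l
      · have := hl'.2 hll
        rw [if_pos hll]
        revert this
        generalize x l' = p
        generalize y l' = q
        revert p q
        decide
      · have : x l' = y l' := by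
          by_contra hne; exact hll (hl'.1 hne)
        rw [if_neg hll, this, add_zero]
    · rintro ⟨l, hl⟩
      refine ⟨l, ?_⟩
      ext l'
      have h1 := congrFun hl l'
      rw [hB, hB] at h1
      simp only [Pi.add_apply, Pi.single_apply] at h1
      simp only [Finset.mem_filter, Finset.mem_univ, true_and, Finset.mem_singleton]
      by_cases hll : l' = l
      · rw [if_pos hll] at h1
        simp only [hll, iff_true]
        rw [hll] at h1
        intro hne
        rw [hne] at h1
        revert h1
        generalize y l = q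
        revert q
        decide
      · rw [if_neg hll, add_zero] at h1
        simp only [hll, iff_false, not_not]
        exact (b.injective h1).symm
  refine ⟨Nat.card ι, fun i x => e (φ (e1.symm i) (B x)), ?_, ?_⟩
  · intro i x y hxy
    exact B.injective (hinj _ (e.injective hxy))
  · intro u v huv
    obtain ⟨i, ⟨x, l, hx, hl⟩, hiu⟩ := hcov (e.symm u) (e.symm v) (fun h => huv (e.symm.injective h))
    refine ⟨e1 i, ⟨B.symm x, B.symm (x + Pi.single l 1), ?_, ?_, ?_⟩, ?_⟩
    · rw [key]; exact ⟨l, by simp⟩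
    · simp [hx]
    · simp [hl]
    · rintro i' ⟨x', y', hxy, hx', hy'⟩
      rw [key] at hxy
      obtain ⟨l', hl'⟩ := hxy
      have : e1.symm i' = i := by
        apply hiu
        refine ⟨B x', l', ?_, ?_⟩
        · rw [← hx']; simp
        · rw [← hl', ← hy']; simp
      rw [← this]; simp

end Pool.Agent.Helper662
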