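import Mathlib

set_option autoImplicit false

namespace Pool.Agent.Helper662

open Finset

section
variable {W : Type} [AddCommGroup W] [Module (ZMod 2) W] [Finite W] [DecidableEq W]

/-- truncated rank of a finite set of vectors -/
noncomputable def trk (d : ℕ) (A : Finset W) : ℕ :=
  min d (Module.finrank (ZMod 2) (Submodule.span (ZMod 2) (A : Set W)))

theorem trk_mono (d : ℕ) {A B : Finset W} (h : A ⊆ B) : trk d A ≤ trk d B := by
  unfold trk
  have : Submodule.span (ZMod 2) (A : Set W) ≤ Submodule.span (ZMod 2) (B : Set W) :=
    Submodule.span_mono (by exact_mod_cast h)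
  have := Submodule.finrank_mono this
  omega

theorem trk_submod (d : ℕ) (A B : Finset W) :
    trk d (A ∪ B) + trk d (A ∩ B) ≤ trk d A + trk d B := by
  unfold trk
  set P := Submodule.span (ZMod 2) (A : Set W)
  set Q := Submodule.span (ZMod 2) (B : Set W)
  have h1 : Submodule.span (ZMod 2) ((A ∪ B : Finset W) : Set W) = P ⊔ Q := by
    rw [Finset.coe_union, Submodule.span_union]
  have h2 : Submodule.span (ZMod 2) ((A ∩ B : Finset W) : Set W) ≤ P ⊓ Q := by
    rw [Finset.coe_inter]
    exact le_inf (Submodule.span_mono Set.inter_subset_left)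
      (Submodule.span_mono Set.inter_subset_right)
  have h3 := Submodule.finrank_sup_add_finrank_inf_eq P Q
  have h4 := Submodule.finrank_mono h2
  have h5 : Module.finrank (ZMod 2) P ≤ Module.finrank (ZMod 2) (P ⊔ Q : Submodule _ _) :=
    Submodule.finrank_mono le_sup_left
  have h6 : Module.finrank (ZMod 2) Q ≤ Module.finrank (ZMod 2) (P ⊔ Q : Submodule _ _) :=
    Submodule.finrank_mono le_sup_right
  have h7 : Module.finrank (ZMod 2) (P ⊓ Q : Submodule _ _) ≤ Module.finrank (ZMod 2) P :=
    Submodule.finrank_mono inf_le_left
  have h8 : Module.finrank (ZMod 2) (P ⊓ Q : Submodule _ _) ≤ Module.finrank (ZMod 2) Q :=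
    Submodule.finrank_mono inf_le_right
  rw [h1]
  omega

theorem trk_empty (d : ℕ) : trk d (∅ : Finset W) = 0 := by
  unfold trk
  simp

/-- Shrinking of lists of colours. -/
theorem shrink (d k : ℕ) (S : Finset W) : ∀ (N : ℕ) (L : W → Finset (Fin k)),
    (∑ s ∈ S, (L s).card = N) →
    (∀ A ⊆ S, A.card ≤ ∑ i : Fin k, trk d (A.filter (fun s => i ∈ L s))) →
    ∃ L' : W → Finset (Fin k), (∀ s ∈ S, (L' s).card = 1) ∧
      (∀ A ⊆ S, A.card ≤ ∑ i : Fin k, trk d (A.filter (fun s => i ∈ L' s))) := by
  intro N
  induction N using Nat.strong_induction_on with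
  | _ N ih =>
    intro L hN hL
    by_cases hall : ∀ s ∈ S, (L s).card ≤ 1
    · refine ⟨L, fun s hs => ?_, hL⟩
      have h1 := hL {s} (by simpa using hs)
      have h2 : (L s).card ≠ 0 := by
        intro h0
        rw [Finset.card_eq_zero] at h0
        have : ∀ i : Fin k, ({s} : Finset W).filter (fun s => i ∈ L s) = ∅ := by
          intro i
          rw [Finset.filter_singleton, h0]
          simp
        simp only [this, trk_empty, Finset.sum_const_zero, Finset.card_singleton] at h1
        omega
      have := hall s hs
      omega
    · push_neg at hall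
      obtain ⟨s0, hs0, hc⟩ := hall
      obtain ⟨p, hp, q, hq, hpq⟩ := Finset.one_lt_card.1 hc
      -- remove one of the two colours
      have hsmall : ∀ c ∈ L s0, ∑ s ∈ S, (Function.update L s0 ((L s0).erase c) s).card < N := by
        intro c hcL
        rw [← hN]
        apply Finset.sum_lt_sum
        · intro s _
          by_cases hss : s = s0
          · subst hss
            rw [Function.update_self]
            exact Finset.card_le_card (Finset.erase_subset _ _)
          · rw [Function.update_of_ne hss]
        · refine ⟨s0, hs0, ?_⟩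
          rw [Function.update_self]
          exact Finset.card_erase_lt_of_mem hcL
      by_cases hgp : ∀ A ⊆ S, A.card ≤ ∑ i : Fin k,
          trk d (A.filter (fun s => i ∈ Function.update L s0 ((L s0).erase p) s))
      · exact ih _ (hsmall p hp) _ rfl hgp
      by_cases hgq : ∀ A ⊆ S, A.card ≤ ∑ i : Fin k,
          trk d (A.filter (fun s => i ∈ Function.update L s0 ((L s0).erase q) s))
      · exact ih _ (hsmall q hq) _ rfl hgq
      exfalso
      push_neg at hgp hgq
      obtain ⟨J, hJS, hJ⟩ := hgp
      obtain ⟨J', hJS', hJ'⟩ := hgq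
      have hmem : ∀ c (K : Finset W), K ⊆ S → (∑ i : Fin k,
          trk d (K.filter (fun s => i ∈ Function.update L s0 ((L s0).erase c) s)) < K.card) →
          s0 ∈ K := by
        intro c K hKS hK
        by_contra hn
        have h1 := hL K hKS
        have h2 : ∀ i : Fin k, K.filter (fun s => i ∈ Function.update L s0 ((L s0).erase c) s)
            = K.filter (fun s => i ∈ L s) := by
          intro i
          apply Finset.filter_congr
          intro s hs
          have : s ≠ s0 := fun h => hn (h ▸ hs)
          rw [Function.update_of_ne this]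
        simp only [h2] at hK
        omega
      have hsJ := hmem p J hJS hJ
      have hsJ' := hmem q J' hJS' hJ'
      have hU := hL (J ∪ J') (Finset.union_subset hJS hJS')
      have hI := hL (J.erase s0 ∩ J'.erase s0)
        (Finset.inter_subset_left.trans ((Finset.erase_subset _ _).trans hJS))
      have hsum : ∑ i : Fin k, trk d ((J ∪ J').filter (fun s => i ∈ L s)) +
          ∑ i : Fin k, trk d ((J.erase s0 ∩ J'.erase s0).filter (fun s => i ∈ L s)) ≤
          ∑ i : Fin k, trk d (J.filter (fun s => i ∈ Function.update L s0 ((L s0).erase p) s)) +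
          ∑ i : Fin k, trk d (J'.filter (fun s => i ∈ Function.update L s0 ((L s0).erase q) s)) := by
        rw [← Finset.sum_add_distrib, ← Finset.sum_add_distrib]
        apply Finset.sum_le_sum
        intro i _
        refine le_trans ?_ (trk_submod d _ _)
        apply add_le_add
        · apply trk_mono
          intro s hs
          rw [Finset.mem_filter, Finset.mem_union] at hs
          rw [Finset.mem_union, Finset.mem_filter, Finset.mem_filter]
          by_cases hss : s = s0
          · subst hss
            rw [Function.update_self, Function.update_self]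
            by_cases hip : i = p
            · right
              refine ⟨hsJ', ?_⟩
              rw [Finset.mem_erase]
              exact ⟨by rw [hip]; exact hpq, hs.2⟩
            · left
              refine ⟨hsJ, ?_⟩
              rw [Finset.mem_erase]
              exact ⟨hip, hs.2⟩
          · rw [Function.update_of_ne hss, Function.update_of_ne hss]
            rcases hs.1 with h | h
            · left; exact ⟨h, hs.2⟩
            · right; exact ⟨h, hs.2⟩
        · apply trk_mono
          intro s hs
          rw [Finset.mem_filter, Finset.mem_inter, Finset.mem_erase, Finset.mem_erase] at hs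
          rw [Finset.mem_inter, Finset.mem_filter, Finset.mem_filter]
          obtain ⟨⟨⟨hne, h1⟩, -, h2⟩, h3⟩ := hs
          rw [Function.update_of_ne hne, Function.update_of_ne hne]
          exact ⟨⟨h1, h3⟩, h2, h3⟩
      have hcard : (J ∪ J').card + (J.erase s0 ∩ J'.erase s0).card + 1 = J.card + J'.card := by
        have h1 : J.erase s0 ∩ J'.erase s0 = (J ∩ J').erase s0 := by
          ext s
          simp only [Finset.mem_inter, Finset.mem_erase]
          tauto
        rw [h1]
        have h2 : s0 ∈ J ∩ J' := Finset.mem_inter.2 ⟨hsJ, hsJ'⟩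
        have h3 := Finset.card_erase_add_one h2
        have h4 := Finset.card_union_add_card_inter J J'
        omega
      omega

/-- Truncated Rado-Horn theorem over the field with two elements. -/
theorem rado_horn (d k : ℕ) (S : Finset W) (hcard : S.card = k * d)
    (h : ∀ A ⊆ S, A.card ≤ k * trk d A) :
    ∃ b : Fin k → Fin d → W, (∀ i, LinearIndependent (ZMod 2) (b i)) ∧
      (∀ i l, b i l ∈ S) ∧ (∀ s ∈ S, ∃! i, ∃ l, b i l = s) := by
  obtain ⟨L, hL1, hL2⟩ := shrink d k S _ (fun _ => Finset.univ) rfl (by
    intro A hA
    have := h A hA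
    simpa using this)
  have hSS := hL2 S (Finset.Subset.refl S)
  have hle : ∀ i : Fin k, trk d (S.filter (fun s => i ∈ L s)) ≤ d := fun i => by
    unfold trk; exact min_le_left _ _
  have hsumd : ∑ i : Fin k, trk d (S.filter (fun s => i ∈ L s)) = ∑ _i : Fin k, d := by
    apply le_antisymm (Finset.sum_le_sum (fun i _ => hle i))
    simp only [Finset.sum_const, Finset.card_univ, Fintype.card_fin, smul_eq_mul]
    rw [← hcard]; exact hSS
  have heq : ∀ i : Fin k, trk d (S.filter (fun s => i ∈ L s)) = d := by
    intro i
    exact (Finset.sum_eq_sum_iff_of_le (fun i _ => hle i)).1 hsumd i (Finset.mem_univ i)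
  have hrk : ∀ i : Fin k, d ≤ Module.finrank (ZMod 2)
      (Submodule.span (ZMod 2) ((S.filter (fun s => i ∈ L s) : Finset W) : Set W)) := by
    intro i
    have := heq i
    unfold trk at this
    omega
  have hrc : ∀ i : Fin k, Module.finrank (ZMod 2)
      (Submodule.span (ZMod 2) ((S.filter (fun s => i ∈ L s) : Finset W) : Set W)) ≤
      (S.filter (fun s => i ∈ L s)).card := by
    intro i
    exact finrank_span_finset_le_card _
  have hcsum : ∑ i : Fin k, (S.filter (fun s => i ∈ L s)).card = ∑ _i : Fin k, d := by
    have h1 : ∑ i : Fin k, (S.filter (fun s => i ∈ L s)).card = ∑ s ∈ S, (L s).card := by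
      simp only [Finset.card_eq_sum_ones, Finset.sum_filter]
      rw [Finset.sum_comm]
      apply Finset.sum_congr rfl
      intro s _
      rw [← Finset.sum_filter]
      congr 1
      ext i
      simp
    rw [h1, Finset.sum_congr rfl hL1]
    simp only [Finset.sum_const, Finset.card_univ, Fintype.card_fin, smul_eq_mul, mul_one]
    exact hcard
  have hci : ∀ i : Fin k, (S.filter (fun s => i ∈ L s)).card = d := by
    intro i
    have := (Finset.sum_eq_sum_iff_of_le (fun i _ => le_trans (hrk i) (hrc i))).1 hcsum.symm i
      (Finset.mem_univ i)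
    exact this.symm
  refine ⟨fun i l => (((S.filter (fun s => i ∈ L s)).equivFinOfCardEq (hci i)).symm l : W),
    ?_, ?_, ?_⟩
  · intro i
    rw [linearIndependent_iff_card_eq_finrank_span]
    have hr : Set.range (fun l =>
        (((S.filter (fun s => i ∈ L s)).equivFinOfCardEq (hci i)).symm l : W)) =
        ((S.filter (fun s => i ∈ L s) : Finset W) : Set W) := by
      ext s
      constructor
      · rintro ⟨l, rfl⟩
        exact (((S.filter (fun s => i ∈ L s)).equivFinOfCardEq (hci i)).symm l).2
      · intro hs
        refine ⟨((S.filter (fun s => i ∈ L s)).equivFinOfCardEq (hci i)) ⟨s, hs⟩, ?_⟩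
        simp
    rw [hr, Fintype.card_fin]
    have h1 := hrk i
    have h2 := hrc i
    rw [hci i] at h2
    exact le_antisymm h1 h2
  · intro i l
    have := (((S.filter (fun s => i ∈ L s)).equivFinOfCardEq (hci i)).symm l).2
    exact (Finset.mem_filter.1 this).1
  · intro s hs
    obtain ⟨i, hi⟩ := Finset.card_eq_one.1 (hL1 s hs)
    have hmem : s ∈ S.filter (fun s => i ∈ L s) := by
      rw [Finset.mem_filter, hi]
      exact ⟨hs, Finset.mem_singleton_self i⟩
    refine ⟨i, ⟨((S.filter (fun s => i ∈ L s)).equivFinOfCardEq (hci i)) ⟨s, hmem⟩, by simp⟩, ?_⟩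
    rintro i' ⟨l, hl⟩
    have h1 := (((S.filter (fun s => i' ∈ L s)).equivFinOfCardEq (hci i')).symm l).2
    rw [Finset.mem_filter] at h1
    have h2 := h1.2
    dsimp only at hl
    rw [hl, hi, Finset.mem_singleton] at h2
    exact h2

end

end Pool.Agent.Helper662
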