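import Pool.Agent.Helper662.LinCube
import Pool.Agent.Helper662.Rado

set_option autoImplicit false

namespace Pool.Agent.Helper662

open Finset

theorem pow_ratio (a b : ℕ) (ha : 1 ≤ a) (hab : a ≤ b) : (2 ^ a - 1) * b ≤ (2 ^ b - 1) * a := by
  induction b, hab using Nat.le_induction with
  | base => exact le_refl _
  | succ b hb ih =>
    have h1 : 1 ≤ 2 ^ a := Nat.one_le_two_pow
    have h2 : 1 ≤ 2 ^ b := Nat.one_le_two_pow
    obtain ⟨p, hp⟩ : ∃ p, 2 ^ a = p + 1 := ⟨2 ^ a - 1, by omega⟩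
    obtain ⟨q, hq⟩ : ∃ q, 2 ^ b = q + 1 := ⟨2 ^ b - 1, by omega⟩
    have h3 : 2 ^ (b + 1) - 1 = 2 * q + 1 := by rw [pow_succ, hq]; omega
    rw [h3]
    rw [hp, hq] at ih
    rw [hp]
    simp only [Nat.add_sub_cancel] at ih ⊢
    have hb1 : 1 ≤ b := le_trans ha hb
    nlinarith [Nat.mul_le_mul_left p hb1]

theorem pow_ratio' (a b : ℕ) (ha : 1 ≤ a) (hab : a ≤ b) : 2 ^ (a - 1) * b ≤ 2 ^ (b - 1) * a := by
  induction b, hab using Nat.le_induction with
  | base => exact le_refl _
  | succ b hb ih =>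
    obtain ⟨c, rfl⟩ : ∃ c, b = c + 1 := ⟨b - 1, by omega⟩
    simp only [Nat.add_sub_cancel] at ih ⊢
    rw [pow_succ 2 c]
    have h1 : 2 ^ (a - 1) * 1 ≤ 2 ^ (a - 1) * (c + 1) := Nat.mul_le_mul_left _ (by omega)
    nlinarith

section
variable {T : Type} [AddCommGroup T] [Module (ZMod 2) T] [Finite T]

theorem natCard_span (A : Set T) : Nat.card (Submodule.span (ZMod 2) A) =
    2 ^ Module.finrank (ZMod 2) (Submodule.span (ZMod 2) A) := by
  have := Module.natCard_eq_pow_finrank (K := ZMod 2) (V := Submodule.span (ZMod 2) A)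
  rw [this]
  simp

theorem fill_lin [DecidableEq T] (d k : ℕ) (hd : 2 ≤ d) (S : Finset T) (h0 : (0 : T) ∉ S)
    (hk : S.card = k * d) (hb : 2 ^ (d - 1) - 1 ≤ k * (d - 1)) :
    ∃ b : Fin k → Fin d → T, (∀ i, LinearIndependent (ZMod 2) (b i)) ∧
      (∀ i l, b i l ∈ S) ∧ (∀ s ∈ S, ∃! i, ∃ l, b i l = s) := by
  classical
  apply rado_horn d k S hk
  intro A hA
  unfold trk
  set a := Module.finrank (ZMod 2) (Submodule.span (ZMod 2) (A : Set T)) with ha
  rcases le_or_gt d a with h | h
  · rw [min_eq_left h, ← hk]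
    exact Finset.card_le_card hA
  · rw [min_eq_right h.le]
    have h1 : A.card + 1 ≤ 2 ^ a := by
      have h2 : ((insert 0 A : Finset T) : Set T) ⊆ Submodule.span (ZMod 2) (A : Set T) := by
        rw [Finset.coe_insert]
        exact Set.insert_subset (Submodule.zero_mem _) Submodule.subset_span
      have h3 : (insert 0 A : Finset T).card = A.card + 1 :=
        Finset.card_insert_of_notMem (fun h => h0 (hA h))
      rw [← h3, ha, ← natCard_span]
      have h4 := Nat.card_mono (Set.toFinite _) h2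
      rw [Nat.card_coe_set_eq, Set.ncard_coe_finset] at h4
      exact h4
    rcases Nat.eq_zero_or_pos a with h5 | h5
    · rw [h5] at h1 ⊢
      simp at h1 ⊢
      exact h1
    · have h6 := pow_ratio a (d - 1) h5 (by omega)
      have h7 : (2 ^ (d - 1) - 1) * a ≤ k * (d - 1) * a := Nat.mul_le_mul_right _ hb
      have h8 : (2 ^ a - 1) * (d - 1) ≤ (k * a) * (d - 1) := by
        calc _ ≤ (2 ^ (d - 1) - 1) * a := h6
          _ ≤ k * (d - 1) * a := h7
          _ = (k * a) * (d - 1) := by ring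
      have h9 := Nat.le_of_mul_le_mul_right h8 (by omega)
      omega

theorem fill_aff [DecidableEq T] (d k : ℕ) (hd : 2 ≤ d) (S : Finset T)
    (hk : S.card = k * d) (hb : k = 0 ∨ 2 ^ (d - 2) ≤ k * (d - 1)) :
    ∃ b : Fin k → Fin d → T, (∀ i, LinearIndependent (ZMod 2) (fun l => ((1 : ZMod 2), b i l))) ∧
      (∀ i l, b i l ∈ S) ∧ (∀ s ∈ S, ∃! i, ∃ l, b i l = s) := by
  classical
  let ι : T ↪ ZMod 2 × T := ⟨fun v => (1, v), fun v v' h => (Prod.mk.inj h).2⟩
  have hι : ∀ v, ι v = (1, v) := fun v => rfl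
  have hmain := rado_horn (W := ZMod 2 × T) d k (S.map ι) (by rw [Finset.card_map, hk]) ?_
  · obtain ⟨b, hb1, hb2, hb3⟩ := hmain
    have hb4 : ∀ i l, (b i l).1 = 1 ∧ (b i l).2 ∈ S := by
      intro i l
      obtain ⟨v, hv, hv2⟩ := Finset.mem_map.1 (hb2 i l)
      rw [← hv2, hι]
      exact ⟨rfl, hv⟩
    refine ⟨fun i l => (b i l).2, ?_, fun i l => (hb4 i l).2, ?_⟩
    · intro i
      have : (fun l => ((1 : ZMod 2), (b i l).2)) = b i := by
        funext l
        exact Prod.ext (hb4 i l).1.symm rfl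
      rw [this]
      exact hb1 i
    · intro s hs
      obtain ⟨i, ⟨l, hl⟩, hu⟩ := hb3 (1, s) (Finset.mem_map.2 ⟨s, hs, rfl⟩)
      refine ⟨i, ⟨l, by dsimp only; rw [hl]⟩, ?_⟩
      rintro i' ⟨l', hl'⟩
      apply hu
      exact ⟨l', Prod.ext (hb4 i' l').1 hl'⟩
  · intro A hA
    unfold trk
    set a := Module.finrank (ZMod 2) (Submodule.span (ZMod 2) (A : Set (ZMod 2 × T))) with ha
    rcases le_or_gt d a with h | h
    · rw [min_eq_left h, ← hk]
      have := Finset.card_le_card hA
      rwa [Finset.card_map] at this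
    · rw [min_eq_right h.le]
      rcases A.eq_empty_or_nonempty with hAe | ⟨v0, hv0⟩
      · rw [hAe]; simp
      have hfst : ∀ v ∈ A, v.1 = 1 := by
        intro v hv
        obtain ⟨v', _, hv2⟩ := Finset.mem_map.1 (hA hv)
        rw [← hv2]; rfl
      have hk0 : k ≠ 0 := by
        intro h0
        have h1 : S.card = 0 := by rw [hk, h0, zero_mul]
        rw [Finset.card_eq_zero] at h1
        rw [h1] at hA
        exact absurd (hA hv0) (by simp)
      have hb' : 2 ^ (d - 2) ≤ k * (d - 1) := by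
        rcases hb with h | h
        · exact absurd h hk0
        · exact h
      let B : Finset (ZMod 2 × T) := A.image (fun v => v + v0)
      have hBc : B.card = A.card := Finset.card_image_of_injective _ (add_left_injective v0)
      have hdisj : Disjoint A B := by
        rw [Finset.disjoint_left]
        intro v hv hvB
        obtain ⟨v', hv', rfl⟩ := Finset.mem_image.1 hvB
        have h1 := hfst _ hv
        rw [Prod.fst_add, hfst _ hv', hfst _ hv0] at h1
        revert h1; decide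
      have h1 : A.card + A.card ≤ 2 ^ a := by
        have h2 : ((A ∪ B : Finset (ZMod 2 × T)) : Set (ZMod 2 × T)) ⊆
            Submodule.span (ZMod 2) (A : Set (ZMod 2 × T)) := by
          rw [Finset.coe_union]
          apply Set.union_subset Submodule.subset_span
          intro v hv
          obtain ⟨v', hv', rfl⟩ := Finset.mem_image.1 (Finset.mem_coe.1 hv)
          exact Submodule.add_mem _ (Submodule.subset_span hv') (Submodule.subset_span hv0)
        have h3 : (A ∪ B).card = A.card + A.card := by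
          rw [Finset.card_union_of_disjoint hdisj, hBc]
        rw [← h3, ha, ← natCard_span]
        have h4 := Nat.card_mono (Set.toFinite _) h2
        rw [Nat.card_coe_set_eq, Set.ncard_coe_finset] at h4
        exact h4
      have hapos : 1 ≤ a := by
        by_contra hne
        have h5 : a = 0 := by omega
        rw [h5] at h1
        have : 1 ≤ A.card := Finset.card_pos.2 ⟨v0, hv0⟩
        simp at h1
        omega
      have h2 : A.card ≤ 2 ^ (a - 1) := by
        obtain ⟨c, hc⟩ : ∃ c, a = c + 1 := ⟨a - 1, by omega⟩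
        rw [hc, pow_succ] at h1
        rw [hc, Nat.add_sub_cancel]
        omega
      have h6 := pow_ratio' a (d - 1) hapos (by omega)
      have h7 : 2 ^ (d - 1 - 1) * a ≤ k * (d - 1) * a := by
        apply Nat.mul_le_mul_right
        rw [show d - 1 - 1 = d - 2 by omega]
        exact hb'
      have h8 : 2 ^ (a - 1) * (d - 1) ≤ (k * a) * (d - 1) := by
        calc _ ≤ 2 ^ (d - 1 - 1) * a := h6
          _ ≤ k * (d - 1) * a := h7
          _ = (k * a) * (d - 1) := by ring
      have h9 := Nat.le_of_mul_le_mul_right h8 (by omega)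
      omega

/-- one class of mixed differences -/
theorem cubeDec_mixed {I : Type} [AddCommGroup I] [Finite I] (d k : ℕ) (hd : 1 ≤ d) (j : I)
    (hj : j ≠ -j) (S : Set T)
    (b : Fin k → Fin d → T) (hb1 : ∀ i, LinearIndependent (ZMod 2) (fun l => ((1 : ZMod 2), b i l)))
    (hb2 : ∀ i l, b i l ∈ S) (hb3 : ∀ s ∈ S, ∃! i, ∃ l, b i l = s) :
    CubeDec d (fun u v : I × T => (v.1 - u.1 = j ∨ v.1 - u.1 = -j) ∧ v.2 - u.2 ∈ S) := by
  classical
  refine CubeDec.combine (β := Fin k)
    (fun i u v => v - u ∈ {δ : I × T | (δ.1 = j ∨ δ.1 = -j) ∧ ∃ l, b i l = δ.2}) ?_ ?_ ?_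
  · rintro i u v ⟨h1, l, h2⟩
    refine ⟨h1, ?_⟩
    rw [Prod.snd_sub] at h2
    rw [← h2]
    exact hb2 i l
  · rintro u v ⟨h1, h2⟩
    obtain ⟨i, hi, hu⟩ := hb3 _ h2
    refine ⟨i, ⟨h1, hi⟩, ?_⟩
    rintro i' ⟨_, h4⟩
    exact hu i' h4
  · intro i
    have P01 : ∀ y : ZMod 2, y = 0 ∨ y = 1 := by decide
    have h11 : (1 : ZMod 2) + 1 = 0 := by decide
    refine linCay (Y := ZMod 2) (fun _ => 1) (b i) (fun y => if y = 0 then 0 else j) (fun _ => 0)
      ?_ (hb1 i) ?_ ?_ _ ?_
    · intro y y' h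
      have hj0 : j ≠ 0 := by
        rintro rfl
        exact hj (by rw [neg_zero])
      rcases P01 y with rfl | rfl <;> rcases P01 y' with rfl | rfl
      · rfl
      · simp at h; exact absurd h.symm hj0
      · simp at h; exact absurd h hj0
      · rfl
    · intro y
      refine ⟨Pi.single ⟨0, hd⟩ y, ?_⟩
      unfold comb
      rw [Fintype.linearCombination_apply_single]
      simp
    · intro y y' l l' h _
      rcases P01 y with rfl | rfl <;> rcases P01 y' with rfl | rfl
      · rfl
      · simp [h11] at h; exact absurd h hj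
      · simp [h11] at h; exact absurd h.symm hj
      · rfl
    · intro δ
      constructor
      · rintro ⟨h1 | h1, l, h2⟩
        · refine ⟨0, l, Prod.ext ?_ ?_⟩
          · simp [h1]
          · simp [h2]
        · refine ⟨1, l, Prod.ext ?_ ?_⟩
          · simp [h1, h11]
          · simp [h2]
      · rintro ⟨y, l, rfl⟩
        refine ⟨?_, l, by simp⟩
        rcases P01 y with rfl | rfl
        · left; simp
        · right; simp [h11]

/-- pure differences in one part -/
theorem cubeDec_pure {I : Type} [AddCommGroup I] [Finite I] (d k : ℕ) (i0 : I) (S : Set T)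
    (b : Fin k → Fin d → T) (hb1 : ∀ i, LinearIndependent (ZMod 2) (b i))
    (hb2 : ∀ i l, b i l ∈ S) (hb3 : ∀ s ∈ S, ∃! i, ∃ l, b i l = s) :
    CubeDec d (fun u v : I × T => u.1 = i0 ∧ v.1 = i0 ∧ v.2 - u.2 ∈ S) := by
  classical
  refine CubeDec.combine (β := Fin k)
    (fun i u v => ∃ (_ : PUnit) (l : Fin d), u.1 = i0 ∧ v.1 = i0 ∧ v.2 - u.2 = b i l) ?_ ?_ ?_
  · rintro i u v ⟨_, l, h1, h2, h3⟩
    refine ⟨h1, h2, ?_⟩
    rw [h3]; exact hb2 i l
  · rintro u v ⟨h1, h2, h3⟩
    obtain ⟨i, ⟨l, hl⟩, hu⟩ := hb3 _ h3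
    refine ⟨i, ⟨PUnit.unit, l, h1, h2, hl.symm⟩, ?_⟩
    rintro i' ⟨_, l', _, _, h6⟩
    exact hu i' ⟨l', h6.symm⟩
  · intro i
    refine linT (Y := PUnit) (fun _ => 0) (b i) (fun _ => i0) ?_ ?_ ?_
    · intro y y' _; rfl
    · have h := hb1 i
      rw [Fintype.linearIndependent_iff] at h ⊢
      intro g hg
      apply h
      have := congrArg Prod.snd hg
      simpa [Prod.snd_sum] using this
    · intro y
      exact ⟨0, rfl⟩

end

end Pool.Agent.Helper662
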