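import Mathlib

set_option autoImplicit false

namespace Pool.Agent.Helper662

open Finset

/-- change one coordinate -/
def flipb {d : ℕ} (x : Fin d → Bool) (l : Fin d) : Fin d → Bool := Function.update x l (!x l)

theorem hamming_one {d : ℕ} (x y : Fin d → Bool) :
    hammingDist x y = 1 ↔ ∃ l, y = flipb x l := by
  unfold hammingDist
  rw [Finset.card_eq_one]
  constructor
  · rintro ⟨l, hl⟩
    refine ⟨l, ?_⟩
    funext l'
    have hl' : x l' ≠ y l' ↔ l' = l := by
      have := congrArg (fun s => l' ∈ s) hl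
      simpa using this
    unfold flipb
    by_cases h : l' = l
    · subst h
      rw [Function.update_self]
      have := hl'.2 rfl
      revert this
      generalize x l' = p
      generalize y l' = q
      revert p q
      decide
    · rw [Function.update_of_ne h]
      by_contra hne
      exact h (hl'.1 (fun h' => hne h'.symm))
  · rintro ⟨l, rfl⟩
    refine ⟨l, ?_⟩
    ext l'
    simp only [Finset.mem_filter, Finset.mem_univ, true_and, Finset.mem_singleton]
    unfold flipb
    by_cases h : l' = l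
    · subst h
      rw [Function.update_self]
      simp
    · rw [Function.update_of_ne h]
      simp [h]

theorem flipb_inj {d : ℕ} (x : Fin d → Bool) (l l' : Fin d) (h : flipb x l = flipb x l') :
    l = l' := by
  by_contra hne
  have := congrFun h l
  unfold flipb at this
  rw [Function.update_self, Function.update_of_ne hne] at this
  revert this
  generalize x l = p
  revert p
  decide

theorem onlyIf_count {d k m : ℕ} (hm : 0 < m) (φ : Fin k → (Fin d → Bool) → Fin m)
    (hinj : ∀ i, Function.Injective (φ i))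
    (hcov : ∀ u v : Fin m, u ≠ v → ∃! i : Fin k, ∃ x y : Fin d → Bool,
      hammingDist x y = 1 ∧ φ i x = u ∧ φ i y = v) :
    d ∣ m - 1 ∧ d * 2 ^ d ∣ m * (m - 1) := by
  classical
  let Θ : Fin k × (Fin d → Bool) × Fin d → Fin m × Fin m :=
    fun p => (φ p.1 p.2.1, φ p.1 (flipb p.2.1 p.2.2))
  have hΘne : ∀ p, (Θ p).1 ≠ (Θ p).2 := by
    rintro ⟨i, x, l⟩ h
    have h1 := hinj i h
    have := congrFun h1 l
    unfold flipb at this
    dsimp only at this
    rw [Function.update_self] at this
    revert this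
    generalize x l = p
    revert p
    decide
  have hΘinj : Function.Injective Θ := by
    rintro ⟨i, x, l⟩ ⟨i', x', l'⟩ h
    have h1 : φ i x = φ i' x' := congrArg Prod.fst h
    have h2 : φ i (flipb x l) = φ i' (flipb x' l') := congrArg Prod.snd h
    obtain ⟨j, _, hj⟩ := hcov (φ i x) (φ i (flipb x l)) (hΘne ⟨i, x, l⟩)
    have h3 : i = j := hj i ⟨x, flipb x l, (hamming_one _ _).2 ⟨l, rfl⟩, rfl, rfl⟩
    have h4 : i' = j := hj i' ⟨x', flipb x' l', (hamming_one _ _).2 ⟨l', rfl⟩, h1.symm, h2.symm⟩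
    have h5 : i = i' := h3.trans h4.symm
    subst h5
    have h6 : x = x' := hinj i h1
    subst h6
    have h7 := flipb_inj x l l' (hinj i h2)
    rw [h7]
  have hΘsurj : ∀ u v : Fin m, u ≠ v → ∃ p, Θ p = (u, v) := by
    intro u v huv
    obtain ⟨i, ⟨x, y, hxy, hx, hy⟩, _⟩ := hcov u v huv
    obtain ⟨l, rfl⟩ := (hamming_one _ _).1 hxy
    exact ⟨⟨i, x, l⟩, Prod.ext hx hy⟩
  constructor
  · -- local count
    let u0 : Fin m := ⟨0, hm⟩
    let A : Finset (Fin k × (Fin d → Bool)) := Finset.univ.filter (fun p => φ p.1 p.2 = u0)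
    have hcard : (A ×ˢ (Finset.univ : Finset (Fin d))).card = (Finset.univ.erase u0).card := by
      apply Finset.card_bij (fun p _ => φ p.1.1 (flipb p.1.2 p.2))
      · rintro ⟨⟨i, x⟩, l⟩ hp
        rw [Finset.mem_product, Finset.mem_filter] at hp
        rw [Finset.mem_erase]
        refine ⟨?_, Finset.mem_univ _⟩
        intro h
        apply hΘne ⟨i, x, l⟩
        exact hp.1.2.trans h.symm
      · rintro ⟨⟨i, x⟩, l⟩ hp ⟨⟨i', x'⟩, l'⟩ hp' h
        rw [Finset.mem_product, Finset.mem_filter] at hp hp'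
        have h1 : Θ ⟨i, x, l⟩ = Θ ⟨i', x', l'⟩ := Prod.ext (hp.1.2.trans hp'.1.2.symm) h
        have h2 := hΘinj h1
        simp only [Prod.mk.injEq] at h2 ⊢
        tauto
      · intro v hv
        rw [Finset.mem_erase] at hv
        obtain ⟨⟨i, x, l⟩, hp⟩ := hΘsurj u0 v hv.1.symm
        refine ⟨⟨⟨i, x⟩, l⟩, ?_, congrArg Prod.snd hp⟩
        rw [Finset.mem_product, Finset.mem_filter]
        exact ⟨⟨Finset.mem_univ _, congrArg Prod.fst hp⟩, Finset.mem_univ _⟩
    rw [Finset.card_product, Finset.card_univ, Fintype.card_fin,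
      Finset.card_erase_of_mem (Finset.mem_univ _), Finset.card_univ, Fintype.card_fin] at hcard
    exact ⟨A.card, by rw [← hcard]; ring⟩
  · have hcard : (Finset.univ : Finset (Fin k × (Fin d → Bool) × Fin d)).card =
        (Finset.univ : Finset (Fin m)).offDiag.card := by
      apply Finset.card_bij (fun p _ => Θ p)
      · intro p _
        rw [Finset.mem_offDiag]
        exact ⟨Finset.mem_univ _, Finset.mem_univ _, hΘne p⟩
      · intro p _ p' _ h
        exact hΘinj h
      · rintro ⟨u, v⟩ h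
        rw [Finset.mem_offDiag] at h
        obtain ⟨p, hp⟩ := hΘsurj u v h.2.2
        exact ⟨p, Finset.mem_univ _, hp⟩
    rw [Finset.offDiag_card, Finset.card_univ, Finset.card_univ, Fintype.card_fin] at hcard
    simp only [Fintype.card_prod, Fintype.card_fin, Fintype.card_pi, Fintype.card_bool,
      Finset.prod_const, Finset.card_univ] at hcard
    have h2 : m * (m - 1) = m * m - m := by
      rw [Nat.mul_sub, mul_one]
    rw [h2, ← hcard]
    exact ⟨k, by ring⟩

theorem onlyIf {d k m : ℕ} (hd : d.Prime) (hd2 : 2 < d) (hm : 0 < m)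
    (φ : Fin k → (Fin d → Bool) → Fin m)
    (hinj : ∀ i, Function.Injective (φ i))
    (hcov : ∀ u v : Fin m, u ≠ v → ∃! i : Fin k, ∃ x y : Fin d → Bool,
      hammingDist x y = 1 ∧ φ i x = u ∧ φ i y = v) :
    (m ≡ 1 [MOD d * 2 ^ d] ∨ m ≡ (d + 1) * 2 ^ (d - 1) [MOD d * 2 ^ d]) := by
  obtain ⟨h1, h2⟩ := onlyIf_count hm φ hinj hcov
  have hodd : d % 2 = 1 := by
    rcases hd.eq_two_or_odd with h | h
    · omega
    · exact h
  have hcop : Nat.Coprime d (2 ^ d) := by
    apply Nat.Coprime.pow_right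
    rw [Nat.coprime_two_right]
    exact Nat.odd_iff.2 hodd
  have h3 : 2 ^ d ∣ m * (m - 1) := (Dvd.intro_left d rfl).trans h2
  have hmd : m ≡ 1 [MOD d] := ((Nat.modEq_iff_dvd' hm).2 h1).symm
  rcases Nat.even_or_odd m with he | ho
  · right
    have hm1 : Nat.Coprime (2 ^ d) (m - 1) := by
      apply Nat.Coprime.pow_left
      rw [Nat.coprime_two_left]
      rw [Nat.odd_iff]
      rw [Nat.even_iff] at he
      omega
    have h4 : 2 ^ d ∣ m := hm1.dvd_of_dvd_mul_right h3
    rw [← Nat.modEq_and_modEq_iff_modEq_mul hcop]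
    constructor
    · refine hmd.trans ?_
      have hf : 2 ^ (d - 1) ≡ 1 [MOD d] := by
        have hc : Nat.Coprime 2 d := by
          rw [Nat.coprime_two_left]; exact Nat.odd_iff.2 hodd
        have := Nat.ModEq.pow_totient hc
        rwa [Nat.totient_prime hd] at this
      have h5 : d + 1 ≡ 1 [MOD d] := by
        rw [Nat.ModEq, Nat.add_mod_left]
      have h6 := Nat.ModEq.mul h5 hf
      rw [mul_one] at h6
      exact h6.symm
    · have h5 : m ≡ 0 [MOD 2 ^ d] := (Nat.modEq_zero_iff_dvd).2 h4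
      have h6 : (d + 1) * 2 ^ (d - 1) ≡ 0 [MOD 2 ^ d] := by
        rw [Nat.modEq_zero_iff_dvd]
        obtain ⟨c, hc⟩ : ∃ c, d + 1 = 2 * c := ⟨(d + 1) / 2, by omega⟩
        refine ⟨c, ?_⟩
        rw [hc]
        have : 2 ^ d = 2 * 2 ^ (d - 1) := by
          rw [← pow_succ']; congr 1; omega
        rw [this]; ring
      exact h5.trans h6.symm
  · left
    have hm1 : Nat.Coprime (2 ^ d) m := by
      apply Nat.Coprime.pow_left
      rw [Nat.coprime_two_left]; exact ho
    have h4 : 2 ^ d ∣ m - 1 := hm1.dvd_of_dvd_mul_left h3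
    have h5 : d * 2 ^ d ∣ m - 1 := Nat.Coprime.mul_dvd_of_dvd_of_dvd hcop h1 h4
    exact ((Nat.modEq_iff_dvd' hm).2 h5).symm

end Pool.Agent.Helper662
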