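import Pool.Agent.Helper662.CaseA
import Pool.Agent.Helper662.CaseB2
import Pool.Agent.Helper662.OnlyIf

set_option autoImplicit false

namespace Pool.Agent.Helper662

theorem ifPart {d m : ℕ} (hd : d.Prime) (hd2 : 2 < d) (hm : 0 < m)
    (h : m ≡ 1 [MOD d * 2 ^ d] ∨ m ≡ (d + 1) * 2 ^ (d - 1) [MOD d * 2 ^ d]) :
    ∃ k : ℕ, ∃ φ : Fin k → (Fin d → Bool) → Fin m,
          (∀ i, Function.Injective (φ i)) ∧
          ∀ u v : Fin m, u ≠ v →
            ∃! i : Fin k, ∃ x y : Fin d → Bool,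
              hammingDist x y = 1 ∧ φ i x = u ∧ φ i y = v := by
  have hodd : d % 2 = 1 := by
    rcases hd.eq_two_or_odd with h | h
    · omega
    · exact h
  rcases h with h | h
  · obtain ⟨c, hc⟩ := (Nat.modEq_iff_dvd' hm).1 h.symm
    obtain ⟨n, rfl⟩ : ∃ n, d = n + 1 := ⟨d - 1, by omega⟩
    have hmeq : m = 2 * (qe (n + 1) * c) + 1 := by
      rw [qe_eq]
      have : (n + 1) * 2 ^ (n + 1) * c = 2 * ((n + 1) * 2 ^ n * c) := by
        rw [pow_succ]; ring
      rw [this] at hc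
      omega
    have : NeZero m := ⟨by omega⟩
    exact CubeDec.toFin (V := ZMod m) (by simp) (caseA n c m hmeq)
  · have h2 : m ≡ 0 [MOD 2 ^ d] := by
      have h3 : m ≡ (d + 1) * 2 ^ (d - 1) [MOD 2 ^ d] :=
        Nat.ModEq.of_dvd (Dvd.intro_left d rfl) h
      have h6 : (d + 1) * 2 ^ (d - 1) ≡ 0 [MOD 2 ^ d] := by
        rw [Nat.modEq_zero_iff_dvd]
        obtain ⟨c, hc⟩ : ∃ c, d + 1 = 2 * c := ⟨(d + 1) / 2, by omega⟩
        refine ⟨c, ?_⟩
        rw [hc]
        have : 2 ^ d = 2 * 2 ^ (d - 1) := by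
          rw [← pow_succ']; congr 1; omega
        rw [this]; ring
      exact h3.trans h6
    have h4 : m ≡ 1 [MOD d] := by
      have h3 : m ≡ (d + 1) * 2 ^ (d - 1) [MOD d] :=
        Nat.ModEq.of_dvd (Dvd.intro _ rfl) h
      have hf : 2 ^ (d - 1) ≡ 1 [MOD d] := by
        have hc : Nat.Coprime 2 d := by
          rw [Nat.coprime_two_left]; exact Nat.odd_iff.2 hodd
        have := Nat.ModEq.pow_totient hc
        rwa [Nat.totient_prime hd] at this
      have h5 : d + 1 ≡ 1 [MOD d] := by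
        rw [Nat.ModEq, Nat.add_mod_left]
      have h6 := Nat.ModEq.mul h5 hf
      rw [mul_one] at h6
      exact h3.trans h6
    rw [Nat.modEq_zero_iff_dvd] at h2
    obtain ⟨n, r, hr, hmr⟩ := Nat.exists_eq_two_pow_mul_odd (n := m) (by omega)
    have hdn : d ≤ n := by
      rw [hmr] at h2
      have hcop : Nat.Coprime (2 ^ d) r := by
        apply Nat.Coprime.pow_left
        rw [Nat.coprime_two_left]; exact hr
      have h3 : 2 ^ d ∣ 2 ^ n := hcop.dvd_of_dvd_mul_right h2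
      exact (Nat.pow_dvd_pow_iff_le_right (by norm_num)).1 h3
    obtain ⟨M, hM⟩ := hr
    have : NeZero r := ⟨by omega⟩
    rw [hmr] at h4
    refine CubeDec.toFin (V := ZMod r × (Fin n → ZMod 2)) ?_ (caseB (by omega) hodd hdn hM h4)
    rw [hmr]
    simp [Nat.card_prod]
    ring

end Pool.Agent.Helper662
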