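import Pool.Agent.Helper662.CubeDec

set_option autoImplicit false

namespace Pool.Agent.Helper662

variable {Y T I : Type} [AddCommGroup Y] [Module (ZMod 2) Y] [AddCommGroup T] [Module (ZMod 2) T]
  [AddCommGroup I] {d : ℕ}

/-- a linear combination with coefficients in `ZMod 2` -/
def comb {W : Type} [AddCommGroup W] [Module (ZMod 2) W] (w : Fin d → W) :
    (Fin d → ZMod 2) →ₗ[ZMod 2] W := Fintype.linearCombination (ZMod 2) w

theorem comb_single {W : Type} [AddCommGroup W] [Module (ZMod 2) W] (w : Fin d → W) (l : Fin d) :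
    comb w (Pi.single l 1) = w l := by
  unfold comb
  rw [Fintype.linearCombination_apply_single, one_smul]

theorem comb_apply {W : Type} [AddCommGroup W] [Module (ZMod 2) W] (w : Fin d → W)
    (x : Fin d → ZMod 2) : comb w x = ∑ l, x l • w l := rfl

theorem two_zero {W : Type} [AddCommGroup W] [Module (ZMod 2) W] (t : W) : t + t = 0 :=
  ZModModule.add_self t

theorem sub_eq_add2 {W : Type} [AddCommGroup W] [Module (ZMod 2) W] (s t : W) : s - t = s + t := by
  rw [sub_eq_iff_eq_add, add_assoc, two_zero, add_zero]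

/-- the cube attached to the data -/
def cubeMap (a : Fin d → Y) (w : Fin d → T) (P : Y → I) (g : Y → T) (x : Fin d → ZMod 2) : I × T :=
  (P (comb a x), comb w x + g (comb a x))

theorem cubeMap_step (a : Fin d → Y) (w : Fin d → T) (P : Y → I) (g : Y → T)
    (x : Fin d → ZMod 2) (l : Fin d) :
    cubeMap a w P g (x + Pi.single l 1) =
      (P (comb a x + a l), comb w x + w l + g (comb a x + a l)) := by
  unfold cubeMap
  rw [map_add, map_add, comb_single, comb_single]

theorem cubeMap_diff (a : Fin d → Y) (w : Fin d → T) (P : Y → I) (g : Y → T)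
    (x : Fin d → ZMod 2) (l : Fin d) :
    cubeMap a w P g (x + Pi.single l 1) - cubeMap a w P g x =
      (P (comb a x + a l) - P (comb a x), w l + g (comb a x + a l) + g (comb a x)) := by
  rw [cubeMap_step]
  unfold cubeMap
  rw [Prod.mk_sub_mk, sub_eq_add2 (W := T)]
  congr 1
  have := two_zero (comb w x)
  calc comb w x + w l + g (comb a x + a l) + (comb w x + g (comb a x))
      = (comb w x + comb w x) + (w l + g (comb a x + a l) + g (comb a x)) := by abel
    _ = _ := by rw [this, zero_add]

theorem cubeMap_inj (a : Fin d → Y) (w : Fin d → T) (P : Y → I) (g : Y → T)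
    (hP : Function.Injective P) (hli : LinearIndependent (ZMod 2) (fun l => (a l, w l))) :
    Function.Injective (cubeMap a w P g) := by
  intro x x' h
  unfold cubeMap at h
  rw [Prod.mk.injEq] at h
  obtain ⟨h1, h2⟩ := h
  have h3 := hP h1
  rw [h3] at h2
  have h4 := add_right_cancel h2
  have h5 : comb (fun l => (a l, w l)) x = comb (fun l => (a l, w l)) x' := by
    rw [comb_apply, comb_apply]
    refine Prod.ext ?_ ?_
    · simp only [Prod.fst_sum, Prod.smul_fst]
      exact h3
    · simp only [Prod.snd_sum, Prod.smul_snd]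
      exact h4
  have h6 := linearIndependent_iff_injective_fintypeLinearCombination.1 hli
  exact h6 h5

/-- the stabiliser of the cube among the translations -/
def stab (I : Type) [AddCommGroup I] (a : Fin d → Y) (w : Fin d → T) : AddSubgroup (I × T) where
  carrier := {p | ∃ z, comb a z = 0 ∧ p = (0, comb w z)}
  add_mem' := by
    rintro _ _ ⟨z, hz, rfl⟩ ⟨z', hz', rfl⟩
    refine ⟨z + z', by rw [map_add, hz, hz', add_zero], ?_⟩
    rw [map_add, Prod.mk_add_mk, add_zero]
  zero_mem' := ⟨0, by rw [map_zero], by rw [map_zero]; rfl⟩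
  neg_mem' := by
    rintro _ ⟨z, hz, rfl⟩
    refine ⟨z, hz, ?_⟩
    rw [Prod.neg_mk, neg_zero]
    congr 1
    rw [neg_eq_iff_add_eq_zero, two_zero]

theorem cubeMap_stab (a : Fin d → Y) (w : Fin d → T) (P : Y → I) (g : Y → T) :
    ∀ s ∈ stab I a w, ∃ z, ∀ x, cubeMap a w P g (x + z) = cubeMap a w P g x + s := by
  rintro _ ⟨z, hz, rfl⟩
  refine ⟨z, fun x => ?_⟩
  unfold cubeMap
  rw [map_add, map_add, hz, add_zero, Prod.mk_add_mk, add_zero]
  congr 1
  abel

theorem cubeMap_mem_stab (a : Fin d → Y) (w : Fin d → T) (P : Y → I) (g : Y → T)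
    (x x' : Fin d → ZMod 2) (h : comb a x = comb a x') :
    cubeMap a w P g x - cubeMap a w P g x' ∈ stab I a w := by
  refine ⟨x - x', by rw [map_sub, h, sub_self], ?_⟩
  unfold cubeMap
  rw [h, Prod.mk_sub_mk, sub_self, map_sub]
  congr 1
  abel

/-- Orbit of a linear cube under all translations. -/
theorem linCay [Finite I] [Finite T] (a : Fin d → Y) (w : Fin d → T) (P : Y → I) (g : Y → T)
    (hP : Function.Injective P) (hli : LinearIndependent (ZMod 2) (fun l => (a l, w l)))
    (hs : ∀ y : Y, ∃ x, comb a x = y)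
    (hD : ∀ y y' l l', P (y + a l) - P y = P (y' + a l') - P y' →
      w l + g (y + a l) + g y = w l' + g (y' + a l') + g y' → y = y')
    (D : Set (I × T))
    (hDD : ∀ δ, δ ∈ D ↔ ∃ y l, δ = (P (y + a l) - P y, w l + g (y + a l) + g y)) :
    CubeDec d (fun u v => v - u ∈ D) := by
  refine CubeDec.congr ?_ (CubeDec.orbit (Γ := I × T) ⊤ (stab I a w) (cubeMap a w P g)
    (cubeMap_inj a w P g hP hli) (cubeMap_stab a w P g) ?_)
  · intro u v
    rw [hDD]
    constructor
    · rintro ⟨x, l, h, -, rfl, rfl⟩
      refine ⟨comb a x, l, ?_⟩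
      rw [← cubeMap_diff]; abel
    · rintro ⟨y, l, h⟩
      obtain ⟨x, rfl⟩ := hs y
      rw [← cubeMap_diff] at h
      refine ⟨x, l, u - cubeMap a w P g x, AddSubgroup.mem_top _, by abel, ?_⟩
      have : v = u + (v - u) := by abel
      rw [this, h]; abel
  · intro x x' l l' _ h
    rw [cubeMap_diff, cubeMap_diff, Prod.mk.injEq] at h
    exact cubeMap_mem_stab a w P g x x' (hD _ _ _ _ h.1 h.2)

/-- Orbit of a linear cube under the translations of the second factor. -/
theorem linT [Finite I] [Finite T] (a : Fin d → Y) (w : Fin d → T) (P : Y → I)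
    (hP : Function.Injective P) (hli : LinearIndependent (ZMod 2) (fun l => (a l, w l)))
    (hs : ∀ y : Y, ∃ x, comb a x = y) :
    CubeDec d (fun u v : I × T =>
      ∃ y l, u.1 = P y ∧ v.1 = P (y + a l) ∧ v.2 - u.2 = w l) := by
  refine CubeDec.congr ?_ (CubeDec.orbit (Γ := I × T) (AddSubgroup.prod ⊥ ⊤) (stab I a w)
    (cubeMap a w P (fun _ => 0)) (cubeMap_inj a w P _ hP hli) (cubeMap_stab a w P _) ?_)
  · intro u v
    constructor
    · rintro ⟨x, l, h, hh, rfl, rfl⟩
      have h0 : h.1 = 0 := by
        have := (AddSubgroup.mem_prod.1 hh).1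
        simpa using this
      refine ⟨comb a x, l, ?_, ?_, ?_⟩
      · simp [cubeMap, h0]
      · rw [cubeMap_step]; simp [h0]
      · rw [cubeMap_step]; simp [cubeMap]
    · rintro ⟨y, l, h1, h2, h3⟩
      obtain ⟨x, rfl⟩ := hs y
      refine ⟨x, l, (0, u.2 - comb w x), ?_, ?_, ?_⟩
      · rw [AddSubgroup.mem_prod]; simp
      · refine Prod.ext ?_ ?_
        · simp [cubeMap, h1]
        · simp [cubeMap]
      · rw [cubeMap_step]
        refine Prod.ext ?_ ?_
        · simp [h2]
        · have : v.2 = (v.2 - u.2) + u.2 := by abel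
          rw [this, h3]
          simp only [add_zero, Prod.snd_add]
          abel
  · intro x x' l l' h _
    apply cubeMap_mem_stab
    apply hP
    have := (AddSubgroup.mem_prod.1 h).1
    rw [AddSubgroup.mem_bot] at this
    exact sub_eq_zero.1 this

end Pool.Agent.Helper662
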