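import Pool.Agent.Helper662.Final

set_option autoImplicit false

namespace Pool.Agent.Helper662

theorem ifPartOdd {d m : ℕ} (hodd : d % 2 = 1) (hd2 : 2 < d) (hm : 0 < m)
    (h : m ≡ 1 [MOD d * 2 ^ d] ∨ (2 ^ d ∣ m ∧ m ≡ 1 [MOD d])) :
    ∃ k : ℕ, ∃ φ : Fin k → (Fin d → Bool) → Fin m,
          (∀ i, Function.Injective (φ i)) ∧
          ∀ u v : Fin m, u ≠ v →
            ∃! i : Fin k, ∃ x y : Fin d → Bool,
              hammingDist x y = 1 ∧ φ i x = u ∧ φ i y = v := by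
  rcases h with h | ⟨h2, h4⟩
  · obtain ⟨c, hc⟩ := (Nat.modEq_iff_dvd' hm).1 h.symm
    obtain ⟨n, rfl⟩ : ∃ n, d = n + 1 := ⟨d - 1, by omega⟩
    have hmeq : m = 2 * (qe (n + 1) * c) + 1 := by
      rw [qe_eq]
      have : (n + 1) * 2 ^ (n + 1) * c = 2 * ((n + 1) * 2 ^ n * c) := by
        rw [pow_succ]; ring
      rw [this] at hc
      omega
    have : NeZero m := ⟨by omega⟩
    exact CubeDec.toFin (V := ZMod m) (by simp) (caseA n c m hmeq)
  · obtain ⟨n, r, hr, hmr⟩ := Nat.exists_eq_two_pow_mul_odd (n := m) (by omega)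
    have hdn : d ≤ n := by
      rw [hmr] at h2
      have hcop : Nat.Coprime (2 ^ d) r := by
        apply Nat.Coprime.pow_left
        rw [Nat.coprime_two_left]; exact hr
      have h3 : 2 ^ d ∣ 2 ^ n := hcop.dvd_of_dvd_mul_right h2
      exact (Nat.pow_dvd_pow_iff_le_right (by norm_num)).1 h3
    obtain ⟨M, hM⟩ := hr
    have : NeZero r := ⟨by omega⟩
    rw [hmr] at h4
    refine CubeDec.toFin (V := ZMod r × (Fin n → ZMod 2)) ?_ (caseB (by omega) hodd hdn hM h4)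
    rw [hmr]
    simp [Nat.card_prod]
    ring

theorem onlyIfOdd {d k m : ℕ} (hodd : d % 2 = 1) (hm : 0 < m)
    (φ : Fin k → (Fin d → Bool) → Fin m)
    (hinj : ∀ i, Function.Injective (φ i))
    (hcov : ∀ u v : Fin m, u ≠ v → ∃! i : Fin k, ∃ x y : Fin d → Bool,
      hammingDist x y = 1 ∧ φ i x = u ∧ φ i y = v) :
    (m ≡ 1 [MOD d * 2 ^ d] ∨ (2 ^ d ∣ m ∧ m ≡ 1 [MOD d])) := by
  obtain ⟨h1, h2⟩ := onlyIf_count hm φ hinj hcov
  have hcop : Nat.Coprime d (2 ^ d) := by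
    apply Nat.Coprime.pow_right
    rw [Nat.coprime_two_right]
    exact Nat.odd_iff.2 hodd
  have h3 : 2 ^ d ∣ m * (m - 1) := (Dvd.intro_left d rfl).trans h2
  have hmd : m ≡ 1 [MOD d] := ((Nat.modEq_iff_dvd' hm).2 h1).symm
  rcases Nat.even_or_odd m with he | ho
  · right
    have hm1 : Nat.Coprime (2 ^ d) (m - 1) := by
      apply Nat.Coprime.pow_left
      rw [Nat.coprime_two_left]
      rw [Nat.odd_iff]
      rw [Nat.even_iff] at he
      omega
    exact ⟨hm1.dvd_of_dvd_mul_right h3, hmd⟩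
  · left
    have hm1 : Nat.Coprime (2 ^ d) m := by
      apply Nat.Coprime.pow_left
      rw [Nat.coprime_two_left]; exact ho
    have h4 : 2 ^ d ∣ m - 1 := hm1.dvd_of_dvd_mul_left h3
    have h5 : d * 2 ^ d ∣ m - 1 := Nat.Coprime.mul_dvd_of_dvd_of_dvd hcop h1 h4
    exact ((Nat.modEq_iff_dvd' hm).2 h5).symm

end Pool.Agent.Helper662
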