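import Pool.Agent.Helper662.MixedPart

set_option autoImplicit false

namespace Pool.Agent.Helper662

open Finset

/-- standard vectors -/
def ev {d n : ℕ} (hdn : d ≤ n) (l : Fin d) : Fin n → ZMod 2 := Pi.single (Fin.castLE hdn l) 1

/-- the sum of the coordinates -/
def sig {n : ℕ} (v : Fin n → ZMod 2) : ZMod 2 := ∑ i, v i

theorem sig_add {n : ℕ} (u v : Fin n → ZMod 2) : sig (u + v) = sig u + sig v := by
  unfold sig
  simp [Finset.sum_add_distrib]

theorem sig_ev {d n : ℕ} (hdn : d ≤ n) (l : Fin d) : sig (ev hdn l) = 1 := by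
  unfold sig ev
  simp

theorem sig_zero {n : ℕ} : sig (0 : Fin n → ZMod 2) = 0 := by
  unfold sig
  simp

theorem ev_inj {d n : ℕ} (hdn : d ≤ n) : Function.Injective (ev hdn) := by
  intro l l' h
  have h1 := congrFun h (Fin.castLE hdn l)
  unfold ev at h1
  rw [Pi.single_eq_same, Pi.single_apply] at h1
  by_contra hne
  rw [if_neg] at h1
  · exact one_ne_zero h1
  · intro h2
    exact hne (Fin.castLE_injective hdn h2)

theorem ev_li {d n : ℕ} (hdn : d ≤ n) : LinearIndependent (ZMod 2) (ev hdn) := by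
  have h := ((Pi.basisFun (ZMod 2) (Fin n)).linearIndependent).comp (Fin.castLE hdn)
    (Fin.castLE_injective hdn)
  have : (⇑(Pi.basisFun (ZMod 2) (Fin n)) ∘ Fin.castLE hdn) = ev hdn := by
    funext l
    simp [ev, Pi.basisFun_apply]
  rwa [this] at h

theorem ev_coord {d n : ℕ} (hdn : d ≤ n) (l l' : Fin d) :
    ev hdn l (Fin.castLE hdn l') = if l = l' then 1 else 0 := by
  unfold ev
  rw [Pi.single_apply]
  by_cases h : l = l'
  · rw [if_pos h, if_pos (by rw [h])]
  · rw [if_neg h, if_neg]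
    intro h2
    exact h (Fin.castLE_injective hdn h2).symm

section
variable {d n : ℕ} (hd : 3 ≤ d) (hdn : d ≤ n)

/-- the difference between the two copies -/
def al : Fin n → ZMod 2 := ev hdn ⟨0, by omega⟩ + ev hdn ⟨d - 1, by omega⟩
/-- the shift of a system -/
def sh (j : ℕ) : Fin n → ZMod 2 := if j % 2 = 1 then ev hdn ⟨0, by omega⟩ else 0
/-- vectors of the system `j` -/
def EE (j : ℕ) (l : Fin d) : Fin n → ZMod 2 := ev hdn l + sh hd hdn j

theorem sig_al : sig (al hd hdn) = 0 := by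
  unfold al
  rw [sig_add, sig_ev, sig_ev]; decide

theorem sig_sh (j : ℕ) : sig (sh hd hdn j) = if j % 2 = 1 then 1 else 0 := by
  unfold sh
  split_ifs
  · exact sig_ev _ _
  · exact sig_zero

theorem sig_quad (j : ℕ) (C : ℕ → Prop) (v : Fin n → ZMod 2)
    (h : v ∈ quadSet (EE hd hdn j) (al hd hdn) C) : sig v = 1 + if j % 2 = 1 then 1 else 0 := by
  obtain ⟨l, _, h | h⟩ := h
  · rw [h]; unfold EE; rw [sig_add, sig_ev, sig_sh]
  · rw [h]; unfold EE; rw [sig_add, sig_add, sig_ev, sig_sh, sig_al, add_zero]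

theorem EE_li (j x : ℕ) :
    LinearIndependent (ZMod 2) (fun l => (quadA d x l, EE hd hdn j l)) := by
  rw [Fintype.linearIndependent_iff]
  intro g hg
  have h1 := congrArg Prod.fst hg
  have h2 := congrArg Prod.snd hg
  simp only [Prod.fst_sum, Prod.snd_sum, Prod.smul_fst, Prod.smul_snd, Prod.fst_zero,
    Prod.snd_zero] at h1 h2
  have h3 : ∑ l, g l = 0 := by
    have h4 := congrArg (fun y : ZMod 2 × ZMod 2 => y.1 + y.2) h1
    simp only [Prod.fst_sum, Prod.snd_sum, Prod.smul_fst, Prod.smul_snd, Prod.fst_zero,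
      Prod.snd_zero, add_zero] at h4
    rw [← Finset.sum_add_distrib] at h4
    rw [← h4]
    apply Finset.sum_congr rfl
    intro l _
    unfold quadA
    split_ifs <;> simp
  have h5 : ∑ l, g l • ev hdn l = 0 := by
    have h6 : ∑ l, g l • EE hd hdn j l = ∑ l, g l • ev hdn l + (∑ l, g l) • sh hd hdn j := by
      rw [Finset.sum_smul, ← Finset.sum_add_distrib]
      apply Finset.sum_congr rfl
      intro l _
      unfold EE
      rw [smul_add]
    rw [h6, h3, zero_smul, add_zero] at h2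
    exact h2
  exact (Fintype.linearIndependent_iff.1 (ev_li hdn)) g h5

theorem sepa (j x : ℕ) (hx : x < d) : ∀ l l' : Fin d, (l : ℕ) < x → (l' : ℕ) < x →
    EE hd hdn j l ≠ EE hd hdn j l' + al hd hdn := by
  intro l l' hl hl' h
  have h1 := congrFun h (Fin.castLE hdn ⟨d - 1, by omega⟩)
  unfold EE al at h1
  simp only [Pi.add_apply, ev_coord] at h1
  rw [if_neg (fun h => by rw [h] at hl; simp at hl; omega),
    if_neg (fun h => by rw [h] at hl'; simp at hl'; omega),
    if_neg (by rw [Fin.mk.injEq]; omega), if_pos trivial] at h1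
  rw [zero_add, zero_add, left_eq_add] at h1
  exact one_ne_zero h1

theorem sepb (j x : ℕ) (hx : x ≠ 0) : ∀ l l' : Fin d, x ≤ (l : ℕ) → x ≤ (l' : ℕ) →
    EE hd hdn j l ≠ EE hd hdn j l' + al hd hdn := by
  intro l l' hl hl' h
  have h1 := congrFun h (Fin.castLE hdn ⟨0, by omega⟩)
  unfold EE al at h1
  simp only [Pi.add_apply, ev_coord] at h1
  rw [if_neg (fun h => by rw [h] at hl; simp at hl; omega),
    if_neg (fun h => by rw [h] at hl'; simp at hl'; omega), if_pos trivial,
    if_neg (by rw [Fin.mk.injEq]; omega)] at h1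
  rw [zero_add, add_zero, left_eq_add] at h1
  exact one_ne_zero h1

theorem dis (j x y : ℕ) (v : Fin n → ZMod 2)
    (h : v ∈ quadSet (EE hd hdn (j + 1)) (al hd hdn) (fun l => l < x)) :
    v ∉ quadSet (EE hd hdn j) (al hd hdn) (fun l => y ≤ l) := by
  intro h'
  have h1 := sig_quad hd hdn _ _ _ h
  have h2 := sig_quad hd hdn _ _ _ h'
  rw [h1] at h2
  by_cases hj : j % 2 = 1
  · rw [if_pos hj, if_neg (by omega)] at h2
    revert h2; decide
  · rw [if_neg hj, if_pos (by omega)] at h2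
    revert h2; decide

/-- the mixed differences reserved in the first class -/
def WSet (w : ℕ) : Set (Fin n → ZMod 2) := {v | ∃ l : Fin d, (l : ℕ) < w ∧ v = ev hdn l}

theorem dis1 (x w : ℕ) (v : Fin n → ZMod 2)
    (h : v ∈ quadSet (EE hd hdn 1) (al hd hdn) (fun l => l < x)) : v ∉ WSet hdn w := by
  rintro ⟨l, _, h'⟩
  have h1 := sig_quad hd hdn _ _ _ h
  rw [h', sig_ev] at h1
  revert h1; decide

/-- finite version of `quadSet` -/
def quadFin (j : ℕ) (p : ℕ → Bool) : Finset (Fin n → ZMod 2) :=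
  (Finset.univ.filter (fun l : Fin d => p l)).image (EE hd hdn j) ∪
  (Finset.univ.filter (fun l : Fin d => p l)).image (fun l => EE hd hdn j l + al hd hdn)

theorem mem_quadFin (j : ℕ) (p : ℕ → Bool) (v : Fin n → ZMod 2) :
    v ∈ quadFin hd hdn j p ↔ v ∈ quadSet (EE hd hdn j) (al hd hdn) (fun l => p l = true) := by
  unfold quadFin quadSet
  simp only [Finset.mem_union, Finset.mem_image, Finset.mem_filter, Finset.mem_univ, true_and,
    Set.mem_ofPred_eq]
  constructor
  · rintro (⟨l, hl, rfl⟩ | ⟨l, hl, rfl⟩)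
    · exact ⟨l, hl, Or.inl rfl⟩
    · exact ⟨l, hl, Or.inr rfl⟩
  · rintro ⟨l, hl, rfl | rfl⟩
    · exact Or.inl ⟨l, hl, rfl⟩
    · exact Or.inr ⟨l, hl, rfl⟩

theorem EE_inj (j : ℕ) : Function.Injective (EE hd hdn j) := by
  intro l l' h
  unfold EE at h
  exact ev_inj hdn (add_right_cancel h)

theorem card_quadFin (j : ℕ) (p : ℕ → Bool)
    (h : ∀ l l' : Fin d, p l = true → p l' = true → EE hd hdn j l ≠ EE hd hdn j l' + al hd hdn) :
    (quadFin hd hdn j p).card = 2 * (Finset.univ.filter (fun l : Fin d => p l)).card := by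
  unfold quadFin
  rw [Finset.card_union_of_disjoint, Finset.card_image_of_injective _ (EE_inj hd hdn j),
    Finset.card_image_of_injective, two_mul]
  · intro l l' h
    exact EE_inj hd hdn j (add_right_cancel h)
  · rw [Finset.disjoint_left]
    intro v hv hv'
    obtain ⟨l, hl, rfl⟩ := Finset.mem_image.1 hv
    obtain ⟨l', hl', h'⟩ := Finset.mem_image.1 hv'
    rw [Finset.mem_filter] at hl hl'
    exact h l l' hl.2 hl'.2 h'.symm

end

theorem card_lt_filter (d x : ℕ) (hx : x ≤ d) :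
    (Finset.univ.filter (fun l : Fin d => decide ((l : ℕ) < x) = true)).card = x := by
  have := Fin.card_filter_val_lt (n := d) (m := x)
  simp only [decide_eq_true_eq]
  rw [this]
  omega

theorem card_ge_filter (d x : ℕ) (hx : x ≤ d) :
    (Finset.univ.filter (fun l : Fin d => decide (x ≤ (l : ℕ)) = true)).card = d - x := by
  have h1 := card_lt_filter d x hx
  have h2 := Finset.card_filter_add_card_filter_not (s := (Finset.univ : Finset (Fin d)))
    (fun l : Fin d => decide ((l : ℕ) < x) = true)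
  rw [h1, Finset.card_univ, Fintype.card_fin] at h2
  have h3 : (Finset.univ.filter (fun l : Fin d => decide (x ≤ (l : ℕ)) = true)) =
      (Finset.univ.filter (fun l : Fin d => ¬ decide ((l : ℕ) < x) = true)) := by
    apply Finset.filter_congr
    intro l _
    simp
  rw [h3]
  omega

/-- numeric facts -/
theorem num1 (d : ℕ) (hd : 5 ≤ d) : 2 * (d - 1) ≤ 2 ^ (d - 2) := by
  induction d, hd using Nat.le_induction with
  | base => norm_num
  | succ d hd ih =>
    obtain ⟨c, rfl⟩ : ∃ c, d = c + 2 := ⟨d - 2, by omega⟩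
    rw [show c + 2 + 1 - 2 = c + 1 by omega, pow_succ]
    rw [show c + 2 - 2 = c by omega] at ih
    omega

theorem affFill_of {d n : ℕ} (hd : 3 ≤ d) (hodd : d % 2 = 1) (hdn : d ≤ n)
    (F : Finset (Fin n → ZMod 2)) (hF : F.card ≤ 4 * (d - 1)) (hF2 : F.card ≤ 2 ^ n)
    (hmod : F.card ≡ 2 ^ n [MOD d]) : AffFill d {v | v ∉ F} := by
  classical
  have hcard : (Finset.univ \ F).card = 2 ^ n - F.card := by
    rw [Finset.card_sdiff_of_subset (Finset.subset_univ F), Finset.card_univ]
    simp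
  have hdvd : d ∣ 2 ^ n - F.card := (Nat.modEq_iff_dvd' hF2).1 hmod
  obtain ⟨k, hk⟩ := hdvd
  have hk' : (Finset.univ \ F).card = k * d := by rw [hcard, hk, mul_comm]
  have hcond : k = 0 ∨ 2 ^ (d - 2) ≤ k * (d - 1) := by
    rcases Nat.lt_or_ge d 5 with h5 | h5
    · have : d = 3 := by omega
      subst this
      rcases Nat.eq_zero_or_pos k with h | h
      · left; exact h
      · right
        norm_num
        omega
    · right
      have h1 := num1 d h5
      have h2 : 2 ^ d ≤ 2 ^ n := Nat.pow_le_pow_right (by norm_num) hdn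
      obtain ⟨c, rfl⟩ : ∃ c, d = c + 2 := ⟨d - 2, by omega⟩
      rw [show c + 2 - 2 = c by omega] at h1 ⊢
      rw [show c + 2 - 1 = c + 1 by omega] at h1 hF ⊢
      have h3 : 2 ^ (c + 2) = 4 * 2 ^ c := by ring
      rw [h3] at h2
      set N := 2 ^ n
      set P := 2 ^ c
      -- (c+2) k = N - |F| ≥ 4P - 4(c+1)
      have h4 : 4 * P - 4 * (c + 1) ≤ (c + 2) * k := by
        rw [← hk]; omega
      have h5 : 4 * (c + 1) ≤ 4 * P := by omega
      have h6 : 4 * P ≤ (c + 2) * k + 4 * (c + 1) := by omega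
      -- want P ≤ k (c+1)
      have h7 : P * (c + 2) ≤ (k * (c + 1)) * (c + 2) := by
        have h8 : 4 * P * (c + 1) ≤ ((c + 2) * k + 4 * (c + 1)) * (c + 1) :=
          Nat.mul_le_mul_right _ h6
        have h9 : 2 * (c + 1) * (2 * (c + 1)) ≤ P * (2 * (c + 1)) := Nat.mul_le_mul_right _ h1
        nlinarith
      exact Nat.le_of_mul_le_mul_right h7 (by omega)
  obtain ⟨b, hb1, hb2, hb3⟩ := fill_aff d k (by omega) (Finset.univ \ F) hk' hcond
  refine ⟨k, b, hb1, ?_, ?_⟩
  · intro i l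
    have := hb2 i l
    rw [Finset.mem_sdiff] at this
    exact this.2
  · intro s hs
    exact hb3 s (by rw [Finset.mem_sdiff]; exact ⟨Finset.mem_univ _, hs⟩)

theorem num2 (d : ℕ) (hd : 5 ≤ d) : 2 * (d + 1) ≤ 2 ^ (d - 1) := by
  induction d, hd using Nat.le_induction with
  | base => norm_num
  | succ d hd ih =>
    obtain ⟨c, rfl⟩ : ∃ c, d = c + 1 := ⟨d - 1, by omega⟩
    rw [show c + 1 + 1 - 1 = c + 1 by omega, pow_succ]
    rw [show c + 1 - 1 = c by omega] at ih
    omega

theorem linFill_of {d n : ℕ} (hd : 3 ≤ d) (hdn : d ≤ n) (hodd : d % 2 = 1)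
    (h33 : ¬ (d = 3 ∧ n = 3))
    (F : Finset (Fin n → ZMod 2)) (h0 : (0 : Fin n → ZMod 2) ∈ F) (hF : F.card ≤ 2 * d - 1)
    (hmod : F.card ≡ 2 ^ n [MOD d]) : LinFill d {v | v ∉ F} := by
  classical
  have h2n : 2 ^ d ≤ 2 ^ n := Nat.pow_le_pow_right (by norm_num) hdn
  have hbig : 2 * d - 1 ≤ 2 ^ d := by
    have : ∀ e : ℕ, 3 ≤ e → 2 * e - 1 ≤ 2 ^ e := by
      intro e he
      induction e, he using Nat.le_induction with
      | base => norm_num
      | succ e he ih => rw [pow_succ]; omega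
    exact this d hd
  have hF2 : F.card ≤ 2 ^ n := by omega
  have hcard : (Finset.univ \ F).card = 2 ^ n - F.card := by
    rw [Finset.card_sdiff_of_subset (Finset.subset_univ F), Finset.card_univ]
    simp
  have hdvd : d ∣ 2 ^ n - F.card := (Nat.modEq_iff_dvd' hF2).1 hmod
  obtain ⟨k, hk⟩ := hdvd
  have hk' : (Finset.univ \ F).card = k * d := by rw [hcard, hk, mul_comm]
  have hcond : 2 ^ (d - 1) - 1 ≤ k * (d - 1) := by
    rcases Nat.lt_or_ge d 5 with h5 | h5
    · have : d = 3 := by omega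
      subst this
      have hn : 4 ≤ n := by
        rcases Nat.lt_or_ge n 4 with h | h
        · exact absurd ⟨rfl, by omega⟩ h33
        · exact h
      have : 2 ^ 4 ≤ 2 ^ n := Nat.pow_le_pow_right (by norm_num) hn
      norm_num at this hF ⊢
      omega
    · have h1 := num2 d h5
      obtain ⟨c, rfl⟩ : ∃ c, d = c + 2 := ⟨d - 2, by omega⟩
      rw [show c + 2 - 1 = c + 1 by omega] at h1 ⊢
      rw [show 2 * (c + 2) - 1 = 2 * c + 3 by omega] at hF
      have h3 : 2 ^ (c + 2) = 2 * 2 ^ (c + 1) := by ring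
      rw [h3] at h2n
      set N := 2 ^ n
      set P := 2 ^ (c + 1)
      have h4 : 2 * P ≤ (c + 2) * k + (2 * c + 3) := by
        rw [← hk]; omega
      obtain ⟨Q, hQ⟩ : ∃ Q, P = Q + 1 := ⟨P - 1, by omega⟩
      have h7 : (P - 1) * (c + 2) ≤ (k * (c + 1)) * (c + 2) := by
        rw [hQ] at h4 h1 ⊢
        rw [Nat.add_sub_cancel]
        have h8 : 2 * (Q + 1) * (c + 1) ≤ ((c + 2) * k + (2 * c + 3)) * (c + 1) :=
          Nat.mul_le_mul_right _ h4
        have h9 : 2 * (c + 2 + 1) * c ≤ (Q + 1) * c := Nat.mul_le_mul_right _ h1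
        nlinarith
      exact Nat.le_of_mul_le_mul_right h7 (by omega)
  obtain ⟨b, hb1, hb2, hb3⟩ := fill_lin d k (by omega) (Finset.univ \ F)
    (by rw [Finset.mem_sdiff]; intro h; exact h.2 h0) hk' hcond
  refine ⟨k, b, hb1, ?_, ?_⟩
  · intro i l
    have := hb2 i l
    rw [Finset.mem_sdiff] at this
    exact this.2
  · intro s hs
    exact hb3 s (by rw [Finset.mem_sdiff]; exact ⟨Finset.mem_univ _, hs⟩)

end Pool.Agent.Helper662
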