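import Pool.Agent.Helper662.Fill

set_option autoImplicit false

namespace Pool.Agent.Helper662

open Finset

theorem zmod2_cases : ∀ y : ZMod 2, y = 0 ∨ y = 1 := by decide
theorem one_one : (1 : ZMod 2) + 1 = 0 := by decide

section
variable {T : Type} [AddCommGroup T] [Module (ZMod 2) T] [Finite T]
variable {I : Type} [AddCommGroup I] [Finite I]

/-- the direction of coordinate `l` -/
def quadA (d x : ℕ) (l : Fin d) : ZMod 2 × ZMod 2 := if (l : ℕ) < x then (1, 0) else (0, 1)
/-- the part of a vertex of the quotient -/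
def quadP (p q : I) (y : ZMod 2 × ZMod 2) : I :=
  (if y.1 = 0 then 0 else p) + (if y.2 = 0 then 0 else q)
/-- the shift of a part -/
def quadG (α : T) (y : ZMod 2 × ZMod 2) : T := if y.1 = 0 then (if y.2 = 0 then 0 else α) else 0

theorem quadP_a (p q : I) (y : ZMod 2 × ZMod 2) :
    quadP p q (y + (1, 0)) - quadP p q y = if y.1 = 0 then p else -p := by
  obtain ⟨y1, y2⟩ := y
  rcases zmod2_cases y1 with rfl | rfl <;> rcases zmod2_cases y2 with rfl | rfl <;>
    simp [quadP, one_one]

theorem quadP_b (p q : I) (y : ZMod 2 × ZMod 2) :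
    quadP p q (y + (0, 1)) - quadP p q y = if y.2 = 0 then q else -q := by
  obtain ⟨y1, y2⟩ := y
  rcases zmod2_cases y1 with rfl | rfl <;> rcases zmod2_cases y2 with rfl | rfl <;>
    simp [quadP, one_one]

theorem quadG_a (α : T) (y : ZMod 2 × ZMod 2) :
    quadG α (y + (1, 0)) + quadG α y = if y.2 = 0 then 0 else α := by
  obtain ⟨y1, y2⟩ := y
  rcases zmod2_cases y1 with rfl | rfl <;> rcases zmod2_cases y2 with rfl | rfl <;>
    simp [quadG, one_one]

theorem quadG_b (α : T) (y : ZMod 2 × ZMod 2) :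
    quadG α (y + (0, 1)) + quadG α y = if y.1 = 0 then α else 0 := by
  obtain ⟨y1, y2⟩ := y
  rcases zmod2_cases y1 with rfl | rfl <;> rcases zmod2_cases y2 with rfl | rfl <;>
    simp [quadG, one_one]

/-- the vectors used in a class -/
def quadSet {d : ℕ} (E : Fin d → T) (α : T) (C : ℕ → Prop) : Set T :=
  {v | ∃ l : Fin d, C l ∧ (v = E l ∨ v = E l + α)}

theorem cubeDec_quad (d x : ℕ) (hx0 : 0 < x) (hxd : x < d) (p q : I)
    (hp : p ≠ -p) (hq : q ≠ -q) (hpq : p ≠ q) (hpq' : p ≠ -q)
    (E : Fin d → T) (α : T)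
    (hli : LinearIndependent (ZMod 2) (fun l => (quadA d x l, E l)))
    (hsepa : ∀ l l' : Fin d, (l : ℕ) < x → (l' : ℕ) < x → E l ≠ E l' + α)
    (hsepb : ∀ l l' : Fin d, x ≤ (l : ℕ) → x ≤ (l' : ℕ) → E l ≠ E l' + α) :
    CubeDec d (fun u v : I × T =>
      ((v.1 - u.1 = p ∨ v.1 - u.1 = -p) ∧ v.2 - u.2 ∈ quadSet E α (fun l => l < x)) ∨
      ((v.1 - u.1 = q ∨ v.1 - u.1 = -q) ∧ v.2 - u.2 ∈ quadSet E α (fun l => x ≤ l))) := by
  classical
  have hp0 : p ≠ 0 := by rintro rfl; exact hp (by rw [neg_zero])
  have hq0 : q ≠ 0 := by rintro rfl; exact hq (by rw [neg_zero])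
  have hs0 : p + q ≠ 0 := fun h => hpq' (eq_neg_of_add_eq_zero_left h)
  have hnn : -p ≠ -q := fun h => hpq (neg_injective h)
  have hpq2 : -p ≠ q := fun h => hpq' (by rw [← h, neg_neg])
  refine linCay (Y := ZMod 2 × ZMod 2) (quadA d x) E (quadP p q) (quadG α) ?_ hli ?_ ?_
    {δ : I × T | ((δ.1 = p ∨ δ.1 = -p) ∧ δ.2 ∈ quadSet E α (fun l => l < x)) ∨
      ((δ.1 = q ∨ δ.1 = -q) ∧ δ.2 ∈ quadSet E α (fun l => x ≤ l))} ?_
  · rintro ⟨y1, y2⟩ ⟨z1, z2⟩ h
    rcases zmod2_cases y1 with rfl | rfl <;> rcases zmod2_cases y2 with rfl | rfl <;>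
    rcases zmod2_cases z1 with rfl | rfl <;> rcases zmod2_cases z2 with rfl | rfl <;>
    simp [quadP] at h <;>
    first
      | rfl
      | exact absurd h hp0
      | exact absurd h.symm hp0
      | exact absurd h hq0
      | exact absurd h.symm hq0
      | exact absurd h hs0
      | exact absurd h.symm hs0
      | exact absurd h hpq
      | exact absurd h.symm hpq
  · rintro ⟨y1, y2⟩
    refine ⟨Pi.single ⟨0, by omega⟩ y1 + Pi.single ⟨x, hxd⟩ y2, ?_⟩
    rw [map_add]
    unfold comb
    rw [Fintype.linearCombination_apply_single, Fintype.linearCombination_apply_single]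
    simp [quadA, hx0]
  · intro y y' l l' h1 h2
    unfold quadA at h1 h2
    by_cases hl : (l : ℕ) < x <;> by_cases hl' : (l' : ℕ) < x
    · rw [if_pos hl, if_pos hl', quadP_a, quadP_a] at h1
      rw [if_pos hl, if_pos hl', add_assoc, add_assoc, quadG_a, quadG_a] at h2
      obtain ⟨y1, y2⟩ := y
      obtain ⟨z1, z2⟩ := y'
      have e1 := hsepa l l' hl hl'
      have e2 := hsepa l' l hl' hl
      rcases zmod2_cases y1 with rfl | rfl <;> rcases zmod2_cases y2 with rfl | rfl <;>
      rcases zmod2_cases z1 with rfl | rfl <;> rcases zmod2_cases z2 with rfl | rfl <;>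
      simp at h1 h2 <;>
      first
        | rfl
        | exact absurd h1 hp
        | exact absurd h1.symm hp
        | exact absurd h2 e1
        | exact absurd h2.symm e2
    · exfalso
      rw [if_pos hl, if_neg hl', quadP_a, quadP_b] at h1
      split_ifs at h1
      · exact hpq h1
      · exact hpq' h1
      · exact hpq2 h1
      · exact hnn h1
    · exfalso
      rw [if_neg hl, if_pos hl', quadP_a, quadP_b] at h1
      split_ifs at h1
      · exact hpq h1.symm
      · exact hpq2 h1.symm
      · exact hpq' h1.symm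
      · exact hnn h1.symm
    · rw [if_neg hl, if_neg hl', quadP_b, quadP_b] at h1
      rw [if_neg hl, if_neg hl', add_assoc, add_assoc, quadG_b, quadG_b] at h2
      obtain ⟨y1, y2⟩ := y
      obtain ⟨z1, z2⟩ := y'
      have e1 := hsepb l l' (by omega) (by omega)
      have e2 := hsepb l' l (by omega) (by omega)
      rcases zmod2_cases y1 with rfl | rfl <;> rcases zmod2_cases y2 with rfl | rfl <;>
      rcases zmod2_cases z1 with rfl | rfl <;> rcases zmod2_cases z2 with rfl | rfl <;>
      simp at h1 h2 <;>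
      first
        | rfl
        | exact absurd h1 hq
        | exact absurd h1.symm hq
        | exact absurd h2 e1
        | exact absurd h2.symm e2
  · rintro ⟨δ1, δ2⟩
    constructor
    · rintro (⟨h1, l, hl, h2⟩ | ⟨h1, l, hl, h2⟩)
      · have hA : quadA d x l = (1, 0) := if_pos hl
        simp only at h1 h2
        rcases h1 with h1 | h1 <;> rcases h2 with h2 | h2
        · refine ⟨(0, 0), l, ?_⟩
          rw [hA, quadP_a, add_assoc, quadG_a]; simp [h1, h2]
        · refine ⟨(0, 1), l, ?_⟩
          rw [hA, quadP_a, add_assoc, quadG_a]; simp [h1, h2]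
        · refine ⟨(1, 0), l, ?_⟩
          rw [hA, quadP_a, add_assoc, quadG_a]; simp [h1, h2]
        · refine ⟨(1, 1), l, ?_⟩
          rw [hA, quadP_a, add_assoc, quadG_a]; simp [h1, h2]
      · have hA : quadA d x l = (0, 1) := if_neg (by omega)
        simp only at h1 h2
        rcases h1 with h1 | h1 <;> rcases h2 with h2 | h2
        · refine ⟨(1, 0), l, ?_⟩
          rw [hA, quadP_b, add_assoc, quadG_b]; simp [h1, h2]
        · refine ⟨(0, 0), l, ?_⟩
          rw [hA, quadP_b, add_assoc, quadG_b]; simp [h1, h2]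
        · refine ⟨(1, 1), l, ?_⟩
          rw [hA, quadP_b, add_assoc, quadG_b]; simp [h1, h2]
        · refine ⟨(0, 1), l, ?_⟩
          rw [hA, quadP_b, add_assoc, quadG_b]; simp [h1, h2]
    · rintro ⟨⟨y1, y2⟩, l, h⟩
      rw [Prod.mk.injEq] at h
      obtain ⟨h1, h2⟩ := h
      by_cases hl : (l : ℕ) < x
      · have hA : quadA d x l = (1, 0) := if_pos hl
        rw [hA, quadP_a] at h1
        rw [hA, add_assoc, quadG_a] at h2
        left
        refine ⟨?_, l, hl, ?_⟩
        · dsimp only at h1 ⊢
          split_ifs at h1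
          · exact Or.inl h1
          · exact Or.inr h1
        · dsimp only at h2 ⊢
          split_ifs at h2
          · left; rw [h2, add_zero]
          · right; exact h2
      · have hA : quadA d x l = (0, 1) := if_neg hl
        rw [hA, quadP_b] at h1
        rw [hA, add_assoc, quadG_b] at h2
        right
        refine ⟨?_, l, by omega, ?_⟩
        · dsimp only at h1 ⊢
          split_ifs at h1
          · exact Or.inl h1
          · exact Or.inr h1
        · dsimp only at h2 ⊢
          split_ifs at h2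
          · right; exact h2
          · left; rw [h2, add_zero]

end

end Pool.Agent.Helper662
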