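import Pool.Agent.Helper662.Quad

set_option autoImplicit false

namespace Pool.Agent.Helper662

open Finset

theorem three_colour (r : ℕ) [NeZero r] (hr : 2 ≤ r) :
    ∃ κ : ZMod r → Fin 3, ∀ i, κ i ≠ κ (i + 1) := by
  have : Fact (1 < r) := ⟨by omega⟩
  refine ⟨fun i => if i.val = r - 1 then 2 else if i.val % 2 = 0 then 0 else 1, ?_⟩
  intro i
  have h1 : (i + 1).val = (i.val + 1) % r := by rw [ZMod.val_add, ZMod.val_one]
  have h2 := ZMod.val_lt i
  dsimp only
  rw [h1]
  by_cases h3 : i.val = r - 1
  · rw [if_pos h3, h3]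
    have : (r - 1 + 1) % r = 0 := by rw [Nat.sub_add_cancel (by omega), Nat.mod_self]
    rw [this, if_neg (by omega)]
    simp
  · have h6 : (i.val + 1) % r = i.val + 1 := Nat.mod_eq_of_lt (by omega)
    rw [if_neg h3, h6]
    by_cases h4 : i.val + 1 = r - 1
    · rw [if_pos h4]
      split_ifs <;> simp
    · rw [if_neg h4]
      by_cases h5 : i.val % 2 = 0
      · rw [if_pos h5, if_neg (by omega)]; simp
      · rw [if_neg h5, if_pos (by omega)]; simp

section
variable {T : Type} [AddCommGroup T] [Module (ZMod 2) T] [Finite T]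

/-- decomposition data for the pure differences in a set -/
def LinFill (d : ℕ) (S : Set T) : Prop :=
  ∃ (k : ℕ) (b : Fin k → Fin d → T), (∀ i, LinearIndependent (ZMod 2) (b i)) ∧
    (∀ i l, b i l ∈ S) ∧ (∀ s ∈ S, ∃! i, ∃ l, b i l = s)

/-- decomposition data for the mixed differences in a set -/
def AffFill (d : ℕ) (S : Set T) : Prop :=
  ∃ (k : ℕ) (b : Fin k → Fin d → T),
    (∀ i, LinearIndependent (ZMod 2) (fun l => ((1 : ZMod 2), b i l))) ∧
    (∀ i l, b i l ∈ S) ∧ (∀ s ∈ S, ∃! i, ∃ l, b i l = s)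

theorem cubeDec_K {r : ℕ} [NeZero r] (hr : 3 ≤ r) (d w : ℕ) (hw : 0 < w) (hwd : w < d)
    (i : ZMod r) (V : Fin d → T)
    (hli : LinearIndependent (ZMod 2) (fun l : Fin d => ((if (l : ℕ) < w then (1 : ZMod 2) else 0), V l))) :
    CubeDec d (fun u v : ZMod r × T =>
      (u.1 = i ∧ v.1 = i + 1 ∧ ∃ l : Fin d, (l : ℕ) < w ∧ v.2 - u.2 = V l) ∨
      (u.1 = i + 1 ∧ v.1 = i ∧ ∃ l : Fin d, (l : ℕ) < w ∧ v.2 - u.2 = V l) ∨
      (u.1 = v.1 ∧ (u.1 = i ∨ u.1 = i + 1) ∧ ∃ l : Fin d, w ≤ (l : ℕ) ∧ v.2 - u.2 = V l)) := by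
  have : Fact (1 < r) := ⟨by omega⟩
  have h1ne : (1 : ZMod r) ≠ 0 := one_ne_zero
  refine CubeDec.congr ?_ (linT (Y := ZMod 2) (I := ZMod r)
    (fun l : Fin d => if (l : ℕ) < w then (1 : ZMod 2) else 0) V
    (fun y => if y = 0 then i else i + 1) ?_ hli ?_)
  · intro u v
    constructor
    · rintro ⟨y, l, h1, h2, h3⟩
      by_cases hl : (l : ℕ) < w
      · rw [if_pos hl] at h2
        rcases zmod2_cases y with rfl | rfl
        · left
          refine ⟨by simpa using h1, by simpa using h2, l, hl, h3⟩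
        · right; left
          refine ⟨by simpa using h1, ?_, l, hl, h3⟩
          rw [one_one] at h2
          simpa using h2
      · rw [if_neg hl, add_zero] at h2
        right; right
        refine ⟨by rw [h1, h2], ?_, l, by omega, h3⟩
        rcases zmod2_cases y with rfl | rfl
        · left; simpa using h1
        · right; simpa using h1
    · rintro (⟨h1, h2, l, hl, h3⟩ | ⟨h1, h2, l, hl, h3⟩ | ⟨h0, h1, l, hl, h3⟩)
      · refine ⟨0, l, by simp [h1], ?_, h3⟩
        rw [if_pos hl]; simp [h2]
      · refine ⟨1, l, by simp [h1], ?_, h3⟩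
        rw [if_pos hl, one_one]; simp [h2]
      · rcases h1 with h1 | h1
        · refine ⟨0, l, by simp [h1], ?_, h3⟩
          rw [if_neg (show ¬ (l : ℕ) < w by omega)]; simp [← h0, h1]
        · refine ⟨1, l, by simp [h1], ?_, h3⟩
          rw [if_neg (show ¬ (l : ℕ) < w by omega)]; simp [← h0, h1]
  · intro y y' h
    rcases zmod2_cases y with rfl | rfl <;> rcases zmod2_cases y' with rfl | rfl
    · rfl
    · simp [h1ne] at h
    · simp [h1ne] at h
    · rfl
  · intro y
    refine ⟨Pi.single ⟨0, by omega⟩ y, ?_⟩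
    unfold comb
    rw [Fintype.linearCombination_apply_single]
    simp [hw]

/-- The part of the complete graph consisting of all pure differences and a few mixed
differences between consecutive parts. -/
theorem cubeDec_R {r : ℕ} [NeZero r] (hr : 3 ≤ r) (hodd : Odd r) (d w : ℕ) (hw : 0 < w)
    (hwd : w < d) (V : Fin 3 → Fin d → T) (WS : Set T)
    (hWS : ∀ κ v, v ∈ WS ↔ ∃ l : Fin d, (l : ℕ) < w ∧ v = V κ l)
    (hli : ∀ κ, LinearIndependent (ZMod 2)
      (fun l : Fin d => ((if (l : ℕ) < w then (1 : ZMod 2) else 0), V κ l)))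
    (hne : ∀ κ κ' (l l' : Fin d), κ ≠ κ' → w ≤ (l : ℕ) → w ≤ (l' : ℕ) → V κ l ≠ V κ' l')
    (hn0 : ∀ κ (l : Fin d), w ≤ (l : ℕ) → V κ l ≠ 0)
    (hfill : ∀ κ κ', κ ≠ κ' → LinFill d {v : T | v ≠ 0 ∧ (∀ l : Fin d, w ≤ (l : ℕ) → v ≠ V κ l) ∧
      (∀ l : Fin d, w ≤ (l : ℕ) → v ≠ V κ' l)}) :
    CubeDec d (fun u v : ZMod r × T => (u.1 = v.1 ∧ u.2 ≠ v.2) ∨
      ((v.1 - u.1 = 1 ∨ v.1 - u.1 = -1) ∧ v.2 - u.2 ∈ WS)) := by
  classical
  have : Fact (1 < r) := ⟨by omega⟩
  have h1ne : (1 : ZMod r) ≠ 0 := one_ne_zero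
  have h2ne : (1 : ZMod r) + 1 ≠ 0 := by
    intro h
    have h2 : ((2 : ℕ) : ZMod r) = 0 := by
      rw [← h]; push_cast; norm_num
    rw [ZMod.natCast_eq_zero_iff] at h2
    have := Nat.le_of_dvd (by norm_num) h2
    omega
  obtain ⟨κ, hκ⟩ := three_colour r (by omega)
  refine CubeDec.combine (β := ZMod r ⊕ ZMod r)
    (fun b => Sum.elim
      (fun i => fun u v : ZMod r × T =>
        (u.1 = i ∧ v.1 = i + 1 ∧ ∃ l : Fin d, (l : ℕ) < w ∧ v.2 - u.2 = V (κ i) l) ∨
        (u.1 = i + 1 ∧ v.1 = i ∧ ∃ l : Fin d, (l : ℕ) < w ∧ v.2 - u.2 = V (κ i) l) ∨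
        (u.1 = v.1 ∧ (u.1 = i ∨ u.1 = i + 1) ∧
          ∃ l : Fin d, w ≤ (l : ℕ) ∧ v.2 - u.2 = V (κ i) l))
      (fun i => fun u v : ZMod r × T => u.1 = i ∧ v.1 = i ∧ v.2 - u.2 ∈
        {v : T | v ≠ 0 ∧ (∀ l : Fin d, w ≤ (l : ℕ) → v ≠ V (κ i) l) ∧
          (∀ l : Fin d, w ≤ (l : ℕ) → v ≠ V (κ (i - 1)) l)}) b) ?_ ?_ ?_
  · rintro (i | i) u v h
    · simp only [Sum.elim_inl] at h
      rcases h with ⟨h1, h2, l, hl, h3⟩ | ⟨h1, h2, l, hl, h3⟩ | ⟨h1, h2, l, hl, h3⟩
      · right
        refine ⟨Or.inl (by rw [h1, h2]; abel), ?_⟩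
        rw [hWS (κ i)]; exact ⟨l, hl, h3⟩
      · right
        refine ⟨Or.inr (by rw [h1, h2]; abel), ?_⟩
        rw [hWS (κ i)]; exact ⟨l, hl, h3⟩
      · left
        refine ⟨h1, ?_⟩
        intro h4
        rw [h4, sub_self] at h3
        exact hn0 _ _ hl h3.symm
    · simp only [Sum.elim_inr, Set.mem_ofPred_eq] at h
      obtain ⟨h1, h2, h3, _⟩ := h
      left
      refine ⟨by rw [h1, h2], ?_⟩
      intro h4
      exact h3 (by rw [h4, sub_self])
  · rintro u v (⟨h1, h2⟩ | ⟨h1, h2⟩)
    · have h20 : v.2 - u.2 ≠ 0 := fun h => h2 (sub_eq_zero.1 h).symm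
      by_cases hA : ∃ l : Fin d, w ≤ (l : ℕ) ∧ v.2 - u.2 = V (κ u.1) l
      · refine ⟨Sum.inl u.1, ?_, ?_⟩
        · simp only [Sum.elim_inl]
          right; right
          exact ⟨h1, by simp, hA⟩
        · obtain ⟨l, hl, hl2⟩ := hA
          rintro (i | i) h
          · simp only [Sum.elim_inl] at h
            rcases h with ⟨h3, h4, _⟩ | ⟨h3, h4, _⟩ | ⟨_, h4, l', hl', h5⟩
            · exfalso
              rw [← h1, h3] at h4
              exact h1ne (by simpa using h4.symm)
            · exfalso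
              rw [← h1, h3] at h4
              exact h1ne (by simpa using h4)
            · congr 1
              rcases h4 with h4 | h4
              · exact h4.symm
              · exfalso
                rw [hl2, h4] at h5
                exact hne _ _ l l' (hκ i).symm hl hl' h5
          · exfalso
            simp only [Sum.elim_inr, Set.mem_ofPred_eq] at h
            obtain ⟨h3, _, _, h4, _⟩ := h
            rw [← h3] at h4
            exact h4 l hl hl2
      · by_cases hB : ∃ l : Fin d, w ≤ (l : ℕ) ∧ v.2 - u.2 = V (κ (u.1 - 1)) l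
        · refine ⟨Sum.inl (u.1 - 1), ?_, ?_⟩
          · simp only [Sum.elim_inl]
            right; right
            exact ⟨h1, by simp, hB⟩
          · obtain ⟨l, hl, hl2⟩ := hB
            rintro (i | i) h
            · simp only [Sum.elim_inl] at h
              rcases h with ⟨h3, h4, _⟩ | ⟨h3, h4, _⟩ | ⟨_, h4, h5⟩
              · exfalso
                rw [← h1, h3] at h4
                exact h1ne (by simpa using h4.symm)
              · exfalso
                rw [← h1, h3] at h4
                exact h1ne (by simpa using h4)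
              · congr 1
                rcases h4 with h4 | h4
                · exfalso
                  rw [← h4] at h5
                  exact hA h5
                · rw [h4]; abel
            · exfalso
              simp only [Sum.elim_inr, Set.mem_ofPred_eq] at h
              obtain ⟨h3, _, _, _, h4⟩ := h
              rw [← h3] at h4
              exact h4 l hl hl2
        · refine ⟨Sum.inr u.1, ?_, ?_⟩
          · simp only [Sum.elim_inr, Set.mem_ofPred_eq]
            refine ⟨trivial, h1.symm, h20, ?_, ?_⟩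
            · intro l hl hl2; exact hA ⟨l, hl, hl2⟩
            · intro l hl hl2; exact hB ⟨l, hl, hl2⟩
          · rintro (i | i) h
            · exfalso
              simp only [Sum.elim_inl] at h
              rcases h with ⟨h3, h4, _⟩ | ⟨h3, h4, _⟩ | ⟨_, h4, h5⟩
              · rw [← h1, h3] at h4
                exact h1ne (by simpa using h4.symm)
              · rw [← h1, h3] at h4
                exact h1ne (by simpa using h4)
              · rcases h4 with h4 | h4
                · rw [← h4] at h5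
                  exact hA h5
                · have : i = u.1 - 1 := by rw [h4]; abel
                  rw [this] at h5
                  exact hB h5
            · simp only [Sum.elim_inr, Set.mem_ofPred_eq] at h
              rw [h.1]
    · rcases h1 with h1 | h1
      · have hv : v.1 = u.1 + 1 := by rw [← h1]; abel
        refine ⟨Sum.inl u.1, ?_, ?_⟩
        · simp only [Sum.elim_inl]
          left
          exact ⟨trivial, hv, (hWS _ _).1 h2⟩
        · rintro (i | i) h
          · simp only [Sum.elim_inl] at h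
            rcases h with ⟨h3, h4, _⟩ | ⟨h3, h4, _⟩ | ⟨h3, _⟩
            · rw [h3]
            · exfalso
              rw [h3, h4] at hv
              apply h2ne
              have := hv
              rw [add_assoc] at this
              exact left_eq_add.1 this
            · exfalso
              rw [← h3] at hv
              exact h1ne (by simpa using hv)
          · exfalso
            simp only [Sum.elim_inr, Set.mem_ofPred_eq] at h
            rw [h.1, h.2.1] at hv
            exact h1ne (by simpa using hv)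
      · have hu : u.1 = v.1 + 1 := by
          have : u.1 = v.1 - (v.1 - u.1) := by abel
          rw [this, h1]; abel
        refine ⟨Sum.inl v.1, ?_, ?_⟩
        · simp only [Sum.elim_inl]
          right; left
          exact ⟨hu, trivial, (hWS _ _).1 h2⟩
        · rintro (i | i) h
          · simp only [Sum.elim_inl] at h
            rcases h with ⟨h3, h4, _⟩ | ⟨h3, h4, _⟩ | ⟨h3, _⟩
            · exfalso
              rw [h3, h4] at hu
              apply h2ne
              rw [add_assoc] at hu
              exact left_eq_add.1 hu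
            · rw [h4]
            · exfalso
              rw [h3] at hu
              exact h1ne (by simpa using hu)
          · exfalso
            simp only [Sum.elim_inr, Set.mem_ofPred_eq] at h
            rw [h.1, h.2.1] at hu
            exact h1ne (by simpa using hu)
  · rintro (i | i)
    · exact cubeDec_K hr d w hw hwd i (V (κ i)) (hli _)
    · have hκi : κ i ≠ κ (i - 1) := by
        have := hκ (i - 1)
        rw [sub_add_cancel] at this
        exact this.symm
      obtain ⟨k, b, hb1, hb2, hb3⟩ := hfill _ _ hκi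
      exact cubeDec_pure d k i _ b hb1 hb2 hb3

/-- only pure differences -/
theorem cubeDec_R0 {I : Type} [AddCommGroup I] [Finite I] (d : ℕ)
    (hfill : LinFill d {v : T | v ≠ 0}) :
    CubeDec d (fun u v : I × T => u.1 = v.1 ∧ u.2 ≠ v.2) := by
  obtain ⟨k, b, hb1, hb2, hb3⟩ := hfill
  refine CubeDec.combine (β := I)
    (fun i => fun u v : I × T => u.1 = i ∧ v.1 = i ∧ v.2 - u.2 ∈ {v : T | v ≠ 0}) ?_ ?_ ?_
  · rintro i u v ⟨h1, h2, h3⟩
    refine ⟨by rw [h1, h2], ?_⟩
    intro h4
    exact h3 (by rw [h4, sub_self])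
  · rintro u v ⟨h1, h2⟩
    refine ⟨u.1, ⟨rfl, h1.symm, fun h => h2 (sub_eq_zero.1 h).symm⟩, ?_⟩
    rintro i ⟨h3, _⟩
    exact h3.symm
  · intro i
    exact cubeDec_pure d k i _ b hb1 hb2 hb3

end

end Pool.Agent.Helper662
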