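import Mathlib
import Pool.Agent.Helper269.KdDefs

set_option autoImplicit false

namespace Pool.Agent.Helper662.RdA

open Set Filter Topology ComplexConjugate

/-- The real linear map `v ↦ a v + b v̄` of `ℂ`. -/
noncomputable def L2 (a b : ℂ) : ℂ →L[ℝ] ℂ :=
  a • (ContinuousLinearMap.id ℝ ℂ) + b • (Complex.conjCLE : ℂ →L[ℝ] ℂ)

theorem L2_apply (a b v : ℂ) : L2 a b v = a * v + b * conj v := by
  simp [L2]

/-- The real linear map `v ↦ a v₁ + b v̄₁ + c v₂ + d v̄₂` of `ℂ × ℂ`. -/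
noncomputable def L4 (a b c d : ℂ) : ℂ × ℂ →L[ℝ] ℂ :=
  a • (ContinuousLinearMap.fst ℝ ℂ ℂ)
    + b • ((Complex.conjCLE : ℂ →L[ℝ] ℂ).comp (ContinuousLinearMap.fst ℝ ℂ ℂ))
    + c • (ContinuousLinearMap.snd ℝ ℂ ℂ)
    + d • ((Complex.conjCLE : ℂ →L[ℝ] ℂ).comp (ContinuousLinearMap.snd ℝ ℂ ℂ))

theorem L4_apply (a b c d : ℂ) (v : ℂ × ℂ) :
    L4 a b c d v = a * v.1 + b * conj v.1 + c * v.2 + d * conj v.2 := by
  simp [L4]

/-- Wirtinger derivatives of a function of one complex variable. -/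
def W1 (f : ℂ → ℂ) (z a b : ℂ) : Prop := HasFDerivAt f (L2 a b) z

/-- Wirtinger derivatives of a function of two complex variables. -/
def W2 (f : ℂ × ℂ → ℂ) (p : ℂ × ℂ) (a b c d : ℂ) : Prop := HasFDerivAt f (L4 a b c d) p

theorem W2.add {f g : ℂ × ℂ → ℂ} {p : ℂ × ℂ} {a b c d a' b' c' d' : ℂ}
    (hf : W2 f p a b c d) (hg : W2 g p a' b' c' d') :
    W2 (fun x => f x + g x) p (a + a') (b + b') (c + c') (d + d') := by
  unfold W2 at *
  refine (hf.add hg).congr_fderiv ?_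
  refine ContinuousLinearMap.ext fun v => ?_
  simp only [ContinuousLinearMap.add_apply, L4_apply]
  ring

theorem W2.mul {f g : ℂ × ℂ → ℂ} {p : ℂ × ℂ} {a b c d a' b' c' d' : ℂ}
    (hf : W2 f p a b c d) (hg : W2 g p a' b' c' d') :
    W2 (fun x => f x * g x) p (a * g p + f p * a') (b * g p + f p * b')
      (c * g p + f p * c') (d * g p + f p * d') := by
  unfold W2 at *
  refine (hf.mul hg).congr_fderiv ?_
  refine ContinuousLinearMap.ext fun v => ?_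
  simp only [ContinuousLinearMap.add_apply, ContinuousLinearMap.smul_apply, L4_apply,
    smul_eq_mul]
  ring

theorem W2.conj {f : ℂ × ℂ → ℂ} {p : ℂ × ℂ} {a b c d : ℂ} (hf : W2 f p a b c d) :
    W2 (fun x => (starRingEnd ℂ) (f x)) p ((starRingEnd ℂ) b) ((starRingEnd ℂ) a)
      ((starRingEnd ℂ) d) ((starRingEnd ℂ) c) := by
  unfold W2 at *
  have h := (Complex.conjCLE : ℂ →L[ℝ] ℂ).hasFDerivAt.comp p hf
  refine h.congr_fderiv ?_
  refine ContinuousLinearMap.ext fun v => ?_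
  simp only [ContinuousLinearMap.comp_apply, L4_apply]
  simp
  ring

theorem W2.inv {f : ℂ × ℂ → ℂ} {p : ℂ × ℂ} {a b c d : ℂ} (hf : W2 f p a b c d)
    (h0 : f p ≠ 0) :
    W2 (fun x => (f x)⁻¹) p (-(f p)⁻¹ ^ 2 * a) (-(f p)⁻¹ ^ 2 * b) (-(f p)⁻¹ ^ 2 * c)
      (-(f p)⁻¹ ^ 2 * d) := by
  unfold W2 at *
  have h := (hasFDerivAt_inv' (𝕜 := ℝ) h0).comp p hf
  refine h.congr_fderiv ?_
  refine ContinuousLinearMap.ext fun v => ?_
  simp only [ContinuousLinearMap.comp_apply, L4_apply]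
  simp
  ring

theorem W2.const (e : ℂ) (p : ℂ × ℂ) : W2 (fun _ => e) p 0 0 0 0 := by
  unfold W2
  refine (hasFDerivAt_const e p).congr_fderiv ?_
  refine ContinuousLinearMap.ext fun v => ?_
  simp [L4_apply]

theorem W2.ofBase {f : ℂ → ℂ} {p : ℂ × ℂ} {a b : ℂ} (hf : W1 f p.1 a b) :
    W2 (fun x => f x.1) p a b 0 0 := by
  unfold W1 at hf
  unfold W2
  have h := hf.comp p (hasFDerivAt_fst (𝕜 := ℝ) (E := ℂ) (F := ℂ) (p := p))
  refine h.congr_fderiv ?_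
  refine ContinuousLinearMap.ext fun v => ?_
  simp [L4_apply, L2_apply]

theorem W2.snd (p : ℂ × ℂ) : W2 (fun x => x.2) p 0 0 1 0 := by
  unfold W2
  refine (hasFDerivAt_snd (𝕜 := ℝ) (E := ℂ) (F := ℂ) (p := p)).congr_fderiv ?_
  refine ContinuousLinearMap.ext fun v => ?_
  simp [L4_apply]

theorem W2.congr {f : ℂ × ℂ → ℂ} {p : ℂ × ℂ} {a b c d a' b' c' d' : ℂ}
    (hf : W2 f p a b c d) (ha : a = a') (hb : b = b') (hc : c = c') (hd : d = d') :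
    W2 f p a' b' c' d' := by
  subst ha hb hc hd; exact hf

/-- The data on the unit disc from which the metric is built.
`k` is the weight, `lam = (log k)_z`, `mu = lam_z`, `th = lam_z̄ = (log k)_{z z̄}`,
`sig = th_z = mu_z̄`, `kth = sig_z̄`; `g0` is the metric of the base, `gam = g0_z`,
`gzz = gam_z̄`. -/
structure Base where
  k : ℂ → ℝ
  g0 : ℂ → ℝ
  th : ℂ → ℝ
  kth : ℂ → ℝ
  gzz : ℂ → ℝ
  lam : ℂ → ℂ
  mu : ℂ → ℂ
  mup : ℂ → ℂ
  sig : ℂ → ℂ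
  sigp : ℂ → ℂ
  gam : ℂ → ℂ
  gamp : ℂ → ℂ
  dk : ∀ z : ℂ, True → W1 (fun z => (k z : ℂ)) z (k z * lam z) (k z * conj (lam z))
  dlam : ∀ z : ℂ, True → W1 lam z (mu z) (th z)
  dmu : ∀ z : ℂ, True → W1 mu z (mup z) (sig z)
  dth : ∀ z : ℂ, True → W1 (fun z => (th z : ℂ)) z (sig z) (conj (sig z))
  dsig : ∀ z : ℂ, True → W1 sig z (sigp z) (kth z)
  dg0 : ∀ z : ℂ, True → W1 (fun z => (g0 z : ℂ)) z (gam z) (conj (gam z))
  dgam : ∀ z : ℂ, True → W1 gam z (gamp z) (gzz z)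
  kpos : ∀ z : ℂ, True → 0 < k z
  g0pos : ∀ z : ℂ, True → 0 < g0 z
  thpos : ∀ z : ℂ, True → 0 ≤ th z
  sk : ContDiffOn ℝ ((⊤ : ℕ∞) : WithTop ℕ∞) k Set.univ
  sg0 : ContDiffOn ℝ ((⊤ : ℕ∞) : WithTop ℕ∞) g0 Set.univ
  sth : ContDiffOn ℝ ((⊤ : ℕ∞) : WithTop ℕ∞) th Set.univ
  slam : ContDiffOn ℝ ((⊤ : ℕ∞) : WithTop ℕ∞) lam Set.univ

variable (B : Base)

/-- The domain: a bundle of discs over the unit disc. -/
def dom : Set (ℂ × ℂ) := {p | True ∧ ‖p.2‖ ^ 2 * B.k p.1 < 1}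

/-- `ρ = 1 / (1 - |w|² k)`. -/
noncomputable def rho (p : ℂ × ℂ) : ℝ := (1 - ‖p.2‖ ^ 2 * B.k p.1)⁻¹

noncomputable def qq (p : ℂ × ℂ) : ℝ := B.g0 p.1 + (rho B p - 1) * B.th p.1

noncomputable def bb (p : ℂ × ℂ) : ℝ := B.k p.1 * rho B p ^ 2

noncomputable def nu (p v : ℂ × ℂ) : ℂ := v.2 + p.2 * B.lam p.1 * v.1

/-- The Hermitian form. -/
noncomputable def hf (p v w : ℂ × ℂ) : ℂ :=
  (qq B p : ℂ) * (v.1 * conj w.1) + (bb B p : ℂ) * (nu B p v * conj (nu B p w))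

/-- The metric, the real part of the Hermitian form. -/
noncomputable def gm (p : ℂ × ℂ) : LinearMap.BilinForm ℝ (ℂ × ℂ) :=
  LinearMap.mk₂ ℝ (fun v w => (hf B p v w).re)
    (by intro v v' w; simp [hf, nu]; ring)
    (by intro c v w; simp [hf, nu]; ring)
    (by intro v w w'; simp [hf, nu]; ring)
    (by intro c v w; simp [hf, nu]; ring)

theorem gm_apply (p v w : ℂ × ℂ) : gm B p v w = (hf B p v w).re := rfl

noncomputable def qz (p : ℂ × ℂ) : ℂ := B.gam p.1 + ((rho B p : ℂ) - 1) * B.sig p.1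

noncomputable def qzz (p : ℂ × ℂ) : ℝ := B.gzz p.1 + (rho B p - 1) * B.kth p.1

noncomputable def TT (p A C : ℂ × ℂ) : ℂ := A.1 * nu B p C + C.1 * nu B p A

noncomputable def SS (p : ℂ × ℂ) : ℂ := 2 * (B.k p.1 : ℂ) * rho B p * conj p.2

noncomputable def NN (p A C : ℂ × ℂ) : ℂ :=
  SS B p * nu B p A * nu B p C + B.lam p.1 * (A.1 * C.2 + A.2 * C.1)
    + p.2 * (B.lam p.1 ^ 2 + B.mu p.1) * (A.1 * C.1)

noncomputable def MM (p A C : ℂ × ℂ) : ℂ :=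
  qz B p * (A.1 * C.1) + (bb B p : ℂ) * conj p.2 * B.th p.1 * TT B p A C

/-- `EE p A C D` is the `(1,0)`-derivative of `hf p C D` in the direction `A`. -/
noncomputable def EE (p A C D : ℂ × ℂ) : ℂ :=
  (bb B p : ℂ) * NN B p A C * conj (nu B p D) + conj D.1 * MM B p A C

/-- The Christoffel symbols. -/
noncomputable def Gam (p A C : ℂ × ℂ) : ℂ × ℂ :=
  (MM B p A C / qq B p, NN B p A C - p.2 * B.lam p.1 * (MM B p A C / qq B p))

/-- `1 + 2 k ρ |w|²`. -/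
noncomputable def uu (p : ℂ × ℂ) : ℝ := 1 + 2 * B.k p.1 * rho B p * ‖p.2‖ ^ 2

noncomputable def c2 (p : ℂ × ℂ) : ℝ :=
  2 * B.k p.1 * rho B p * (1 + B.k p.1 * rho B p * ‖p.2‖ ^ 2)

noncomputable def DN (p W A C : ℂ × ℂ) : ℂ :=
  (c2 B p : ℂ) * conj (nu B p W) * (nu B p A * nu B p C)
    + B.th p.1 * uu B p * conj W.1 * TT B p A C + p.2 * B.sig p.1 * conj W.1 * (A.1 * C.1)

noncomputable def DM (p W A C : ℂ × ℂ) : ℂ :=
  ((qzz B p : ℂ) * conj W.1 + (bb B p : ℂ) * p.2 * B.sig p.1 * conj (nu B p W)) * (A.1 * C.1)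
    + ((bb B p : ℂ) * uu B p * B.th p.1 * conj (nu B p W)
        + (bb B p : ℂ) * conj p.2 * conj (B.sig p.1) * conj W.1) * TT B p A C
    + 2 * (bb B p : ℂ) * ‖p.2‖ ^ 2 * B.th p.1 ^ 2 * conj W.1 * (A.1 * C.1)

/-- the `(0,1)`-derivative of `EE p A C D` in the direction `W`. -/
noncomputable def QQ (p W A C D : ℂ × ℂ) : ℂ :=
  (bb B p : ℂ) * NN B p A C * conj (NN B p W D)
    + (bb B p : ℂ) * conj (nu B p D) * DN B p W A C + conj D.1 * DM B p W A C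

noncomputable def PN (p W A C : ℂ × ℂ) : ℂ :=
  SS B p * (B.lam p.1 * W.1 + SS B p * nu B p W / 2) * (nu B p A * nu B p C)
    + SS B p * (B.lam p.1 * A.1 * W.2 + p.2 * B.mu p.1 * W.1 * A.1) * nu B p C
    + SS B p * nu B p A * (B.lam p.1 * C.1 * W.2 + p.2 * B.mu p.1 * W.1 * C.1)
    + B.mu p.1 * W.1 * (A.1 * C.2 + A.2 * C.1)
    + W.2 * (B.lam p.1 ^ 2 + B.mu p.1) * (A.1 * C.1)
    + p.2 * (2 * B.lam p.1 * B.mu p.1 + B.mup p.1) * W.1 * (A.1 * C.1)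

noncomputable def PM (p W A C : ℂ × ℂ) : ℂ :=
  (B.gamp p.1 * W.1 + (bb B p : ℂ) * conj p.2 * nu B p W * B.sig p.1
      + ((rho B p : ℂ) - 1) * B.sigp p.1 * W.1) * (A.1 * C.1)
    + (bb B p : ℂ) * conj p.2 * (B.lam p.1 * W.1 + SS B p * nu B p W) * B.th p.1 * TT B p A C
    + (bb B p : ℂ) * conj p.2 * B.sig p.1 * W.1 * TT B p A C
    + (bb B p : ℂ) * conj p.2 * B.th p.1 * (2 * (A.1 * C.1) *
        (B.lam p.1 * W.2 + p.2 * B.mu p.1 * W.1))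

/-- the `(1,0)`-derivative of `EE p A C D` in the direction `W`. -/
noncomputable def PP (p W A C D : ℂ × ℂ) : ℂ :=
  (bb B p : ℂ) * (B.lam p.1 * W.1 + SS B p * nu B p W) * NN B p A C * conj (nu B p D)
    + (bb B p : ℂ) * PN B p W A C * conj (nu B p D)
    + (bb B p : ℂ) * NN B p A C * (conj p.2 * B.th p.1 * W.1 * conj D.1)
    + conj D.1 * PM B p W A C

end Pool.Agent.Helper662.RdA
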