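import Mathlib
import Pool.Agent.Helper269.KdDefs

set_option autoImplicit false

/-!
The Ricci curvature of a metric on an open subset of `ℂ²`.  The Riemannian part (metrics,
Levi-Civita connection, curvature tensor, distance) is in `Pool.Agent.Helper269.KdDefs`.
-/

namespace Pool.Agent.Helper662.RicDefs

open Pool.Agent.Helper269.KdDefs

/-- `e` is an orthonormal frame at `p`: four tangent vectors at `p`, orthonormal for `g p`
(hence a basis of the tangent space `ℂ × ℂ = ℝ⁴`). -/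
def IsOrthonormalFrame (g : ℂ × ℂ → LinearMap.BilinForm ℝ (ℂ × ℂ)) (p : ℂ × ℂ)
    (e : Fin 4 → ℂ × ℂ) : Prop :=
  ∀ i j, g p (e i) (e j) = if i = j then 1 else 0

/-- The Ricci curvature `Ric(v, v) = ∑ᵢ ⟨R(eᵢ, v) v, eᵢ⟩` at `p`, the trace of
`x ↦ R(x, v) v`, computed in the orthonormal frame `e`. -/
noncomputable def ricci (g : ℂ × ℂ → LinearMap.BilinForm ℝ (ℂ × ℂ)) (p : ℂ × ℂ)
    (e : Fin 4 → ℂ × ℂ) (v : ℂ × ℂ) : ℝ :=
  ∑ i, g p (curvature g p (e i) v v) (e i)

/-- `Ric(p) ≤ c`: that is `Ric(v, v) ≤ c |v|²` for all tangent vectors `v` at `p`. (The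
quantity `Ric(v, v)` does not depend on the orthonormal frame; the inequality is required in
every orthonormal frame, and an orthonormal frame is required to exist.) -/
def RicciLE (g : ℂ × ℂ → LinearMap.BilinForm ℝ (ℂ × ℂ)) (p : ℂ × ℂ) (c : ℝ) : Prop :=
  (∃ e, IsOrthonormalFrame g p e) ∧
    ∀ e, IsOrthonormalFrame g p e → ∀ v, ricci g p e v ≤ c * g p v v

/-- Quadratic Ricci decay: for some `A > 0`, `Ric(p) ≤ -A / (1 + ρ(p)²)` at every point `p` of
`U`, where `ρ(p)` is the Riemannian distance from `p₀` to `p`. -/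
def HasRicciDecay (U : Set (ℂ × ℂ)) (g : ℂ × ℂ → LinearMap.BilinForm ℝ (ℂ × ℂ))
    (p₀ : ℂ × ℂ) : Prop :=
  ∃ A : ℝ, 0 < A ∧ ∀ p ∈ U, RicciLE g p (-A / (1 + riemDist U g p₀ p ^ 2))

end Pool.Agent.Helper662.RicDefs
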